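import Pool.Agent.Q55.GaloisDefs

/-!
# The strong form of the Tate conjecture: definitions
-/

open CategoryTheory AlgebraicGeometry

universe u v w

namespace Pool.Agent.Q60.TD

open Pool.Agent.H914 Pool.Agent.H914.VarClass Pool.Agent.H914.VarClass.Obj
  Pool.Agent.H914.WeilCohomology Pool.Agent.Q55

section Alg

variable {Γ : Type w} [Group Γ] {K : Type*} [Field K] {A : Type*} [Ring A] [Algebra K A]

/-- The subspace `V` is stable under the group which acts. -/
def ActStable (ρ : SubAction Γ K A) (V : Submodule K A) : Prop :=
  ∀ g ∈ ρ.dom, ∀ c ∈ V, ρ.act g c ∈ V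

/-- The representation on `U` is semisimple: every stable subspace of `U` has a stable complement
in `U`. -/
def ActSemisimple (ρ : SubAction Γ K A) (U : Submodule K A) : Prop :=
  ∀ V ≤ U, ActStable ρ V → ∃ V' ≤ U, ActStable ρ V' ∧ V ⊓ V' = ⊥ ∧ V ⊔ V' = U

end Alg

variable {k : Type u} [Field k] {𝒱 : VarClass k} {ops : CycleOps 𝒱}
  {W : WeilCohomology.{u, v} ops} {Γ : Type w} [Group Γ]

/-- The representation of the Galois group on `H^i(Y)` is semisimple: every stable subspace has a
stable complement. -/
def SemisimpleAt (G : GaloisAction W Γ) (Y : 𝒱.Obj) (i : ℕ) : Prop :=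
  ActSemisimple (G.ρ Y) (W.gr Y i)

/-- The strong form of the Tate conjecture for `Y`: the representations on the cohomology in even
degrees are semisimple, and every Tate class is a linear combination of the classes of algebraic
cycles. -/
def StrongTate (G : GaloisAction W Γ) (Y : 𝒱.Obj) : Prop :=
  (∀ j, SemisimpleAt G Y (2 * j)) ∧ TateConj G Y

end Pool.Agent.Q60.TD
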