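import Pool.Agent.Q60.TD.GRep

/-!
# Semisimplicity on tensors and on the cohomology of the powers
-/

open CategoryTheory AlgebraicGeometry TensorProduct

set_option linter.unusedSectionVars false

universe u v w

namespace Pool.Agent.Q60.TD

open Module Matrix
open Pool.Agent.H914 Pool.Agent.H914.VarClass Pool.Agent.H914.VarClass.Obj
  Pool.Agent.H914.WeilCohomology
open Pool.Agent.Y133.Half Pool.Agent.Y121.AH Pool.Agent.Q60.ED Pool.Agent.Q55
open Pool.Agent.Q60.HD (wd wd_zero wd_succ wd_map wd_prj wd_append wd_PH wb_PH sum_append' par_op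
  two_inv par_prod par_pw sg sg_mem sg_xp wb_xp)

section abs

variable {K V V' : Type*} [Field K] [CharZero K] [AddCommGroup V] [Module K V] [AddCommGroup V']
  [Module K V'] {Γ : Type*} [Group Γ]

/-- Semisimplicity of a representation which embeds, virtually, in a semisimple one. -/
theorem ss_pull [FiniteDimensional K V'] {D D' : Subgroup Γ} (ρ : D →* Module.End K V)
    (σ : D' →* Module.End K V') (Δ : Subgroup Γ) (hΔ : Δ.FiniteIndex) (hD : Δ ≤ D)
    (hD' : Δ ≤ D') (φ : V →ₗ[K] V') (hφ : Function.Injective φ)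
    (hc : ∀ g (hg : g ∈ Δ) x, σ ⟨g, hD' hg⟩ (φ x) = φ (ρ ⟨g, hD hg⟩ x))
    {U : Submodule K V} {U' : Submodule K V'} (hU : Stab (Op ρ ⊤) U)
    (hU' : Stab (Op σ ⊤) U') (hle : U.map φ ≤ U') (h : SSon (Op σ ⊤) U') :
    SSon (Op ρ ⊤) U := by
  have h1 : SSon (Op σ (Δ.subgroupOf D')) U' := ss_finiteIndex _ hU' h
  have h2 : Stab (Op σ (Δ.subgroupOf D')) (U.map φ) := by
    rw [stab_op]
    rintro ⟨g, hgD'⟩ hg _ ⟨x, hx, rfl⟩
    rw [Subgroup.mem_subgroupOf] at hg
    have h3 := hc g hg x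
    rw [h3]
    exact ⟨_, stab_op.1 hU _ (Subgroup.mem_top _) x hx, rfl⟩
  have h3 := h1.mono hle h2
  have h4 : SSon (Op ρ (Δ.subgroupOf D)) U := by
    refine SSon.comap φ hφ ?_ ?_ h3
    · rintro _ ⟨⟨g, hgD⟩, hg, rfl⟩
      rw [Subgroup.mem_subgroupOf] at hg
      exact ⟨_, ⟨⟨g, hD' hg⟩, hg, rfl⟩, fun x => hc g hg x⟩
    · rintro _ ⟨⟨g, hgD⟩, hg, rfl⟩
      rw [Subgroup.mem_subgroupOf] at hg
      exact ⟨_, ⟨⟨g, hD hg⟩, hg, rfl⟩, fun x => hc g hg x⟩
  exact maschke _ hU h4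

/-- Semisimplicity on tensors of degree zero. -/
lemma ss_unique {B : Type*} [Unique B] (N : Set (Module.End K (B → K))) (U : Submodule K (B → K)) :
    SSon N U := by
  intro W hW hWs
  by_cases h0 : W = ⊥
  · refine ⟨U, le_rfl, ?_, ?_, ?_⟩
    · intro f hf u hu
      have h1 : f u = (f (fun _ => 1) default) • u := by
        have h2 : u = u default • (fun _ => 1 : B → K) := by
          funext b
          rw [Pi.smul_apply, smul_eq_mul, mul_one, Unique.eq_default b]
        have h3 : f u = u default • f (fun _ => 1) := by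
          conv_lhs => rw [h2, map_smul]
        rw [h3]
        funext b
        rw [Pi.smul_apply, Pi.smul_apply, smul_eq_mul, smul_eq_mul, Unique.eq_default b, mul_comm]
      rw [h1]
      exact U.smul_mem _ hu
    · rw [h0, bot_inf_eq]
    · rw [h0, bot_sup_eq]
  · refine ⟨⊥, bot_le, stab_bot, inf_bot_eq _, ?_⟩
    rw [sup_bot_eq]
    apply le_antisymm hW
    intro u _
    obtain ⟨w, hw, hw0⟩ := Submodule.exists_mem_ne_zero_of_ne_bot h0
    have hwd : w default ≠ 0 := by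
      intro h
      apply hw0
      funext b
      rw [Unique.eq_default b, h]
      rfl
    have h1 : u = (u default / w default) • w := by
      funext b
      rw [Pi.smul_apply, smul_eq_mul, Unique.eq_default b, div_mul_cancel₀ _ hwd]
    rw [h1]
    exact W.smul_mem _ hw

end abs

variable {k : Type u} [Field k] {𝒱 : VarClass k} {ops : CycleOps 𝒱}
  {W : WeilCohomology.{u, 0} ops} {X Y Z : 𝒱.Obj} {ι : Type} [Fintype ι] [DecidableEq ι]
  {Γ : Type w} [Group Γ] (G : GaloisAction W Γ)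

lemma gr_stab (Y : 𝒱.Obj) (i : ℕ) : Stab (Op (rep G Y) ⊤) (W.gr Y i) := by
  rw [stab_op]
  intro g _ x hx
  exact (G.isGalois Y).gr_mem g g.2 i x hx

/-- Semisimplicity passes to varieties which are dominated by a retraction. -/
lemma ss_retract {s : Y ⟶ Z} {p : Z ⟶ Y} (h : s ≫ p = 𝟙 Y) {i : ℕ}
    (hss : SSon (Op (rep G Z) ⊤) (W.gr Z i)) : SSon (Op (rep G Y) ⊤) (W.gr Y i) := by
  obtain ⟨Δ, hΔ, hc⟩ := G.map_act p
  have h1 := (G.isGalois Y).finiteIndex
  have h2 := (G.isGalois Z).finiteIndex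
  refine ss_pull (rep G Y) (rep G Z) (Δ ⊓ (G.ρ Y).dom ⊓ (G.ρ Z).dom) inferInstance
    (fun g hg => hg.1.2) (fun g hg => hg.2) (W.map p).toLinearMap ?_ ?_ (gr_stab G Y i)
    (gr_stab G Z i) ?_ hss
  · intro x y hxy
    have h3 := congrArg (W.map s) hxy
    change W.map s (W.map p x) = W.map s (W.map p y) at h3
    rwa [← W.map_comp, ← W.map_comp, h, W.map_id, W.map_id] at h3
  · intro g hg x
    exact (hc g hg.1.1 hg.2 hg.1.2 x).symm
  · rintro _ ⟨x, hx, rfl⟩
    exact W.map_mem p hx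

variable (e : Basis ι W.K (W.H X)) {a : ι → ℕ}

/-- The representation on the tensors. -/
noncomputable def repT (n : ℕ) : (G.ρ X).dom →* Module.End W.K ((Fin n → ι) → W.K) where
  toFun g := tpow (Am G e g) n
  map_one' := by
    rw [map_one]
    exact LinearMap.ext fun t => tpow_one n t
  map_mul' g h := by
    rw [map_mul]
    exact LinearMap.ext fun t => tpow_mul _ _ n t

variable {e} (he : ∀ j, e j ∈ W.gr X (a j))

lemma op_repT (n : ℕ) : Op (repT G e n) ⊤ = MO (NK (toM G e he) n) := by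
  ext f
  constructor
  · rintro ⟨g, _, rfl⟩
    exact ⟨_, ⟨g, rfl⟩, rfl⟩
  · rintro ⟨_, ⟨g, rfl⟩, rfl⟩
    exact ⟨g, Subgroup.mem_top _, rfl⟩

/-- The comparison of the two representations. -/
lemma exists_cmp (X : 𝒱.Obj) (n : ℕ) : ∃ Δ : Subgroup Γ, Δ.FiniteIndex ∧
    ∃ (hD : Δ ≤ (G.ρ X).dom) (hD' : Δ ≤ (G.ρ (pw X n)).dom), ∀ (e : Basis ι W.K (W.H X)) g
      (hg : g ∈ Δ) (t : (Fin (n + 1) → ι) → W.K),
      rep G (pw X n) ⟨g, hD' hg⟩ (clsK e (prj X n) t) =
        clsK e (prj X n) (repT G e (n + 1) ⟨g, hD hg⟩ t) := by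
  obtain ⟨Δ, hΔ, h⟩ := exists_good G X n
  exact ⟨Δ, hΔ, fun g hg => (h g hg).1, fun g hg => (h g hg).2.1, fun e g hg t =>
    act_cls' G e h hg t⟩

/-- Semisimplicity on the cohomology implies semisimplicity on the tensors. -/
lemma ss_tensor {n i : ℕ} (h : SSon (Op (rep G (pw X n)) ⊤) (W.gr (pw X n) i)) :
    SSon (MO (NK (toM G e he) (n + 1))) (grw (toM G e he) W.K (n + 1) i) := by
  obtain ⟨Δ, hΔ, hD, hD', hc⟩ := exists_cmp (ι := ι) G X n
  rw [← op_repT G he]
  refine ss_pull (repT G e (n + 1)) (rep G (pw X n)) Δ hΔ hD hD'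
    ((wb e n).equivFun.symm).toLinearMap (wb e n).equivFun.symm.injective ?_ ?_
    (gr_stab G (pw X n) i) ?_ h
  · intro g hg t
    have h1 := hc e g hg t
    rw [clsK_prj, clsK_prj] at h1
    exact h1
  · rw [op_repT G he]
    exact grw_stabK _ _
  · rintro _ ⟨t, ht, rfl⟩
    have h1 := (cls_gr_iff G he).1 ht
    rw [clsK_prj] at h1
    exact h1

/-- Semisimplicity on the tensors implies semisimplicity on the cohomology. -/
lemma ss_coh {n i : ℕ}
    (h : SSon (MO (NK (toM G e he) (n + 1))) (grw (toM G e he) W.K (n + 1) i)) :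
    SSon (Op (rep G (pw X n)) ⊤) (W.gr (pw X n) i) := by
  obtain ⟨Δ, hΔ, hD, hD', hc⟩ := exists_cmp (ι := ι) G X n
  have hT : Stab (Op (repT G e (n + 1)) ⊤) (grw (toM G e he) W.K (n + 1) i) := by
    rw [op_repT G he]
    exact grw_stabK _ _
  rw [← op_repT G he] at h
  refine ss_pull (rep G (pw X n)) (repT G e (n + 1)) Δ hΔ hD' hD
    ((wb e n).equivFun).toLinearMap (wb e n).equivFun.injective ?_ (gr_stab G (pw X n) i) hT ?_ h
  · intro g hg x
    have h1 := hc e g hg (tn e n x)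
    rw [clsK_tn] at h1
    change repT G e (n + 1) ⟨g, hD hg⟩ (tn e n x) = tn e n (rep G (pw X n) ⟨g, hD' hg⟩ x)
    rw [h1, tn_cls]
  · rintro _ ⟨x, hx, rfl⟩
    exact tn_gr G he hx

end Pool.Agent.Q60.TD
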