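import Pool.Agent.Q60.TD.Defs
import Pool.Agent.Q60.TD.GSS

/-!
# The intersection pairing on Tate classes
-/

open CategoryTheory AlgebraicGeometry TensorProduct

set_option linter.unusedSectionVars false

universe u v w

namespace Pool.Agent.Q60.TD

open Module Matrix
open Pool.Agent.H914 Pool.Agent.H914.VarClass Pool.Agent.H914.VarClass.Obj
  Pool.Agent.H914.WeilCohomology
open Pool.Agent.Y133.Half Pool.Agent.Y121.AH Pool.Agent.Q60.ED Pool.Agent.Q55 Pool.Agent.H447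

variable {k : Type u} [Field k] {𝒱 : VarClass k} {ops : CycleOps 𝒱}
  {W : WeilCohomology.{u, 0} ops} {X Y Z : 𝒱.Obj} {Γ : Type w} [Group Γ]
  (G : GaloisAction W Γ)

lemma stable_iff {V : Submodule W.K (W.H Y)} :
    ActStable (G.ρ Y) V ↔ Stab (Op (rep G Y) ⊤) V := by
  rw [stab_op]
  exact ⟨fun h g _ c hc => h g g.2 c hc, fun h g hg c hc => h ⟨g, hg⟩ (Subgroup.mem_top _) c hc⟩

lemma ssAt_iff {i : ℕ} : SemisimpleAt G Y i ↔ SSon (Op (rep G Y) ⊤) (W.gr Y i) := by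
  constructor
  · intro h V hV hVs
    obtain ⟨V', h1, h2, h3, h4⟩ := h V hV ((stable_iff G).2 hVs)
    exact ⟨V', h1, (stable_iff G).1 h2, h3, h4⟩
  · intro h V hV hVs
    obtain ⟨V', h1, h2, h3, h4⟩ := h V hV ((stable_iff G).1 hVs)
    exact ⟨V', h1, (stable_iff G).2 h2, h3, h4⟩

/-- Homogeneous classes are detected by homogeneous classes. -/
lemma exists_pair {j : ℕ} (hj : j ≤ Y.dim) {c : W.H Y} (hc : c ∈ W.gr Y (2 * j)) (h0 : c ≠ 0) :
    ∃ x ∈ W.gr Y (2 * (Y.dim - j)), W.tr Y (c * x) ≠ 0 := by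
  by_contra hcon
  push Not at hcon
  apply h0
  apply W.nondeg
  intro b
  refine gr_induction (W.isInternal Y) (p := fun b => W.tr Y (c * b) = 0) ?_ ?_ b
  · intro i b hb
    by_cases hi : i = 2 * (Y.dim - j)
    · subst hi
      exact hcon b hb
    · exact W.tr_eq_zero (W.mul_mem hc hb) (by omega)
  · intro a b ha hb
    rw [mul_add, map_add, ha, hb, add_zero]

/-- **The pairing of Tate classes.** If the representation in the complementary degree is
semisimple, then a non-zero Tate class has a non-zero product with a Tate class. -/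
theorem exists_tate_pair {j : ℕ} (hj : j ≤ Y.dim) {c : W.H Y} (hc : IsTate G Y j c) (h0 : c ≠ 0)
    (hss : SemisimpleAt G Y (2 * (Y.dim - j))) :
    ∃ x, IsTate G Y (Y.dim - j) x ∧ W.tr Y (c * x) ≠ 0 := by
  obtain ⟨hgr, Δ, hΔ, h⟩ := hc
  set U := W.gr Y (2 * (Y.dim - j)) with hU
  let l : W.H Y →ₗ[W.K] W.K := W.tr Y ∘ₗ LinearMap.mulLeft W.K c
  have hl : ∀ x, l x = W.tr Y (c * x) := fun x => rfl
  have hlg : ∀ g ∈ Δ, g ∈ (G.ρ Y).dom → ∀ x, (G.χ g : W.K) ^ j * l ((G.ρ Y).act g x) =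
      (G.χ g : W.K) ^ Y.dim * l x := by
    intro g hg hgD x
    rw [hl, hl, ← (G.isGalois Y).tr_act g hgD, map_mul ((G.ρ Y).act g), h g hg hgD,
      smul_mul_assoc, map_smul, smul_eq_mul]
  have hfi := (G.isGalois Y).finiteIndex
  have h1 : SSon (Op (rep G Y) (Δ.subgroupOf (G.ρ Y).dom)) U :=
    ss_finiteIndex _ (gr_stab G Y _) ((ssAt_iff G).1 hss)
  have hVs : Stab (Op (rep G Y) (Δ.subgroupOf (G.ρ Y).dom)) (U ⊓ LinearMap.ker l) := by
    rw [stab_op]
    rintro ⟨g, hgD⟩ hg x ⟨hx, hx'⟩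
    rw [Subgroup.mem_subgroupOf] at hg
    refine ⟨(G.isGalois Y).gr_mem g hgD _ x hx, ?_⟩
    have h2 := hlg g hg hgD x
    have hx'' : l x = 0 := hx'
    rw [hx'', mul_zero] at h2
    exact (mul_eq_zero.1 h2).resolve_left (pow_ne_zero _ (Units.ne_zero _))
  obtain ⟨C, hC, hCs, h2, h3⟩ := h1 _ inf_le_left hVs
  obtain ⟨x, hx, hx0⟩ := exists_pair hj hgr h0
  have hx' : x ∈ (U ⊓ LinearMap.ker l) ⊔ C := by rw [h3]; exact hx
  obtain ⟨v, hv, y, hy, rfl⟩ := Submodule.mem_sup.1 hx'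
  have hy0 : l y ≠ 0 := by
    rw [← hl, map_add, LinearMap.mem_ker.1 hv.2, zero_add] at hx0
    exact hx0
  refine ⟨y, ⟨hC hy, Δ, hΔ, ?_⟩, hy0⟩
  intro g hg hgD
  have h4 : (G.ρ Y).act g y - (G.χ g : W.K) ^ (Y.dim - j) • y ∈ (U ⊓ LinearMap.ker l) ⊓ C := by
    have h5 : (G.ρ Y).act g y - (G.χ g : W.K) ^ (Y.dim - j) • y ∈ C :=
      C.sub_mem (stab_op.1 hCs ⟨g, hgD⟩ hg y hy) (C.smul_mem _ hy)
    refine ⟨⟨hC h5, ?_⟩, h5⟩
    change l _ = 0
    rw [map_sub, map_smul, smul_eq_mul]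
    have h6 := hlg g hg hgD y
    have h7 : (G.χ g : W.K) ^ Y.dim = (G.χ g : W.K) ^ j * (G.χ g : W.K) ^ (Y.dim - j) := by
      rw [← pow_add]
      congr 1
      omega
    rw [h7, mul_assoc] at h6
    rw [mul_left_cancel₀ (pow_ne_zero _ (Units.ne_zero _)) h6, sub_self]
  rw [h2, Submodule.mem_bot, sub_eq_zero] at h4
  exact h4

/-- The strong Tate conjecture implies that homological and numerical equivalence agree. -/
theorem homEqNum_of_strong (h : StrongTate G Y) : HomEqNum W Y := by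
  intro j hj z hz hnum
  by_contra h0
  have hc : IsTate G Y j (W.cl Y z) := ⟨W.cl_mem hz, G.cl_act Y j z hz⟩
  obtain ⟨x, hx, hx0⟩ := exists_tate_pair G hj hc h0 (h.1 _)
  apply hx0
  have hx' := h.2 _ x hx
  clear hx0 hx
  induction hx' using Submodule.span_induction with
  | mem x hx =>
    obtain ⟨p, hp, w, hw, rfl⟩ := hx
    obtain rfl : p = Y.dim - j := by exact_mod_cast hp
    rw [tr_mul_cl hz hw (by omega), hnum w hw, Rat.cast_zero]
  | zero => rw [mul_zero, map_zero]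
  | add a b _ _ ha hb => rw [mul_add, map_add, ha, hb, add_zero]
  | smul r a _ ha => rw [mul_smul_comm, map_smul, ha, smul_zero]

end Pool.Agent.Q60.TD
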