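import Pool.Agent.Q60.TD.Defs2
import Pool.Agent.Q60.TD.Pair
import Pool.Agent.Q60.HD.Bnd
import Pool.Agent.W552.Main

/-!
# Effective finite determination for the strong form of the Tate conjecture
-/

open CategoryTheory AlgebraicGeometry TensorProduct Polynomial

set_option linter.unusedSectionVars false

universe u v w

namespace Pool.Agent.Q60.TD

open Module Matrix
open Pool.Agent.H914 Pool.Agent.H914.VarClass Pool.Agent.H914.VarClass.Obj
  Pool.Agent.H914.WeilCohomology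
open Pool.Agent.Y133.Half Pool.Agent.Y121.AH Pool.Agent.Q60.ED Pool.Agent.Q55 Pool.Agent.H447
open Pool.Agent.Q56.FD Pool.Agent.H281R3.HT Pool.Agent.W536.RR

variable {k : Type u} [Field k] {𝒱 : VarClass k} {ops : CycleOps 𝒱}
  {W : WeilCohomology.{u, 0} ops} {X Y Z : 𝒱.Obj} {Γ : Type w} [Group Γ]
  {G : GaloisAction W Γ}

lemma as_mem {x : W.H X} (hx : Pool.Agent.W552.AS W X x) : x ∈ (algSys W).C X := by
  refine Pool.Agent.W552.AS.ind (p := fun x => x ∈ algSpan W X) ?_ ?_ hx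
  · rintro j _ ⟨z, hz, rfl⟩
    exact Pool.Agent.W536.RR.cl_mem_algSpan hz
  · intro a b ha hb
    exact Submodule.add_mem _ ha hb

lemma par_alg {D : X.Cycles} (hD : X.IsCyc 1 D) (hHL : HardLefschetz W X D)
    (hB : LefschetzB W X D) : par (W.isInternal X) ∈ (algSys W).Op X X := by
  obtain ⟨c, hc, h⟩ := Pool.Agent.W552.par_aop fun i => Pool.Agent.W552.proj_aop hD hHL hB i
  rw [← h]
  exact Sys.Op.corr (as_mem hc)

/-- The strong Tate conjecture passes to retracts. -/
lemma strong_retract {s : Y ⟶ Z} {p : Z ⟶ Y} (h : s ≫ p = 𝟙 Y) (hZ : StrongTate G Z) :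
    StrongTate G Y := by
  refine ⟨fun j => (ssAt_iff G).2 (ss_retract G h ((ssAt_iff G).1 (hZ.1 j))), ?_⟩
  intro j c hc
  have h1 : IsTate G Z j (W.map p c) := (tatePred G).map p hc
  have h2 := hZ.2 j _ h1
  have h3 : W.map s (W.map p c) = c := by rw [← W.map_comp, h, W.map_id]
  rw [← h3]
  exact spanCycles_of_algSpan (algSpan_map s (Pool.Agent.Y129.span_le_algSpan j h2))
    (W.map_mem s (W.map_mem p hc.1))

/-- The projection and the section between powers. -/
lemma exists_retract {m n : ℕ} (h : m ≤ n) : ∃ (s : pw X m ⟶ pw X n) (p : pw X n ⟶ pw X m),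
    s ≫ p = 𝟙 (pw X m) := by
  refine ⟨liftN X n fun i => prj X m ⟨min i m, by omega⟩,
    liftN X m fun i => prj X n ⟨i, by omega⟩, ?_⟩
  apply hom_ext_prj
  intro i
  rw [Category.assoc, liftN_prj, liftN_prj, Category.id_comp]
  congr 1
  ext
  change min (i : ℕ) m = i
  have := i.2
  omega

lemma strong_le {m n : ℕ} (h : m ≤ n) (hn : StrongTate G (pw X n)) : StrongTate G (pw X m) := by
  obtain ⟨s, p, hsp⟩ := exists_retract (X := X) h
  exact strong_retract hsp hn

/-- A homogeneous basis. -/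
lemma exists_grbasis (W : WeilCohomology.{u, 0} ops) (X : 𝒱.Obj) :
    ∃ (e : Basis (Fin (finrank W.K (W.H X))) W.K (W.H X)) (a : Fin (finrank W.K (W.H X)) → ℕ),
      ∀ j, e j ∈ W.gr X (a j) := by
  let b := (W.isInternal X).collectedBasis fun i => Module.finBasis W.K (W.gr X i)
  have h : ∀ j, ∃ a, (b.reindex (b.indexEquiv (Module.finBasis W.K (W.H X)))) j ∈ W.gr X a := by
    intro j
    rw [Basis.reindex_apply]
    exact ⟨_, (W.isInternal X).collectedBasis_mem _ _⟩
  choose a ha using h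
  exact ⟨_, a, ha⟩

lemma sum_finrank_gr (W : WeilCohomology.{u, 0} ops) (X : 𝒱.Obj) :
    ∑ i ∈ Finset.range (2 * X.dim + 1), finrank W.K (W.gr X i) = finrank W.K (W.H X) :=
  (finrank_eq_sum (W.isInternal X) fun i hi => W.gr_eq_bot X i (by omega)).symm

/-- Frobenius elements are Weil elements. -/
lemma isWeil {ι : Type} [Fintype ι] [DecidableEq ι] {e : Basis ι W.K (W.H X)} {a : ι → ℕ}
    (he : ∀ j, e j ∈ W.gr X (a j)) {g : (G.ρ X).dom}
    (h : ActFrobenius (G.ρ X) G.χ (W.gr X) X.dim g) :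
    (toM G e he).IsWeil (finrank W.K (W.H X)) g := by
  obtain ⟨p, hp, r, P, hr, hχ, hP⟩ := h
  refine ⟨p, hp, r, P, hr, hχ, fun i hi => (hP i hi).1, ?_, ?_⟩
  · refine (Finset.sum_congr rfl fun i hi => (hP i ?_).2.1).le.trans (sum_finrank_gr W X).le
    exact Nat.lt_succ_iff.1 (Finset.mem_range.1 hi)
  · intro i hi j hj k
    have h1 := (hP i hi).2.2 (e j) (by rw [← hj]; exact he j)
    have h2 : aeval ((toM G e he).A g) (P i) =
        LinearMap.toMatrixAlgEquiv e (aeval ((G.ρ X).act g).toLinearMap (P i)) := by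
      have h3 := Polynomial.aeval_algHom_apply
        ((LinearMap.toMatrixAlgEquiv e : Module.End W.K (W.H X) ≃ₐ[W.K] Matrix ι ι W.K).toAlgHom.restrictScalars ℤ)
        (rep G X g) (P i)
      exact h3
    rw [h2, LinearMap.toMatrixAlgEquiv_apply, h1, map_zero, Finsupp.zero_apply]

/-- The arithmetic of the bound. -/
lemma arithT {b d : ℕ} (hd : d + 1 ≤ b) :
    2 * (2 * ((2 * (2 * ((d + 1) * b.factorial)) + 1) ^ b ^ 2 *
      (b ^ 2 + 1) ^ (b ^ 2 + 1)) + 1) ≤ (2 * b) ^ (2 * b) ^ 3 := by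
  rcases Nat.lt_or_ge b 2 with hb | hb
  · obtain rfl : b = 1 := by omega
    obtain rfl : d = 0 := by omega
    norm_num [Nat.factorial]
  have h1 : (d + 1) * b.factorial ≤ b ^ (b + 1) := by
    rw [pow_succ, mul_comm]
    exact Nat.mul_le_mul (Nat.factorial_le_pow b) hd
  have h2 : 2 * (2 * ((d + 1) * b.factorial)) + 1 ≤ (2 * b) ^ (b + 1) := by
    have h3 : 8 ≤ 2 ^ (b + 1) := by
      calc 8 = 2 ^ 3 := by norm_num
        _ ≤ 2 ^ (b + 1) := Nat.pow_le_pow_right (by norm_num) (by omega)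
    have h4 : 1 ≤ b ^ (b + 1) := Nat.one_le_pow _ _ (by omega)
    rw [mul_pow]
    calc 2 * (2 * ((d + 1) * b.factorial)) + 1 ≤ 8 * b ^ (b + 1) := by omega
      _ ≤ 2 ^ (b + 1) * b ^ (b + 1) := Nat.mul_le_mul_right _ h3
  have h3 : (2 * (2 * ((d + 1) * b.factorial)) + 1) ^ b ^ 2 ≤ (2 * b) ^ ((b + 1) * b ^ 2) := by
    rw [pow_mul]
    exact Nat.pow_le_pow_left h2 _
  have h4 : (b ^ 2 + 1) ^ (b ^ 2 + 1) ≤ (2 * b) ^ (2 * (b ^ 2 + 1)) := by
    rw [pow_mul]
    refine Nat.pow_le_pow_left ?_ _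
    nlinarith
  have h5 : 1 ≤ (2 * (2 * ((d + 1) * b.factorial)) + 1) ^ b ^ 2 *
      (b ^ 2 + 1) ^ (b ^ 2 + 1) :=
    Nat.one_le_iff_ne_zero.2 (Nat.mul_ne_zero (pow_ne_zero _ (by omega))
      (pow_ne_zero _ (by omega)))
  have h6 : 16 ≤ (2 * b) ^ 2 := by nlinarith
  calc 2 * (2 * ((2 * (2 * ((d + 1) * b.factorial)) + 1) ^ b ^ 2 *
        (b ^ 2 + 1) ^ (b ^ 2 + 1)) + 1)
      ≤ 16 * ((2 * (2 * ((d + 1) * b.factorial)) + 1) ^ b ^ 2 *
        (b ^ 2 + 1) ^ (b ^ 2 + 1)) := by omega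
    _ ≤ (2 * b) ^ 2 * ((2 * b) ^ ((b + 1) * b ^ 2) * (2 * b) ^ (2 * (b ^ 2 + 1))) :=
        Nat.mul_le_mul h6 (Nat.mul_le_mul h3 h4)
    _ = (2 * b) ^ (2 + ((b + 1) * b ^ 2 + 2 * (b ^ 2 + 1))) := by rw [← pow_add, ← pow_add]
    _ ≤ (2 * b) ^ (2 * b) ^ 3 := by
        refine Nat.pow_le_pow_right (by omega) ?_
        nlinarith [sq_nonneg b, Nat.pow_le_pow_left hb 3]

/-- Everything holds if the cohomology is zero. -/
lemma strong_zero (h : finrank W.K (W.H X) = 0) (n : ℕ) :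
    (∀ i, SemisimpleAt G (pw X n) i) ∧ TateConj G (pw X n) := by
  have h2 : finrank W.K (W.H (pw X n)) = 0 := by
    rw [finrank_pw, h, zero_pow (Nat.succ_ne_zero n)]
  have h3 : Subsingleton (W.H (pw X n)) := Module.finrank_zero_iff.1 h2
  refine ⟨fun j V _ _ => ⟨⊥, bot_le, ?_, inf_bot_eq _, ?_⟩, ?_⟩
  · intro g _ c hc
    rw [Subsingleton.elim ((G.ρ (pw X n)).act g c) c]
    exact hc
  · exact Submodule.ext fun x => by
      rw [Subsingleton.elim x 0]
      exact ⟨fun _ => Submodule.zero_mem _, fun _ => Submodule.zero_mem _⟩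
  · intro j c _
    rw [Subsingleton.elim c 0]
    exact Submodule.zero_mem _

/-- **Effective finite determination for the strong form of the Tate conjecture.** -/
theorem strong_main [TopologicalSpace Γ] [TopologicalSpace W.K] (hA : IsArithmetic G X)
    {D : X.Cycles} (hD : X.IsCyc 1 D) (hHL : HardLefschetz W X D)
    (hH : ∀ n, HodgeType W (pw X n) (pwDiv ops D n)) {N : ℕ}
    (hN : (2 * finrank W.K (W.H X)) ^ (2 * finrank W.K (W.H X)) ^ 3 ≤ N + 1)
    (h : StrongTate G (pw X N)) (n : ℕ) :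
    (∀ i, SemisimpleAt G (pw X n) i) ∧ TateConj G (pw X n) := by
  classical
  by_cases hX : Nontrivial (W.H X)
  swap
  · apply strong_zero
    by_contra h2
    exact hX (Module.nontrivial_of_finrank_pos (R := W.K) (Nat.pos_of_ne_zero h2))
  have hdim := Pool.Agent.Q60.HD.dim_lt hD hHL
  have har := arithT hdim
  set b := finrank W.K (W.H X) with hb
  set D₀ := (2 * (2 * ((X.dim + 1) * b.factorial)) + 1) ^ b ^ 2 * (b ^ 2 + 1) ^ (b ^ 2 + 1)
    with hD₀
  have hD1 : 1 ≤ D₀ := Nat.one_le_iff_ne_zero.2 (Nat.mul_ne_zero (pow_ne_zero _ (by omega))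
    (pow_ne_zero _ (by omega)))
  have hlow : ∀ m ≤ 2 * (2 * D₀ + 1), 0 < m → StrongTate G (pw X (m - 1)) := fun m hm h0 =>
    strong_le (by omega) h
  obtain ⟨e, a, he⟩ := exists_grbasis W X
  have he' : ∀ j, e j ∈ PH W X (a j) := fun j => PH.of (he j)
  have hsq : StrongTate G (X.prod X) := hlow 2 (by omega) (by omega)
  have hB : LefschetzB W X D := lefschetzB_of_square hD hHL (homEqNum_of_strong G hsq)
  have hBCD := ((hodge_case hD hHL hH).out 0 1).1 hB
  have hnum : ∀ n, (algSys W).Num (pw X n) = ⊥ := fun n => (homEqNum_iff _).1 (hBCD n).1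
  have hpar := par_alg hD hHL hB
  obtain ⟨S, hS⟩ := exists_sysK e he' hpar hnum
  obtain ⟨Ω, hΩ, hΩd⟩ := exists_om e (algSys W) he'
  have := hA.topGroup
  have := hA.t2
  have := hA.topField
  have hcard : Fintype.card (Fin b) = b := Fintype.card_fin _
  have hst : ∀ m, StrongTate G (pw X m) → TK (toM G e he) (m + 1) ≤ crdK e (algSys W) (m + 1) := by
    intro m hm
    rw [TK_eq]
    intro t ht
    rw [mem_crdK_succ] at ht ⊢
    have h1 := (ClassPred.sp_eq_iff (Q := tatePred G) (pw X m)).2 hm.2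
    rw [h1] at ht
    exact ht
  obtain ⟨h1, h2⟩ := mainK (b := b) (dX := X.dim) (toM G e he) le_rfl
    (fun i j => by
      have := hA.cont_act (e j) (e.coord i)
      refine this.congr fun g => ?_
      exact (Am_apply G e g i j).symm)
    hA.cont_χ
    (hA.dense.mono fun g hg => isWeil he hg)
    (D₀ := D₀) (by rw [hcard])
    (fun m hm w hw => by
      cases m with
      | zero => exact ss_unique _ _
      | succ m =>
        obtain ⟨j, hj⟩ := hw
        obtain rfl : w = 2 * j := by omega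
        exact ss_tensor G he ((ssAt_iff G).1 ((hlow (m + 1) hm (by omega)).1 j)))
    S (Ω := Ω) (by rw [hS]; exact hΩ) hΩd
    (fun m => by
      rw [hS, TK_eq]
      exact crdK_mono e (fun Z => ClassPred.alg_le (Q := tatePred G)) m)
    (fun m hm => by
      rw [hS]
      cases m with
      | zero => exact fun t _ => mem_crdK_zero e t
      | succ m => exact hst m (hlow (m + 1) hm (by omega)))
  refine ⟨fun i => (ssAt_iff G).2 (ss_coh G he (h2 (n + 1) i)), ?_⟩
  apply (ClassPred.sp_eq_iff (Q := tatePred G) (pw X n)).1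
  apply le_antisymm _ ClassPred.alg_le
  intro c hc
  have h3 : tn e n c ∈ TK (toM G e he) (n + 1) := by
    rw [TK_eq, mem_crdK_succ, clsK_tn]
    exact hc
  have h4 := h1 (n + 1) h3
  rw [hS, mem_crdK_succ, clsK_tn] at h4
  exact h4

end Pool.Agent.Q60.TD
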