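import Pool.Agent.Q60.TD.Dense

/-!
# Extension of scalars for systems of tensors
-/

set_option linter.unusedSectionVars false

namespace Pool.Agent.Q60.TD

open Module Matrix Pool.Agent.Q60.ED

section bc

variable {K : Type} [Field K] {L : Type} [Field L] [Algebra K L] {B : Type} [Fintype B]
  [DecidableEq B]

lemma bc_add (u v : B → K) : bc L (u + v) = bc L u + bc L v := by
  funext b; exact map_add _ _ _

lemma bc_smul (c : K) (u : B → K) : bc L (c • u) = algebraMap K L c • bc L u := by
  funext b; exact map_mul _ _ _

lemma bc_inj {u v : B → K} (h : bc L u = bc L v) : u = v := by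
  funext a
  exact (algebraMap K L).injective (congrFun h a)

/-- The linear extension of a linear map. -/
noncomputable def exM (L : Type) [Field L] [Algebra K L] (p : (B → K) →ₗ[K] (B → K)) :
    (B → L) →ₗ[L] (B → L) := ((LinearMap.toMatrix' p).map (algebraMap K L)).mulVecLin

lemma exM_bc (p : (B → K) →ₗ[K] (B → K)) (u : B → K) : exM L p (bc L u) = bc L (p u) := by
  have h1 : p u = (LinearMap.toMatrix' p).mulVec u := by
    rw [← Matrix.toLin'_apply, Matrix.toLin'_toMatrix']
  rw [h1, ← bc_mulVec]
  rfl

lemma sum_bc (v : B → L) : v = ∑ a, v a • bc L (Pi.single a (1 : K)) := by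
  funext b
  rw [Finset.sum_apply, Finset.sum_eq_single b]
  · simp [bc]
  · intro a _ ha
    rw [Pi.smul_apply, bc, Pi.single_apply, if_neg (Ne.symm ha), map_zero, smul_zero]
  · intro h; exact absurd (Finset.mem_univ _) h

/-- A vector all of whose coordinates along linear forms belong to a subspace belongs to its
extension. -/
lemma mem_bcS {W : Submodule K (B → K)} {t : B → L}
    (h : ∀ l : L →ₗ[K] K, (fun a => l (t a)) ∈ W) : t ∈ bcS L W := by
  classical
  let β := Basis.ofVectorSpace K L
  let s : Finset _ := Finset.univ.biUnion fun a => (β.repr (t a)).support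
  have h1 : t = ∑ i ∈ s, (β i) • bc L (fun a => β.coord i (t a)) := by
    funext a
    rw [Finset.sum_apply]
    conv_lhs => rw [← β.linearCombination_repr (t a), Finsupp.linearCombination_apply,
      Finsupp.sum]
    rw [Finset.sum_subset (s₂ := s)]
    · refine Finset.sum_congr rfl fun i _ => ?_
      rw [Pi.smul_apply, smul_eq_mul, bc, Algebra.smul_def, mul_comm]
      rfl
    · intro i hi
      exact Finset.mem_biUnion.2 ⟨a, Finset.mem_univ _, hi⟩
    · intro i _ hi
      rw [Finsupp.notMem_support_iff.1 hi, zero_smul]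
  rw [h1]
  exact Submodule.sum_mem _ fun i _ => Submodule.smul_mem _ _ (bc_mem (h (β.coord i)))

end bc

variable {K : Type} [Field K] {L : Type} [Field L] [Algebra K L] {ι : Type} [Fintype ι]
  [DecidableEq ι]

lemma tmul_bc {m n : ℕ} (s : (Fin m → ι) → K) (t : (Fin n → ι) → K) :
    tmul (bc L s) (bc L t) = bc L (tmul s t) := by
  funext I
  simp only [tmul, bc, map_mul]

/-- Extension of scalars of a system of tensors. -/
noncomputable def exT (L : Type) [Field L] [Algebra K L] (T : TSys K ι) : TSys L ι where
  S n := bcS L (T.S n)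
  p n := exM L (T.p n)
  p_mem n t := by
    rw [sum_bc (K := K) t, map_sum]
    refine Submodule.sum_mem _ fun a _ => ?_
    rw [map_smul, exM_bc]
    exact Submodule.smul_mem _ _ (bc_mem (T.p_mem n _))
  p_id n t ht := by
    refine Submodule.span_induction (p := fun t _ => exM L (T.p n) t = t) ?_ (map_zero _)
      (fun a b _ _ ha hb => by rw [map_add, ha, hb]) (fun c a _ ha => by rw [map_smul, ha]) ht
    rintro _ ⟨s, hs, rfl⟩
    rw [exM_bc, T.p_id n s hs]
  p_perm n σ t I := by
    let F : ((Fin n → ι) → L) →ₗ[L] ((Fin n → ι) → L) := LinearMap.funLeft L L fun J => J ∘ σ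
    have h1 : ∀ t, exM L (T.p n) (F t) = F (exM L (T.p n) t) := by
      intro t
      rw [sum_bc (K := K) t]
      simp only [map_sum, map_smul]
      refine Finset.sum_congr rfl fun a _ => ?_
      congr 1
      have h2 : F (bc L (Pi.single a (1 : K))) = bc L fun J => (Pi.single a (1 : K) :
        (Fin n → ι) → K) (J ∘ σ) := rfl
      rw [h2, exM_bc, exM_bc]
      funext I
      change algebraMap K L
        (T.p n (fun J => (Pi.single a (1 : K) : (Fin n → ι) → K) (J ∘ σ)) I) = _
      rw [T.p_perm n σ]
      rfl
    exact congrFun (h1 t) I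
  p_tmul m n s t hs := by
    have hadd : ∀ (s : (Fin m → ι) → L) (t t' : (Fin n → ι) → L),
        tmul s (t + t') = tmul s t + tmul s t' := fun s t t' => by
      funext I; simp [tmul, mul_add]
    have hadd' : ∀ (s s' : (Fin m → ι) → L) (t : (Fin n → ι) → L),
        tmul (s + s') t = tmul s t + tmul s' t := fun s s' t => by
      funext I; simp [tmul, add_mul]
    have hsmul : ∀ (c : L) (s : (Fin m → ι) → L) (t : (Fin n → ι) → L),
        tmul s (c • t) = c • tmul s t := fun c s t => by
      funext I; simp only [tmul, Pi.smul_apply, smul_eq_mul]; ring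
    have hsmul' : ∀ (c : L) (s : (Fin m → ι) → L) (t : (Fin n → ι) → L),
        tmul (c • s) t = c • tmul s t := fun c s t => by
      funext I; simp only [tmul, Pi.smul_apply, smul_eq_mul]; ring
    have hzero : ∀ s : (Fin m → ι) → L, tmul s (0 : (Fin n → ι) → L) = 0 := fun s => by
      funext I; simp [tmul]
    have hzero' : ∀ t : (Fin n → ι) → L, tmul (0 : (Fin m → ι) → L) t = 0 := fun s => by
      funext I; simp [tmul]
    rw [sum_bc (K := K) t]
    have h3 : ∀ S : Finset (Fin n → ι), exM L (T.p (m + n))
        (tmul s (∑ a ∈ S, t a • bc L (Pi.single a (1 : K)))) =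
        tmul s (exM L (T.p n) (∑ a ∈ S, t a • bc L (Pi.single a (1 : K)))) := by
      intro S
      classical
      induction S using Finset.induction_on with
      | empty => rw [Finset.sum_empty, hzero, map_zero, map_zero, hzero]
      | insert a S ha ih =>
        rw [Finset.sum_insert ha, hadd, map_add, map_add, hadd, ih]
        congr 1
        rw [hsmul, map_smul, map_smul, hsmul]
        congr 1
        refine Submodule.span_induction (p := fun s _ =>
          exM L (T.p (m + n)) (tmul s (bc L (Pi.single a (1 : K)))) =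
          tmul s (exM L (T.p n) (bc L (Pi.single a (1 : K))))) ?_
          (by rw [hzero', map_zero, hzero']) (fun a b _ _ ha hb => by
            rw [hadd', map_add, ha, hb, hadd']) (fun c a _ ha => by
            rw [hsmul', map_smul, ha, hsmul']) hs
        rintro _ ⟨s, hs, rfl⟩
        rw [tmul_bc, exM_bc, exM_bc, T.p_tmul m n s _ hs, tmul_bc]
    exact h3 _
  one := by
    have h1 : (fun _ => 1 : (Fin 0 → ι) → L) = bc L (fun _ => 1 : (Fin 0 → ι) → K) := by
      funext I; exact (map_one _).symm
    rw [h1]
    exact bc_mem T.one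

lemma exT_S (T : TSys K ι) (n : ℕ) : (exT L T).S n = bcS L (T.S n) := rfl

lemma mat2_bc (Ω : (Fin 2 → ι) → K) : mat2 (bc L Ω) = (mat2 Ω).map (algebraMap K L) := by
  ext a b
  rfl

lemma tpow_bc (g : Matrix ι ι K) (n : ℕ) (t : (Fin n → ι) → K) :
    tpow (g.map (algebraMap K L)) n (bc L t) = bc L (tpow g n t) := by
  funext I
  rw [tpow_apply, bc, tpow_apply, map_sum]
  refine Finset.sum_congr rfl fun J _ => ?_
  rw [map_mul, map_prod]
  rfl

end Pool.Agent.Q60.TD
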