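import Pool.Agent.Q60.TD.Rep

/-!
# Averaging over cosets, and semisimplicity over a field and its algebraic closure
-/

namespace Pool.Agent.Q60.TD

open Module

section Pr

variable {K V : Type*} [Field K] [AddCommGroup V] [Module K V]
  {N : Set (Module.End K V)} {U W C : Submodule K V}

/-- A projection onto a subspace which vanishes on another one. -/
lemma exists_pr (h : W ⊓ C = ⊥) : ∃ p : V →ₗ[K] V, (∀ w ∈ W, p w = w) ∧ (∀ c ∈ C, p c = 0) ∧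
    ∀ v, p v ∈ W := by
  let φ : W →ₗ[K] V ⧸ C := C.mkQ ∘ₗ W.subtype
  have hφ : LinearMap.ker φ = ⊥ := by
    rw [LinearMap.ker_eq_bot']
    intro w hw
    have h1 : (w : V) ∈ C := (Submodule.Quotient.mk_eq_zero C).1 hw
    have h2 : (w : V) ∈ W ⊓ C := ⟨w.2, h1⟩
    rw [h, Submodule.mem_bot] at h2
    exact Subtype.ext h2
  obtain ⟨r, hr⟩ := φ.exists_leftInverse_of_injective hφ
  refine ⟨W.subtype ∘ₗ r ∘ₗ C.mkQ, fun w hw => ?_, fun c hc => ?_, fun v => (r (C.mkQ v)).2⟩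
  · have h1 := LinearMap.congr_fun hr ⟨w, hw⟩
    change ((r (C.mkQ w) : W) : V) = w
    have h2 : r (C.mkQ w) = ⟨w, hw⟩ := h1
    rw [h2]
  · change ((r (C.mkQ c) : W) : V) = 0
    have h1 : C.mkQ c = 0 := (Submodule.Quotient.mk_eq_zero C).2 hc
    rw [h1, map_zero]
    rfl

/-- Semisimplicity in terms of projections. -/
lemma ss_iff (hU : Stab N U) : SSon N U ↔ ∀ W ≤ U, Stab N W → ∃ p : V →ₗ[K] V,
    (∀ w ∈ W, p w = w) ∧ (∀ u ∈ U, p u ∈ W) ∧ ∀ f ∈ N, ∀ u ∈ U, p (f u) = f (p u) := by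
  constructor
  · intro h W hW hWs
    obtain ⟨C, hC, hCs, h1, h2⟩ := h W hW hWs
    obtain ⟨p, hp1, hp2, hp3⟩ := exists_pr h1
    refine ⟨p, hp1, fun u _ => hp3 u, fun f hf u hu => ?_⟩
    rw [← h2] at hu
    obtain ⟨w, hw, c, hc, rfl⟩ := Submodule.mem_sup.1 hu
    rw [map_add, map_add, hp1 _ (hWs f hf w hw), hp2 _ (hCs f hf c hc), map_add, hp1 w hw,
      hp2 c hc, add_zero, add_zero]
  · intro h W hW hWs
    obtain ⟨p, hp1, hp2, hp3⟩ := h W hW hWs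
    refine ⟨U ⊓ LinearMap.ker p, inf_le_left, ?_, ?_, ?_⟩
    · rintro f hf w ⟨hw, hw'⟩
      refine ⟨hU f hf w hw, ?_⟩
      have h1 : p w = 0 := hw'
      change p (f w) = 0
      rw [hp3 f hf w hw, h1, map_zero]
    · rw [eq_bot_iff]
      rintro x ⟨hx, -, hx'⟩
      rw [Submodule.mem_bot]
      have h1 : p x = 0 := hx'
      rwa [hp1 x hx] at h1
    · apply le_antisymm (sup_le hW inf_le_left)
      intro u hu
      refine Submodule.mem_sup.2 ⟨p u, hp2 u hu, u - p u, ⟨?_, ?_⟩, by abel⟩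
      · exact Submodule.sub_mem _ hu (hW (hp2 u hu))
      · change p (u - p u) = 0
        rw [map_sub, hp1 _ (hp2 u hu), sub_self]

end Pr

section Grp

variable {K V : Type*} [Field K] [AddCommGroup V] [Module K V] {G : Type*} [Group G]

/-- The operators of a subgroup. -/
def Op (ρ : G →* Module.End K V) (Δ : Subgroup G) : Set (Module.End K V) :=
  {f | ∃ g ∈ Δ, ρ g = f}

variable {ρ : G →* Module.End K V} {U W : Submodule K V}

lemma mem_Op {Δ : Subgroup G} {g : G} (hg : g ∈ Δ) : ρ g ∈ Op ρ Δ := ⟨g, hg, rfl⟩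

lemma stab_op {Δ : Subgroup G} : Stab (Op ρ Δ) W ↔ ∀ g ∈ Δ, ∀ w ∈ W, ρ g w ∈ W := by
  constructor
  · intro h g hg w hw
    exact h _ (mem_Op hg) w hw
  · rintro h _ ⟨g, hg, rfl⟩ w hw
    exact h g hg w hw

lemma op_mono {Δ Δ' : Subgroup G} (h : Δ ≤ Δ') : Op ρ Δ ⊆ Op ρ Δ' := by
  rintro _ ⟨g, hg, rfl⟩
  exact ⟨g, h hg, rfl⟩

lemma op_inv {Δ : Subgroup G} : ∀ f ∈ Op ρ Δ, ∃ f' ∈ Op ρ Δ, f * f' = 1 ∧ f' * f = 1 := by
  rintro _ ⟨g, hg, rfl⟩
  refine ⟨ρ g⁻¹, ⟨g⁻¹, Δ.inv_mem hg, rfl⟩, ?_, ?_⟩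
  · rw [← map_mul, mul_inv_cancel, map_one]
  · rw [← map_mul, inv_mul_cancel, map_one]

/-- **Maschke's theorem** for a subgroup of finite index. -/
theorem maschke [CharZero K] (Δ : Subgroup G) [Δ.FiniteIndex] (hU : Stab (Op ρ ⊤) U)
    (h : SSon (Op ρ Δ) U) : SSon (Op ρ ⊤) U := by
  classical
  have hU' : Stab (Op ρ Δ) U := hU.mono (op_mono le_top)
  rw [ss_iff hU]
  rw [ss_iff hU'] at h
  intro W hW hWs
  obtain ⟨p, hp1, hp2, hp3⟩ := h W hW (hWs.mono (op_mono le_top))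
  have hfin : Fintype (G ⧸ Δ) := Fintype.ofFinite _
  have hm : (Fintype.card (G ⧸ Δ) : K) ≠ 0 := Nat.cast_ne_zero.2 Fintype.card_ne_zero
  have hinv : ∀ g : G, ∀ v, ρ g (ρ g⁻¹ v) = v := fun g v => by
    have h1 : (ρ g * ρ g⁻¹) v = v := by rw [← map_mul, mul_inv_cancel, map_one]; rfl
    exact h1
  have hmul : ∀ g g' : G, ∀ v, ρ (g * g') v = ρ g (ρ g' v) := fun g g' v => by
    rw [map_mul]; rfl
  let T : G ⧸ Δ → V →ₗ[K] V := fun q => ρ q.out ∘ₗ p ∘ₗ ρ q.out⁻¹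
  have hT : ∀ q v, T q v = ρ q.out (p (ρ q.out⁻¹ v)) := fun q v => rfl
  have hUg : ∀ g : G, ∀ u ∈ U, ρ g u ∈ U := fun g u hu => hU _ (mem_Op (Subgroup.mem_top g)) u hu
  have hWg : ∀ g : G, ∀ u ∈ W, ρ g u ∈ W := fun g u hu => hWs _ (mem_Op (Subgroup.mem_top g)) u hu
  have key : ∀ (g : G) (q : G ⧸ Δ) (u : V), u ∈ U → T (g • q) (ρ g u) = ρ g (T q u) := by
    intro g q u hu
    obtain ⟨δ, hδ, hout⟩ : ∃ δ ∈ Δ, (g • q).out = g * q.out * δ := by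
      refine ⟨(g * q.out)⁻¹ * (g • q).out, ?_, by group⟩
      rw [← QuotientGroup.eq, ← smul_eq_mul, ← MulAction.Quotient.smul_mk,
        QuotientGroup.out_eq', QuotientGroup.out_eq']
    rw [hT, hT, hout]
    have h1 : (g * q.out * δ)⁻¹ = δ⁻¹ * (q.out⁻¹ * g⁻¹) := by group
    rw [h1, hmul δ⁻¹, hmul q.out⁻¹, hmul (g * q.out) δ, hmul g q.out]
    have h2 : ρ g⁻¹ (ρ g u) = u := by
      have := hinv g⁻¹ u
      rwa [inv_inv] at this
    rw [h2]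
    have h3 := hp3 (ρ δ⁻¹) (mem_Op (Δ.inv_mem hδ)) (ρ q.out⁻¹ u) (hUg _ _ hu)
    rw [h3, hinv]
  refine ⟨(Fintype.card (G ⧸ Δ) : K)⁻¹ • ∑ q, T q, ?_, ?_, ?_⟩
  · intro w hw
    rw [LinearMap.smul_apply, LinearMap.sum_apply]
    have h1 : ∀ q, T q w = w := fun q => by
      rw [hT, hp1 _ (hWg _ w hw), hinv]
    simp only [h1, Finset.sum_const, Finset.card_univ]
    rw [← Nat.cast_smul_eq_nsmul K, smul_smul, inv_mul_cancel₀ hm, one_smul]
  · intro u hu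
    rw [LinearMap.smul_apply, LinearMap.sum_apply]
    exact Submodule.smul_mem _ _ (Submodule.sum_mem _ fun q _ => hWg _ _ (hp2 _ (hUg _ _ hu)))
  · rintro _ ⟨g, -, rfl⟩ u hu
    rw [LinearMap.smul_apply, LinearMap.smul_apply, LinearMap.sum_apply, LinearMap.sum_apply,
      map_smul, map_sum]
    congr 1
    rw [← Equiv.sum_comp (MulAction.toPerm g)]
    exact Finset.sum_congr rfl fun q _ => key g q u hu

lemma op_comap {Δ N : Subgroup G} (h : N ≤ Δ) :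
    Op (ρ.comp Δ.subtype) (N.subgroupOf Δ) = Op ρ N := by
  ext f
  constructor
  · rintro ⟨g, hg, rfl⟩
    exact ⟨g.1, hg, rfl⟩
  · rintro ⟨g, hg, rfl⟩
    exact ⟨⟨g, h hg⟩, hg, rfl⟩

lemma op_subtype {Δ : Subgroup G} : Op (ρ.comp Δ.subtype) ⊤ = Op ρ Δ := by
  ext f
  constructor
  · rintro ⟨g, _, rfl⟩
    exact ⟨g.1, g.2, rfl⟩
  · rintro ⟨g, hg, rfl⟩
    exact ⟨⟨g, hg⟩, Subgroup.mem_top _, rfl⟩

/-- Restriction to a subgroup of finite index. -/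
theorem ss_finiteIndex [CharZero K] [FiniteDimensional K V] (Δ : Subgroup G) [Δ.FiniteIndex]
    (hU : Stab (Op ρ ⊤) U) (h : SSon (Op ρ ⊤) U) : SSon (Op ρ Δ) U := by
  have hN : SSon (Op ρ Δ.normalCore) U := by
    refine clifford op_inv ?_ hU (fun W _ hWs => hWs.mono (op_mono le_top)) h
    rintro _ ⟨g, _, rfl⟩ _ ⟨n, hn, rfl⟩
    refine ⟨ρ (g⁻¹ * n * g), ⟨_, ?_, rfl⟩, ?_⟩
    · have := (Subgroup.normalCore_normal Δ).conj_mem n hn g⁻¹
      rwa [inv_inv] at this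
    · rw [← map_mul, ← map_mul]
      congr 1
      group
  have h1 : SSon (Op (ρ.comp Δ.subtype) ⊤) U := by
    have hfi : (Δ.normalCore.subgroupOf Δ).FiniteIndex := inferInstance
    refine maschke (Δ.normalCore.subgroupOf Δ) ?_ ?_
    · rw [op_subtype]
      exact hU.mono (op_mono le_top)
    · rw [op_comap Δ.normalCore_le]
      exact hN
  rwa [op_subtype] at h1

end Grp

end Pool.Agent.Q60.TD
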