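import Pool.Agent.Q60.TD.GMain
import Pool.Agent.Q60.HD.Law

/-!
# The uniform half law for Tate classes
-/

open CategoryTheory AlgebraicGeometry TensorProduct

set_option linter.unusedSectionVars false

universe u v w

namespace Pool.Agent.Q60.TD

open Module
open Pool.Agent.H914 Pool.Agent.H914.VarClass Pool.Agent.H914.VarClass.Obj
  Pool.Agent.H914.WeilCohomology
open Pool.Agent.Y133.Half Pool.Agent.Q55
open Pool.Agent.H281R3.HT Pool.Agent.W536.RR

variable {k : Type u} [Field k] {𝒱 : VarClass k} {ops : CycleOps 𝒱}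
  {W : WeilCohomology.{u, 0} ops} {X Y Z : 𝒱.Obj} {Γ : Type w} [Group Γ]
  {G : GaloisAction W Γ}

/-- An algebraic class of degree one. -/
lemma exists_tr_alg {D : X.Cycles} (hD : X.IsCyc 1 D) (hHL : HardLefschetz W X D)
    [Nontrivial (W.H X)] : ∃ l ∈ (algSys W).C X, W.tr X l = 1 := by
  have h1 : W.cl X D ^ X.dim ≠ 0 := by
    intro h
    have h2 := (hHL 0 (Nat.zero_le _)).1 1 (W.one_mem X)
    rw [LinearMap.pow_mulLeft, LinearMap.mulLeft_apply, Nat.sub_zero, h, zero_mul] at h2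
    exact one_ne_zero (h2 rfl)
  obtain ⟨x, hx, hx0⟩ := exists_pair le_rfl (Pool.Agent.Q60.HD.cl_pow_mem hD X.dim) h1
  rw [Nat.sub_self, mul_zero, W.gr_zero, Submodule.mem_span_singleton] at hx
  obtain ⟨c, rfl⟩ := hx
  rw [mul_smul_comm, mul_one, map_smul, smul_eq_mul] at hx0
  have h2 : W.tr X (W.cl X D ^ X.dim) ≠ 0 := right_ne_zero_of_mul hx0
  refine ⟨(W.tr X (W.cl X D ^ X.dim))⁻¹ • W.cl X D ^ X.dim, Submodule.smul_mem _ _ ?_, ?_⟩
  · exact Pool.Agent.Q60.HD.Sys_pow (algSys W) (cl_mem_algSpan hD) _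
  · rw [map_smul, smul_eq_mul, inv_mul_cancel₀ h2]

lemma bound_ge {b : ℕ} (hb : 0 < b) : 8 ≤ (2 * b) ^ (2 * b) ^ 3 ∧ (2 * b) ^ (2 * b) ^ 3 % 2 = 0 := by
  have h1 : 3 ≤ (2 * b) ^ 3 := by
    calc 3 ≤ 2 ^ 3 := by norm_num
      _ ≤ (2 * b) ^ 3 := Nat.pow_le_pow_left (by omega) 3
  constructor
  · calc 8 = 2 ^ 3 := by norm_num
      _ ≤ (2 * b) ^ 3 := Nat.pow_le_pow_left (by omega) 3
      _ ≤ _ := Nat.pow_le_pow_right (by omega) h1
  · obtain ⟨m, hm⟩ : ∃ m, (2 * b) ^ 3 = m + 1 := ⟨(2 * b) ^ 3 - 1, by omega⟩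
    rw [hm, pow_succ, ← mul_assoc, mul_comm _ 2, mul_assoc]
    exact Nat.mul_mod_right 2 _

lemma conj_le {m n : ℕ} (h : m ≤ n) (hn : TateConj G (pw X n)) : TateConj G (pw X m) := by
  obtain ⟨s, p, hsp⟩ := exists_retract (X := X) h
  intro j c hc
  have h1 : IsTate G (pw X n) j (W.map p c) := (tatePred G).map p hc
  have h2 := hn j _ h1
  have h3 : W.map s (W.map p c) = c := by rw [← W.map_comp, hsp, W.map_id]
  rw [← h3]
  exact spanCycles_of_algSpan (algSpan_map s (Pool.Agent.Y129.span_le_algSpan j h2))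
    (W.map_mem s (W.map_mem p hc.1))

/-- **The uniform half law for Tate classes.** -/
theorem tate_half [TopologicalSpace Γ] [TopologicalSpace W.K] (hA : IsArithmetic G X)
    {D : X.Cycles} (hD : X.IsCyc 1 D) (hHL : HardLefschetz W X D)
    (hH : ∀ n, HodgeType W (pw X n) (pwDiv ops D n)) {N : ℕ}
    (hN : (2 * finrank W.K (W.H X)) ^ (2 * finrank W.K (W.H X)) ^ 3 = N)
    (hss : ∀ j, SemisimpleAt G (pw X (N - 1)) (2 * j)) {ε : ℝ} (hε : 0 < ε) {n : ℕ}
    (hn : (2 * (finrank W.K (W.H X) : ℝ)) ^ (3 * N) / ε ^ 2 ≤ n + 1)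
    (h : (1 / 2 + ε) * tateDim G (pw X n) < cycRank ops (pw X n)) (m : ℕ) :
    (∀ i, SemisimpleAt G (pw X m) i) ∧ TateConj G (pw X m) := by
  by_cases hX : Nontrivial (W.H X)
  swap
  · apply strong_zero
    by_contra h2
    exact hX (Module.nontrivial_of_finrank_pos (R := W.K) (Nat.pos_of_ne_zero h2))
  have hb : 0 < finrank W.K (W.H X) := Module.finrank_pos
  obtain ⟨l, hl, hl1⟩ := exists_tr_alg hD hHL
  obtain ⟨h8, h2⟩ := bound_ge hb
  rw [hN] at h8 h2
  by_contra hcon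
  have hpos : ∀ n, 0 < (algSys W).al X n := by
    intro n
    obtain ⟨m, hm, hm1⟩ := (algSys W).exists_lam hl hl1 n
    refine (algSys W).a_pos (Sys.xp_mem_C (algSys W) hm hm) ?_
    rw [tr_xp, hm1, mul_one]
  have hbot : ∀ m, (algSys W).C (pw X m) ≠ ⊥ := by
    intro m hm
    obtain ⟨y, hy, hy1⟩ := (algSys W).exists_lam hl hl1 m
    rw [hm, Submodule.mem_bot] at hy
    exact ne_zero_of_tr hy1 hy
  have hlt : ∀ m, N ≤ m + 1 → (algSys W).C (pw X m) < (tatePred G).sys.C (pw X m) := by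
    intro m' hm'
    refine lt_of_le_of_ne ClassPred.alg_le fun heq => hcon ?_
    have h3 : TateConj G (pw X m') := (ClassPred.sp_eq_iff (Q := tatePred G) (pw X m')).1 heq.symm
    exact strong_main hA hD hHL hH (N := N - 1) (by omega)
      ⟨hss, conj_le (by omega) h3⟩ m
  have key := Pool.Agent.Q60.HD.uniform_half (S := algSys W) (T := (tatePred G).sys)
    (fun Z => ClassPred.alg_le) hb hpos hbot h8 h2 hlt hε hn
  rw [numDim_eq_cycRank] at key
  exact absurd key (not_le.2 h)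

end Pool.Agent.Q60.TD
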