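import Pool.Agent.Q60.TD.Rep2

/-!
# Semisimplicity over a field and over a Galois extension
-/

set_option linter.unusedSectionVars false

namespace Pool.Agent.Q60.TD

open Module

variable {K L : Type*} [Field K] [Field L] [Algebra K L] {B : Type*} [Fintype B] [DecidableEq B]

/-- Extension of scalars for vectors. -/
def bc (L : Type*) [Field L] [Algebra K L] (u : B → K) : B → L := fun a => algebraMap K L (u a)

/-- Extension of scalars for matrices. -/
def bcM (L : Type*) [Field L] [Algebra K L] (A : Matrix B B K) : Matrix B B L :=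
  A.map (algebraMap K L)

/-- The operators defined by a set of matrices. -/
def MO {K : Type*} [Field K] (N : Set (Matrix B B K)) : Set (Module.End K (B → K)) :=
  {f | ∃ A ∈ N, Matrix.toLin' A = f}

/-- Extension of scalars for subspaces. -/
def bcS (L : Type*) [Field L] [Algebra K L] (U : Submodule K (B → K)) : Submodule L (B → L) :=
  Submodule.span L (bc L '' (U : Set (B → K)))

variable {N : Set (Matrix B B K)} {U W : Submodule K (B → K)}

lemma bc_mem {u : B → K} (hu : u ∈ U) : bc L u ∈ bcS L U := Submodule.subset_span ⟨u, hu, rfl⟩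

lemma bcS_mono (h : U ≤ W) : bcS L U ≤ bcS L W := by
  refine Submodule.span_mono ?_
  rintro _ ⟨u, hu, rfl⟩
  exact ⟨u, h hu, rfl⟩

lemma bc_mulVec (A : Matrix B B K) (u : B → K) :
    (bcM L A).mulVec (bc L u) = bc L (A.mulVec u) := by
  funext a
  rw [bc, Matrix.mulVec, dotProduct, Matrix.mulVec, dotProduct, map_sum]
  refine Finset.sum_congr rfl fun b _ => ?_
  rw [map_mul]
  rfl

/-- Descent along a linear form. -/
lemma lam_mem (l : L →ₗ[K] K) {w : B → L} (hw : w ∈ bcS L W) : (fun a => l (w a)) ∈ W := by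
  refine Submodule.span_induction (p := fun w _ => (fun a => l (w a)) ∈ W) ?_ ?_ ?_ ?_ hw
  · rintro _ ⟨u, hu, rfl⟩
    have h1 : (fun a => l (bc L u a)) = l 1 • u := by
      funext a
      rw [bc, Algebra.algebraMap_eq_smul_one, map_smul, Pi.smul_apply, smul_eq_mul, smul_eq_mul,
        mul_comm]
    rw [h1]
    exact Submodule.smul_mem _ _ hu
  · simp only [Pi.zero_apply, map_zero]
    exact Submodule.zero_mem _
  · intro x y _ _ hx hy
    simp only [Pi.add_apply, map_add]
    exact Submodule.add_mem _ hx hy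
  · intro c x hx h
    have h2 : ∀ (l : L →ₗ[K] K) (c : L) (x : B → L), x ∈ bcS L W →
        (fun a => l (c * x a)) ∈ W := by
      intro l c x hx
      refine Submodule.span_induction (p := fun x _ => ∀ c, (fun a => l (c * x a)) ∈ W)
        ?_ ?_ ?_ ?_ hx c
      · rintro _ ⟨u, hu, rfl⟩ c
        have h1 : (fun a => l (c * bc L u a)) = l c • u := by
          funext a
          rw [bc, Algebra.algebraMap_eq_smul_one, mul_smul_comm, mul_one, map_smul,
            Pi.smul_apply, smul_eq_mul, smul_eq_mul, mul_comm]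
        rw [h1]
        exact Submodule.smul_mem _ _ hu
      · intro c
        simp only [Pi.zero_apply, mul_zero, map_zero]
        exact Submodule.zero_mem _
      · intro x y _ _ hx hy c
        simp only [Pi.add_apply, mul_add, map_add]
        exact Submodule.add_mem _ (hx c) (hy c)
      · intro d x _ hx c
        have h3 : (fun a => l (c * (d • x) a)) = fun a => l (c * d * x a) := by
          funext a
          rw [Pi.smul_apply, smul_eq_mul, mul_assoc]
        rw [h3]
        exact hx (c * d)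
    exact h2 l c x hx

lemma exists_ret : ∃ l : L →ₗ[K] K, ∀ c : K, l (algebraMap K L c) = c := by
  have h1 : LinearMap.ker (Algebra.linearMap K L) = ⊥ := by
    rw [LinearMap.ker_eq_bot]
    exact (algebraMap K L).injective
  obtain ⟨r, hr⟩ := (Algebra.linearMap K L).exists_leftInverse_of_injective h1
  exact ⟨r, fun c => LinearMap.congr_fun hr c⟩

lemma of_bc_mem {u : B → K} (hu : bc L u ∈ bcS L U) : u ∈ U := by
  obtain ⟨l, hl⟩ := exists_ret (K := K) (L := L)
  have h1 := lam_mem l hu
  have h2 : (fun a => l (bc L u a)) = u := by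
    funext a
    exact hl _
  rwa [h2] at h1

lemma stab_MO {K : Type*} [Field K] {N : Set (Matrix B B K)} {U : Submodule K (B → K)} :
    Stab (MO N) U ↔ ∀ A ∈ N, ∀ u ∈ U, A.mulVec u ∈ U := by
  constructor
  · intro h A hA u hu
    exact h _ ⟨A, hA, rfl⟩ u hu
  · rintro h _ ⟨A, hA, rfl⟩ u hu
    exact h A hA u hu

lemma stab_bcS (h : Stab (MO N) U) : Stab (MO (bcM L '' N)) (bcS L U) := by
  rw [stab_MO] at h ⊢
  rintro _ ⟨A, hA, rfl⟩ u hu
  refine Submodule.span_induction (p := fun u _ => (bcM L A).mulVec u ∈ bcS L U) ?_ ?_ ?_ ?_ hu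
  · rintro _ ⟨u, hu, rfl⟩
    rw [bc_mulVec]
    exact bc_mem (h A hA u hu)
  · rw [Matrix.mulVec_zero]; exact Submodule.zero_mem _
  · intro x y _ _ hx hy
    rw [Matrix.mulVec_add]; exact Submodule.add_mem _ hx hy
  · intro c x _ hx
    rw [Matrix.mulVec_smul]; exact Submodule.smul_mem _ _ hx

/-- Semisimplicity descends. -/
theorem ss_descend (hU : Stab (MO N) U) (h : SSon (MO (bcM L '' N)) (bcS L U)) :
    SSon (MO N) U := by
  rw [ss_iff hU]
  rw [ss_iff (stab_bcS hU)] at h
  intro W hW hWs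
  obtain ⟨p, hp1, hp2, hp3⟩ := h (bcS L W) (bcS_mono hW) (stab_bcS hWs)
  obtain ⟨l, hl⟩ := exists_ret (K := K) (L := L)
  let q : (B → K) →ₗ[K] (B → K) :=
    { toFun := fun u a => l (p (bc L u) a)
      map_add' := fun u v => by
        funext a
        have h1 : bc L (u + v) = bc L u + bc L v := by
          funext b; exact map_add _ _ _
        rw [h1, map_add, Pi.add_apply, map_add, Pi.add_apply]
      map_smul' := fun c u => by
        funext a
        have h1 : bc L (c • u) = (algebraMap K L c) • bc L u := by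
          funext b; exact map_mul _ _ _
        rw [h1, map_smul, Pi.smul_apply, smul_eq_mul, RingHom.id_apply, Pi.smul_apply,
          ← Algebra.smul_def, map_smul] }
  have hq : ∀ u a, q u a = l (p (bc L u) a) := fun u a => rfl
  refine ⟨q, ?_, ?_, ?_⟩
  · intro w hw
    funext a
    rw [hq, hp1 _ (bc_mem hw)]
    exact hl _
  · intro u hu
    exact lam_mem l (hp2 _ (bc_mem hu))
  · rintro _ ⟨A, hA, rfl⟩ u hu
    funext a
    rw [hq, Matrix.toLin'_apply, Matrix.toLin'_apply, ← bc_mulVec]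
    have h1 := hp3 _ ⟨bcM L A, ⟨A, hA, rfl⟩, rfl⟩ (bc L u) (bc_mem hu)
    rw [Matrix.toLin'_apply, Matrix.toLin'_apply] at h1
    rw [h1, Matrix.mulVec, dotProduct, map_sum, Matrix.mulVec, dotProduct]
    refine Finset.sum_congr rfl fun b _ => ?_
    rw [bcM, Matrix.map_apply, ← Algebra.smul_def, map_smul, smul_eq_mul, hq]

section Gal

/-- The conjugate of a subspace. -/
def cj (σ : L ≃ₐ[K] L) (X : Submodule L (B → L)) : Submodule L (B → L) where
  carrier := {v | (fun i => σ.symm (v i)) ∈ X}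
  add_mem' := fun {v w} hv hw => by
    have h1 : (fun i => σ.symm ((v + w) i)) = (fun i => σ.symm (v i)) + fun i => σ.symm (w i) := by
      funext i; exact map_add _ _ _
    change (fun i => σ.symm ((v + w) i)) ∈ X
    rw [h1]
    exact Submodule.add_mem _ hv hw
  zero_mem' := by
    have h1 : (fun i : B => σ.symm ((0 : B → L) i)) = 0 := by
      funext i; exact map_zero _
    change (fun i : B => σ.symm ((0 : B → L) i)) ∈ X
    rw [h1]
    exact Submodule.zero_mem _
  smul_mem' := fun c v hv => by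
    have h1 : (fun i => σ.symm ((c • v) i)) = σ.symm c • fun i => σ.symm (v i) := by
      funext i; exact map_mul _ _ _
    change (fun i => σ.symm ((c • v) i)) ∈ X
    rw [h1]
    exact Submodule.smul_mem _ _ hv

lemma mem_cj {σ : L ≃ₐ[K] L} {X : Submodule L (B → L)} {v : B → L} :
    v ∈ cj σ X ↔ (fun i => σ.symm (v i)) ∈ X := Iff.rfl

lemma cj_cj (σ : L ≃ₐ[K] L) (X : Submodule L (B → L)) : cj σ (cj σ.symm X) = X := by
  ext v
  rw [mem_cj, mem_cj]
  simp

lemma cj_cj' (σ : L ≃ₐ[K] L) (X : Submodule L (B → L)) : cj σ.symm (cj σ X) = X := by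
  ext v
  rw [mem_cj, mem_cj]
  simp

lemma cj_mono (σ : L ≃ₐ[K] L) {X Y : Submodule L (B → L)} (h : X ≤ Y) : cj σ X ≤ cj σ Y :=
  fun _ hv => h hv

lemma cj_bot (σ : L ≃ₐ[K] L) : cj σ (⊥ : Submodule L (B → L)) = ⊥ := by
  ext v
  rw [mem_cj, Submodule.mem_bot, Submodule.mem_bot]
  constructor
  · intro h
    funext i
    have h1 := congrFun h i
    exact (map_eq_zero σ.symm).1 h1
  · rintro rfl
    funext i
    exact map_zero _

lemma cj_stab (σ : L ≃ₐ[K] L) {X : Submodule L (B → L)} (h : Stab (MO (bcM L '' N)) X) :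
    Stab (MO (bcM L '' N)) (cj σ X) := by
  rw [stab_MO] at h ⊢
  rintro _ ⟨A, hA, rfl⟩ v hv
  rw [mem_cj] at hv ⊢
  have h1 : (fun i => σ.symm ((bcM L A).mulVec v i)) =
      (bcM L A).mulVec fun i => σ.symm (v i) := by
    funext i
    rw [Matrix.mulVec, dotProduct, map_sum, Matrix.mulVec, dotProduct]
    refine Finset.sum_congr rfl fun j _ => ?_
    rw [map_mul, bcM, Matrix.map_apply, AlgEquiv.commutes]
  rw [h1]
  exact h _ ⟨A, hA, rfl⟩ _ hv

lemma cj_bcS (σ : L ≃ₐ[K] L) (U : Submodule K (B → K)) : cj σ (bcS L U) = bcS L U := by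
  have key : ∀ σ : L ≃ₐ[K] L, bcS L U ≤ cj σ (bcS L U) := by
    intro σ
    rw [bcS, Submodule.span_le]
    rintro _ ⟨u, hu, rfl⟩
    change bc L u ∈ cj σ (bcS L U)
    rw [mem_cj]
    have h1 : (fun i => σ.symm (bc L u i)) = bc L u := by
      funext i
      exact σ.symm.commutes _
    rw [h1]
    exact bc_mem hu
  apply le_antisymm _ (key σ)
  have h1 := cj_mono σ (key σ.symm)
  rwa [cj_cj] at h1

lemma cj_smp (σ : L ≃ₐ[K] L) {X : Submodule L (B → L)} (h : Smp (MO (bcM L '' N)) X) :
    Smp (MO (bcM L '' N)) (cj σ X) := by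
  refine ⟨fun h0 => h.1 ?_, cj_stab σ h.2.1, fun Y hY hYs hY0 => ?_⟩
  · rw [← cj_cj' σ X, h0, cj_bot]
  · have h1 := cj_mono σ.symm hY
    rw [cj_cj'] at h1
    have h2 := h.2.2 (cj σ.symm Y) h1 (cj_stab σ.symm hYs) (fun h0 => hY0 (by
      rw [← cj_cj σ Y, h0, cj_bot]))
    rw [← h2, cj_cj]

/-- A nonzero subspace which is stable under the Galois group contains a nonzero rational
vector. -/
lemma exists_rat [IsGalois K L] {Y : Submodule L (B → L)} (hY : Y ≠ ⊥)
    (hst : ∀ σ : L ≃ₐ[K] L, ∀ v ∈ Y, (fun i => σ (v i)) ∈ Y) : ∃ v : B → K, v ≠ 0 ∧ bc L v ∈ Y := by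
  classical
  obtain ⟨v₀, hv₀, hne₀⟩ := Submodule.exists_mem_ne_zero_of_ne_bot hY
  let supp : (B → L) → Finset B := fun v => Finset.univ.filter fun i => v i ≠ 0
  have hex : ∃ n : ℕ, ∃ v ∈ Y, v ≠ 0 ∧ (supp v).card = n := ⟨_, v₀, hv₀, hne₀, rfl⟩
  obtain ⟨v, hv, hne, hcard⟩ := Nat.find_spec hex
  have hmin : ∀ w ∈ Y, supp w ⊂ supp v → w = 0 := by
    intro w hw hlt
    by_contra h0
    have h1 := Nat.find_min' hex ⟨w, hw, h0, rfl⟩
    rw [← hcard] at h1
    exact absurd (Finset.card_lt_card hlt) (not_lt.2 h1)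
  obtain ⟨i₀, hi₀⟩ : ∃ i, v i ≠ 0 := by
    by_contra hcon
    push Not at hcon
    exact hne (funext hcon)
  let w : B → L := (v i₀)⁻¹ • v
  have hw : w ∈ Y := Y.smul_mem _ hv
  have hw1 : w i₀ = 1 := inv_mul_cancel₀ hi₀
  have hsupp : ∀ i, v i = 0 → w i = 0 := fun i hi => by
    change (v i₀)⁻¹ * v i = 0
    rw [hi, mul_zero]
  have hfix : ∀ σ : L ≃ₐ[K] L, ∀ i, σ (w i) = w i := by
    intro σ i
    have h1 : (fun i => σ (w i)) - w ∈ Y := Y.sub_mem (hst σ w hw) hw
    have h2 := hmin _ h1 (by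
      rw [Finset.ssubset_iff_of_subset]
      · refine ⟨i₀, ?_, ?_⟩
        · simp only [supp, Finset.mem_filter, Finset.mem_univ, true_and]
          exact hi₀
        · simp only [supp, Finset.mem_filter, Finset.mem_univ, true_and, not_not]
          change σ (w i₀) - w i₀ = 0
          rw [hw1, map_one, sub_self]
      · intro j hj
        simp only [supp, Finset.mem_filter, Finset.mem_univ, true_and] at hj ⊢
        intro h3
        apply hj
        change σ (w j) - w j = 0
        rw [hsupp j h3, map_zero, sub_self])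
    have h3 := congrFun h2 i
    exact sub_eq_zero.1 h3
  have hrat : ∀ i, ∃ c : K, algebraMap K L c = w i := by
    intro i
    have h1 := (InfiniteGalois.mem_range_algebraMap_iff_fixed (k := K) (w i)).2 fun σ => hfix σ i
    exact h1
  choose c hc using hrat
  refine ⟨c, ?_, ?_⟩
  · rintro rfl
    have h1 := hc i₀
    rw [hw1, Pi.zero_apply, map_zero] at h1
    exact zero_ne_one h1
  · have h1 : bc L c = w := funext hc
    rw [h1]
    exact hw

/-- **Semisimplicity is preserved by extension of scalars to a Galois extension.** -/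
theorem ss_extend [IsGalois K L] (hU : Stab (MO N) U) (h : SSon (MO N) U) :
    SSon (MO (bcM L '' N)) (bcS L U) := by
  set F : Set (Submodule L (B → L)) := {X | X ≤ bcS L U ∧ Smp (MO (bcM L '' N)) X} with hF
  have hss : SSon (MO (bcM L '' N)) (sSup F) := ss_of_smp fun X hX => hX.2
  have hle : sSup F ≤ bcS L U := sSup_le fun X hX => hX.1
  have hZσ : ∀ σ : L ≃ₐ[K] L, ∀ v ∈ sSup F, (fun i => σ (v i)) ∈ sSup F := by
    intro σ v hv
    rw [sSup_eq_iSup'] at hv ⊢
    refine Submodule.iSup_induction _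
      (motive := fun v => (fun i => σ (v i)) ∈ ⨆ i : F, (i : Submodule L (B → L))) hv ?_ ?_ ?_
    · intro X x hx
      have hmem : cj σ X.1 ∈ F := by
        refine ⟨?_, cj_smp σ X.2.2⟩
        rw [← cj_bcS σ U]
        exact cj_mono σ X.2.1
      refine Submodule.mem_iSup_of_mem (⟨_, hmem⟩ : F) ?_
      change (fun i => σ.symm (σ (x i))) ∈ X.1
      simp only [AlgEquiv.symm_apply_apply]
      exact hx
    · have h1 : (fun i : B => σ ((0 : B → L) i)) = 0 := by
        funext i; exact map_zero _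
      rw [h1]
      exact Submodule.zero_mem _
    · intro a b ha hb
      have h1 : (fun i => σ ((a + b) i)) = (fun i => σ (a i)) + fun i => σ (b i) := by
        funext i; exact map_add _ _ _
      rw [h1]
      exact Submodule.add_mem _ ha hb
  have hZs : Stab (MO (bcM L '' N)) (sSup F) := by
    rw [sSup_eq_iSup']
    exact stab_iSup fun X => X.2.2.2.1
  let V₀ : Submodule K (B → K) :=
    { carrier := {v | v ∈ U ∧ bc L v ∈ sSup F}
      add_mem' := fun {v w} hv hw => by
        refine ⟨U.add_mem hv.1 hw.1, ?_⟩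
        have h1 : bc L (v + w) = bc L v + bc L w := by
          funext b; exact map_add _ _ _
        rw [h1]
        exact Submodule.add_mem _ hv.2 hw.2
      zero_mem' := by
        refine ⟨U.zero_mem, ?_⟩
        have h1 : bc L (0 : B → K) = 0 := by
          funext b; exact map_zero _
        rw [h1]
        exact Submodule.zero_mem _
      smul_mem' := fun c v hv => by
        refine ⟨U.smul_mem _ hv.1, ?_⟩
        have h1 : bc L (c • v) = algebraMap K L c • bc L v := by
          funext b; exact map_mul _ _ _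
        rw [h1]
        exact Submodule.smul_mem _ _ hv.2 }
  have hV₀ : ∀ v, v ∈ V₀ ↔ v ∈ U ∧ bc L v ∈ sSup F := fun v => Iff.rfl
  have hV₀s : Stab (MO N) V₀ := by
    rw [stab_MO] at hU hZs ⊢
    intro A hA u hu
    rw [hV₀] at hu ⊢
    refine ⟨hU A hA u hu.1, ?_⟩
    rw [← bc_mulVec]
    exact hZs _ ⟨A, hA, rfl⟩ _ hu.2
  obtain ⟨C, hC, hCs, h1, h2⟩ := h V₀ (fun v hv => hv.1) hV₀s
  have hC0 : C = ⊥ := by
    by_contra h0
    obtain ⟨c₀, hc₀, hne⟩ := Submodule.exists_mem_ne_zero_of_ne_bot h0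
    have hb : bcS L C ≠ ⊥ := by
      intro hb
      have h3 := bc_mem (L := L) hc₀
      rw [hb, Submodule.mem_bot] at h3
      apply hne
      funext a
      have h4 := congrFun h3 a
      exact (map_eq_zero (algebraMap K L)).1 h4
    obtain ⟨X, hX, hXs⟩ := exists_smp (stab_bcS (L := L) hCs) hb
    have hXF : X ≤ sSup F := le_sSup ⟨hX.trans (bcS_mono hC), hXs⟩
    have hne' : sSup F ⊓ bcS L C ≠ ⊥ := by
      intro h3
      apply hXs.1
      rw [eq_bot_iff, ← h3]
      exact le_inf hXF hX
    obtain ⟨v, hv, hv'⟩ := exists_rat (K := K) hne' (by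
      rintro σ v ⟨hv1, hv2⟩
      refine ⟨hZσ σ v hv1, ?_⟩
      have h3 : v ∈ cj σ.symm (bcS L C) := by rw [cj_bcS]; exact hv2
      exact h3)
    apply hv
    have h3 : v ∈ C := of_bc_mem hv'.2
    have h4 : v ∈ V₀ ⊓ C := ⟨⟨hC h3, hv'.1⟩, h3⟩
    rw [h1] at h4
    exact h4
  rw [hC0, sup_bot_eq] at h2
  have h3 : bcS L U ≤ sSup F := by
    rw [bcS, Submodule.span_le]
    rintro _ ⟨u, hu, rfl⟩
    rw [← h2] at hu
    exact hu.2
  rw [← le_antisymm hle h3]
  exact hss

end Gal

end Pool.Agent.Q60.TD
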