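import Pool.Agent.Q60.TD.KL

/-!
# The main theorem over the small field
-/

set_option linter.unusedSectionVars false

namespace Pool.Agent.Q60.TD

open Module Matrix Pool.Agent.Q60.ED Pool.Agent.Q56.FD

section ss

variable {K V : Type*} [Field K] [AddCommGroup V] [Module K V]

/-- Semisimplicity depends only on the stable subspaces. -/
lemma SSon.congr {N N' : Set (Module.End K V)} {U : Submodule K V}
    (h : ∀ W ≤ U, Stab N W ↔ Stab N' W) (hs : SSon N U) : SSon N' U := by
  intro W hW hWs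
  obtain ⟨C, hC, hCs, h1, h2⟩ := hs W hW ((h W hW).2 hWs)
  exact ⟨C, hC, (h C hC).1 hCs, h1, h2⟩

end ss

variable {K : Type} [Field K] {ι : Type} [Fintype ι] [DecidableEq ι] {Γ : Type*} [Group Γ]

/-- The tensors of weight `w`. -/
def grw (R : MRep K ι Γ) (F : Type) [Field F] (n w : ℕ) : Submodule F ((Fin n → ι) → F) where
  carrier := {t | ∀ I, ∑ k, R.a (I k) ≠ w → t I = 0}
  add_mem' {v w} hv hw j hj := by rw [Pi.add_apply, hv j hj, hw j hj, add_zero]
  zero_mem' j _ := rfl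
  smul_mem' c v hv j hj := by rw [Pi.smul_apply, hv j hj, smul_zero]

/-- The matrices of the group on the tensors. -/
def NK (R : MRep K ι Γ) (n : ℕ) : Set (Matrix (Fin n → ι) (Fin n → ι) K) :=
  Set.range fun g => TP (R.A g) n

/-- The tensors over the small field which are invariant, up to the twist, under a subgroup of
finite index. -/
noncomputable def TK (R : MRep K ι Γ) (n : ℕ) : Submodule K ((Fin n → ι) → K) where
  carrier := {t | ∃ Δ : Subgroup Γ, Δ.FiniteIndex ∧ ∀ g ∈ Δ, ∀ I, ∑ J, cE R I J g * t J = t I}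
  add_mem' := by
    rintro a b ⟨Δ, hΔ, h1⟩ ⟨Δ', hΔ', h2⟩
    refine ⟨Δ ⊓ Δ', inferInstance, fun g hg I => ?_⟩
    simp only [Pi.add_apply, mul_add, Finset.sum_add_distrib]
    rw [h1 g hg.1, h2 g hg.2]
  zero_mem' := ⟨⊤, inferInstance, fun g _ I => by simp⟩
  smul_mem' := by
    rintro c a ⟨Δ, hΔ, h1⟩
    refine ⟨Δ, hΔ, fun g hg I => ?_⟩
    rw [Pi.smul_apply, ← h1 g hg I, smul_eq_mul, Finset.mul_sum]
    exact Finset.sum_congr rfl fun J _ => by rw [Pi.smul_apply, smul_eq_mul]; ring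

variable {R : MRep K ι Γ}

lemma mem_TK {n : ℕ} {t : (Fin n → ι) → K} : t ∈ TK R n ↔
    ∃ Δ : Subgroup Γ, Δ.FiniteIndex ∧ ∀ g ∈ Δ, ∀ I, ∑ J, cE R I J g * t J = t I := Iff.rfl

lemma mem_grw {F : Type} [Field F] {n w : ℕ} {t : (Fin n → ι) → F} :
    t ∈ grw R F n w ↔ ∀ I, ∑ k, R.a (I k) ≠ w → t I = 0 := Iff.rfl

lemma TK_even {n : ℕ} {t : (Fin n → ι) → K} (ht : t ∈ TK R n) {I : Fin n → ι}
    (hI : ¬ Even (∑ k, R.a (I k))) : t I = 0 := by
  obtain ⟨Δ, -, h⟩ := ht
  rw [← h 1 Δ.one_mem I]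
  refine Finset.sum_eq_zero fun J _ => ?_
  rw [cE, if_neg hI, zero_mul]

variable {L : Type} [Field L] [Algebra K L]

lemma grw_bc (n w : ℕ) : bcS L (grw R K n w) = grw R L n w := by
  apply le_antisymm
  · rw [bcS, Submodule.span_le]
    rintro _ ⟨u, hu, rfl⟩ I hI
    change algebraMap K L (u I) = 0
    rw [hu I hI, map_zero]
  · intro t ht
    apply mem_bcS
    intro l I hI
    change l (t I) = 0
    rw [ht I hI, map_zero]

lemma grw_stabK (n w : ℕ) : Stab (MO (NK R n)) (grw R K n w) := by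
  rw [stab_MO]
  rintro _ ⟨g, rfl⟩ u hu I hI
  change (TP (R.A g) n).mulVec u I = 0
  rw [Matrix.mulVec, dotProduct]
  refine Finset.sum_eq_zero fun J _ => ?_
  by_cases h : ∑ k, R.a (J k) = w
  · have h3 : ∃ k, R.a (I k) ≠ R.a (J k) := by
      by_contra hcon
      push Not at hcon
      apply hI
      simpa only [hcon] using h
    obtain ⟨k, hk⟩ := h3
    rw [TP_apply, Finset.prod_eq_zero (Finset.mem_univ k) (R.hom g _ _ hk), zero_mul]
  · rw [hu J h, mul_zero]

variable [CharZero K] [IsAlgClosed L] {b dX : ℕ} (hM : R.M ≤ 2 * dX)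

lemma rr_stab_iff {n w : ℕ} {W : Submodule L ((Fin n → ι) → L)} (hW : W ≤ grw R L n w) :
    Stab (MO (bcM L '' NK R n)) W ↔ Stab (Op ((toT (b := b) R L hM).ρn n) ⊤) W := by
  have key : ∀ (x : GG R L), ∀ t ∈ grw R L n w, tpow (rr R L x) n t =
      ((x.1.2 : L)⁻¹) ^ w • tpow (R.AL L x.1.1) n t := by
    intro x t ht
    have h2 : tpow (R.AL L x.1.1) n t ∈ grw R L n w := by
      have h3 := stab_bcS (L := L) (grw_stabK (R := R) n w)
      rw [grw_bc, stab_MO] at h3
      exact h3 _ ⟨TP (R.A x.1.1) n, ⟨x.1.1, rfl⟩, by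
        rw [bcM, ← TP_map]; rfl⟩ t ht
    rw [rr_apply, tpow_mul, tpow_diag]
    funext I
    rw [Pi.smul_apply, smul_eq_mul, Finset.prod_pow_eq_pow_sum]
    by_cases h : ∑ k, R.a (I k) = w
    · rw [h]
    · rw [h2 I h, mul_zero, mul_zero]
  have hmv : ∀ g t, tpow (R.AL L g) n t = (bcM L (TP (R.A g) n)).mulVec t := by
    intro g t
    rw [tpow_eq, MRep.AL, TP_map]
    rfl
  rw [stab_MO, stab_op]
  constructor
  · intro h x _ t ht
    have h1 := key x t (hW ht)
    change tpow (rr R L x) n t ∈ W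
    rw [h1, hmv]
    refine W.smul_mem _ ?_
    exact h (bcM L (TP (R.A x.1.1) n)) ⟨_, ⟨x.1.1, rfl⟩, rfl⟩ t ht
  · rintro h _ ⟨_, ⟨g, rfl⟩, rfl⟩ t ht
    obtain ⟨x, hx⟩ := exists_GG (R := R) (L := L) g
    have h1 : tpow (rr R L x) n t ∈ W := h x (Subgroup.mem_top x) t ht
    rw [key x t (hW ht)] at h1
    have h2 := W.smul_mem (((x.1.2 : L)) ^ w) h1
    rw [smul_smul, ← mul_pow, mul_inv_cancel₀ x.1.2.ne_zero, one_pow, one_smul, hx, hmv] at h2
    exact h2

lemma grw_stabL (n w : ℕ) : Stab (Op ((toT (b := b) R L hM).ρn n) ⊤) (grw R L n w) := by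
  rw [← rr_stab_iff hM le_rfl, ← grw_bc]
  exact stab_bcS (grw_stabK n w)

/-- Semisimplicity of the even part over the large field. -/
lemma ss_even [IsGalois K L] {n : ℕ}
    (h : ∀ w, Even w → SSon (MO (NK R n)) (grw R K n w)) :
    SSon (Op ((toT (b := b) R L hM).ρn n) ⊤) ((toT (b := b) R L hM).Ev n) := by
  classical
  have h1 := SSon.finset_sup (N := Op ((toT (b := b) R L hM).ρn n) ⊤)
    (Finset.range (n * R.M + 1)) (F := fun w => if Even w then grw R L n w else ⊥)
    (fun w _ => by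
      by_cases hw : Even w
      · simp only [if_pos hw]
        have h2 := ss_extend (L := L) (grw_stabK n w) (h w hw)
        rw [grw_bc] at h2
        exact h2.congr fun W hW => rr_stab_iff hM hW
      · simp only [if_neg hw]
        intro W hW _
        exact ⟨⊥, le_rfl, stab_bot, inf_bot_eq _, by rw [sup_bot_eq]; exact le_bot_iff.1 hW⟩)
    (fun w _ => by
      by_cases hw : Even w
      · simp only [if_pos hw]
        exact grw_stabL hM n w
      · simp only [if_neg hw]
        exact stab_bot)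
  refine h1.1.mono ?_ (TRep.ev_stab n)
  intro t ht
  have h2 : t = ∑ w ∈ Finset.range (n * R.M + 1),
      fun I => if ∑ k, R.a (I k) = w then t I else 0 := by
    funext I
    rw [Finset.sum_apply, Finset.sum_eq_single (∑ k, R.a (I k))]
    · rw [if_pos rfl]
    · intro w _ hw
      rw [if_neg (Ne.symm hw)]
    · intro h3
      exfalso
      apply h3
      rw [Finset.mem_range, Nat.lt_succ_iff]
      calc ∑ k, R.a (I k) ≤ ∑ _k : Fin n, R.M := Finset.sum_le_sum fun k _ => R.le _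
        _ = n * R.M := by simp
  rw [h2]
  refine Submodule.sum_mem _ fun w hw => ?_
  refine (Finset.le_sup (f := fun w => if Even w then grw R L n w else ⊥) hw) ?_
  by_cases hwe : Even w
  · simp only [if_pos hwe]
    intro I hI
    exact if_neg hI
  · simp only [if_neg hwe]
    rw [Submodule.mem_bot]
    funext I
    by_cases h3 : ∑ k, R.a (I k) = w
    · rw [if_pos h3]
      exact even_apply hM ht (by rw [h3]; exact hwe)
    · exact if_neg h3

/-- Semisimplicity over the small field. -/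
lemma ss_small {n : ℕ} (h : SSon (Op ((toT (b := b) R L hM).ρn n) ⊤) ⊤) (w : ℕ) :
    SSon (MO (NK R n)) (grw R K n w) := by
  apply ss_descend (L := L) (grw_stabK n w)
  rw [grw_bc]
  have h1 := h.mono le_top (grw_stabL hM n w)
  exact h1.congr fun W hW => (rr_stab_iff hM hW).symm

/-- Virtually invariant tensors over the two fields. -/
lemma T_le {n : ℕ} {W : Submodule K ((Fin n → ι) → K)} (hW : TK R n ≤ W) :
    (toT (b := b) R L hM).T n ≤ bcS L W := by
  intro t ht
  obtain ⟨hte, Δ, hΔ, hfix⟩ := ht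
  apply mem_bcS
  intro l
  apply hW
  let π : GG R L →* Γ := (MonoidHom.fst Γ Lˣ).comp (GG R L).subtype
  have hπ : Function.Surjective π := fun g => by
    obtain ⟨x, hx⟩ := exists_GG (R := R) (L := L) g
    exact ⟨x, hx⟩
  refine ⟨Δ.map π, ?_, ?_⟩
  · refine ⟨fun h0 => hΔ.index_ne_zero ?_⟩
    have h1 := Δ.index_map_dvd hπ
    rw [h0] at h1
    exact Nat.eq_zero_of_zero_dvd h1
  · rintro _ ⟨x, hx, rfl⟩ I
    have h1 := congrFun (hfix x hx) I
    have h2 : tpow (rr R L x) n t I = ∑ J, algebraMap K L (cE R I J x.1.1) * t J :=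
      tpow_rr hM hte x I
    change tpow (rr R L x) n t I = t I at h1
    rw [h2] at h1
    have h3 := congrArg l h1
    rw [map_sum] at h3
    change _ = l (t I)
    rw [← h3]
    refine Finset.sum_congr rfl fun J _ => ?_
    rw [← Algebra.smul_def, map_smul, smul_eq_mul]
    rfl

lemma bc_T {n : ℕ} {t : (Fin n → ι) → K} (ht : t ∈ TK R n) :
    bc L t ∈ (toT (b := b) R L hM).T n := by
  have hte : bc L t ∈ (toT (b := b) R L hM).Ev n := by
    change tpow (diagonal (sg R L)) n (bc L t) = bc L t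
    rw [tpow_diag]
    funext I
    simp only [sg]
    rw [Finset.prod_pow_eq_pow_sum]
    by_cases h : Even (∑ k, R.a (I k))
    · rw [h.neg_one_pow, one_mul]
    · have h1 : bc L t I = 0 := by
        change algebraMap K L (t I) = 0
        rw [TK_even ht h, map_zero]
      rw [h1, mul_zero]
  obtain ⟨Δ, hΔ, hfix⟩ := ht
  let π : GG R L →* Γ := (MonoidHom.fst Γ Lˣ).comp (GG R L).subtype
  have hπ : Function.Surjective π := fun g => by
    obtain ⟨x, hx⟩ := exists_GG (R := R) (L := L) g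
    exact ⟨x, hx⟩
  refine ⟨hte, Δ.comap π, ⟨by
    rw [Subgroup.index_comap_of_surjective _ hπ]
    exact hΔ.index_ne_zero⟩, ?_⟩
  intro x hx
  funext I
  have h2 : tpow (rr R L x) n (bc L t) I = ∑ J, algebraMap K L (cE R I J x.1.1) * bc L t J :=
    tpow_rr hM hte x I
  change tpow (rr R L x) n (bc L t) I = _
  rw [h2]
  have h3 := congrArg (algebraMap K L) (hfix x.1.1 hx I)
  rw [map_sum] at h3
  change _ = algebraMap K L (t I)
  rw [← h3]
  exact Finset.sum_congr rfl fun J _ => (map_mul _ _ _).symm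

/-- **The main theorem over the small field.** -/
theorem mainK [TopologicalSpace Γ] [IsTopologicalGroup Γ]
    [TopologicalSpace K] [T2Space K] [IsTopologicalDivisionRing K]
    (R : MRep K ι Γ) (hM : R.M ≤ 2 * dX)
    (hA : ∀ i j, Continuous fun g => R.A g i j) (hχ : Continuous fun g => (R.χ g : K))
    (hW : Dense {g | R.IsWeil b g}) {D₀ : ℕ}
    (hD : (2 * (2 * ((dX + 1) * b.factorial)) + 1) ^ Fintype.card ι ^ 2 *
      (Fintype.card ι ^ 2 + 1) ^ (Fintype.card ι ^ 2 + 1) ≤ D₀)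
    (hss : ∀ n ≤ 2 * (2 * D₀ + 1), ∀ w, Even w → SSon (MO (NK R n)) (grw R K n w))
    (S : TSys K ι) {Ω : (Fin 2 → ι) → K} (hΩ : Ω ∈ S.S 2) (hΩd : (mat2 Ω).det ≠ 0)
    (hST : ∀ n, S.S n ≤ TK R n) (hTS : ∀ n ≤ 2 * (2 * D₀ + 1), TK R n ≤ S.S n) :
    (∀ n, TK R n ≤ S.S n) ∧ ∀ n w, SSon (MO (NK R n)) (grw R K n w) := by
  let L := AlgebraicClosure K
  have : CharZero L := charZero_of_injective_algebraMap (algebraMap K L).injective
  have hssL := fun n (hn : n ≤ 2 * (2 * D₀ + 1)) => ss_even (L := L) (b := b) hM (hss n hn)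
  obtain ⟨h1, h2⟩ := TRep.main (toT (b := b) R L hM) hD
    (fun n hn => hssL n (by omega))
    (fun n hn => fin_T hM hA hχ hW (hssL n hn)) (exT L S) (Ω := bc L Ω) (bc_mem hΩ)
    (by
      rw [mat2_bc]
      have h3 : ((mat2 Ω).map (algebraMap K L)).det = algebraMap K L (mat2 Ω).det :=
        ((algebraMap K L).map_det _).symm
      rw [h3]
      exact (map_ne_zero _).2 hΩd)
    (fun n => by
      rw [exT_S, bcS, Submodule.span_le]
      rintro _ ⟨t, ht, rfl⟩
      exact bc_T hM (hST n ht))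
    (fun n hn => T_le hM (hTS n hn))
  refine ⟨fun n t ht => of_bc_mem (L := L) ?_, fun n w => ss_small (L := L) (b := b) hM (h2 n) w⟩
  exact h1 n (bc_T hM ht)

end Pool.Agent.Q60.TD
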