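import Pool.Agent.Q60.TD.Defs
import Pool.Agent.Q56.FD.Poly
import Pool.Agent.H914R2.HodgeDefs
import Mathlib.Topology.Algebra.Field

/-!
# Frobenius elements and arithmetic Galois actions: definitions
-/

open CategoryTheory AlgebraicGeometry Polynomial

universe u v w

namespace Pool.Agent.Q60.TD

open Pool.Agent.H914 Pool.Agent.H914.VarClass Pool.Agent.H914.VarClass.Obj
  Pool.Agent.H914.WeilCohomology Pool.Agent.Q55 Pool.Agent.Q56.FD

section Alg

variable {Γ : Type w} [Group Γ] {K : Type*} [Field K] {A : Type*} [Ring A] [Algebra K A]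

/-- The operator `g` on `U` is annihilated by the polynomial `P`, whose degree is the dimension
of `U`. -/
def ActKilledBy (ρ : SubAction Γ K A) (U : Submodule K A) (g : Γ) (P : ℤ[X]) : Prop :=
  P.natDegree = Module.finrank K U ∧ ∀ c ∈ U, aeval (ρ.act g).toLinearMap P c = 0

/-- The element `g` acts on the graded space `A` like the geometric Frobenius element of a place
of good reduction: there is a power `q = p ^ e > 1` of a prime such that `χ g = q` and, for all
`i ≤ 2 n`, the operator `g` on `gr i` is annihilated by a polynomial `P i` whose degree is the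
dimension of `gr i` and which has the properties of the characteristic polynomial of a Frobenius on
the `i`-th cohomology (`IsFrobPoly`). -/
def ActFrobenius (ρ : SubAction Γ K A) (χ : Γ →* Kˣ) (gr : ℕ → Submodule K A) (n : ℕ) (g : Γ) :
    Prop :=
  ∃ (p : ℕ) (_ : Fact p.Prime) (e : ℕ) (P : ℕ → ℤ[X]), 0 < e ∧ (χ g : K) = ((p ^ e : ℕ) : K) ∧
    ∀ i ≤ 2 * n, IsFrobPoly p (p ^ e) i (P i) ∧ ActKilledBy ρ (gr i) g (P i)

/-- The action of `Γ` on `A` is continuous. -/
def ActContinuous [TopologicalSpace Γ] [TopologicalSpace K] (ρ : SubAction Γ K A) : Prop :=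
  ∀ (c : A) (l : A →ₗ[K] K), Continuous fun g : ρ.dom => l (ρ.act g c)

/-- The action of `Γ` on the graded space `A` is arithmetic: `Γ` is a topological group and `K` is
a Hausdorff topological field, the action and the character are continuous, and the Frobenius
elements are dense in the subgroup which acts. -/
structure ActArithmetic [TopologicalSpace Γ] [TopologicalSpace K] (ρ : SubAction Γ K A)
    (χ : Γ →* Kˣ) (gr : ℕ → Submodule K A) (n : ℕ) : Prop where
  topGroup : IsTopologicalGroup Γ
  t2 : T2Space K
  topField : IsTopologicalDivisionRing K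
  cont_χ : Continuous fun g : ρ.dom => (χ g : K)
  cont_act : ActContinuous ρ
  dense : Dense {g : ρ.dom | ActFrobenius ρ χ gr n g}

end Alg

variable {k : Type u} [Field k] {𝒱 : VarClass k} {ops : CycleOps 𝒱}
  {W : WeilCohomology.{u, v} ops} {Γ : Type w} [Group Γ]

/-- The action of `Γ` on the cohomology of `X` is arithmetic: it is continuous, and the elements
which act like geometric Frobenius elements are dense in the subgroup which acts. -/
def IsArithmetic [TopologicalSpace Γ] [TopologicalSpace W.K] (G : GaloisAction W Γ)
    (X : 𝒱.Obj) : Prop :=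
  ActArithmetic (G.ρ X) G.χ (W.gr X) X.dim

/-- The product of `n` copies of `X`, for `n ≥ 1`. -/
noncomputable def power (X : 𝒱.Obj) (n : ℕ) : 𝒱.Obj := Pool.Agent.Y133.Half.pw X (n - 1)

/-- The divisor `D` on `X` has the properties of an ample divisor: its class satisfies the hard
Lefschetz theorem, and for all `n` the sum of the pull-backs of `D` to the product of `n + 1` copies
of `X` satisfies the Hodge index theorem for the classes of algebraic cycles. -/
def IsAmpleLike (W : WeilCohomology.{u, v} ops) (X : 𝒱.Obj) (D : X.Cycles) : Prop :=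
  X.IsCyc 1 D ∧ HardLefschetz W X D ∧
    ∀ n, HodgeType W (Pool.Agent.Y133.Half.pw X n) (pwDiv ops D n)

end Pool.Agent.Q60.TD
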