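import Pool.Agent.Q60.ED.Tens
import Pool.Agent.Q60.TD.Rep2

/-!
# Bases of generalised eigenvectors and tensor powers
-/

set_option linter.unusedSectionVars false

namespace Pool.Agent.Q60.TD

open Module Pool.Agent.Q60.ED

section bil

variable {L X Y Z : Type*} [Field L] [AddCommGroup X] [Module L X] [AddCommGroup Y] [Module L Y]
  [AddCommGroup Z] [Module L Z]

lemma gen_step {T : Module.End L Z} {a : L} {z : Z} (h : T z - a • z ∈ T.maxGenEigenspace a) :
    z ∈ T.maxGenEigenspace a := by
  rw [Module.End.mem_maxGenEigenspace] at h ⊢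
  obtain ⟨k, hk⟩ := h
  refine ⟨k + 1, ?_⟩
  rw [pow_succ]
  exact hk

/-- Generalised eigenvectors and bilinear maps. -/
lemma gen_bil (β : X →ₗ[L] Y →ₗ[L] Z) {A : Module.End L X} {C : Module.End L Y}
    {T : Module.End L Z} (h : ∀ x y, T (β x y) = β (A x) (C y)) {μ ν : L} {x : X} {y : Y}
    (hx : x ∈ A.maxGenEigenspace μ) (hy : y ∈ C.maxGenEigenspace ν) :
    β x y ∈ T.maxGenEigenspace (μ * ν) := by
  have key : ∀ N k l : ℕ, k + l ≤ N → ∀ x y, ((A - μ • (1 : Module.End L X)) ^ k) x = 0 →
      ((C - ν • (1 : Module.End L Y)) ^ l) y = 0 → β x y ∈ T.maxGenEigenspace (μ * ν) := by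
    intro N
    induction N with
    | zero =>
      intro k l hkl x y hx _
      obtain rfl : k = 0 := by omega
      rw [pow_zero] at hx
      have h0 : x = 0 := hx
      rw [h0, map_zero, LinearMap.zero_apply]
      exact Submodule.zero_mem _
    | succ N ih =>
      intro k l hkl x y hx hy
      rcases k with _ | k
      · rw [pow_zero] at hx
        have h0 : x = 0 := hx
        rw [h0, map_zero, LinearMap.zero_apply]
        exact Submodule.zero_mem _
      rcases l with _ | l
      · rw [pow_zero] at hy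
        have h0 : y = 0 := hy
        rw [h0, map_zero]
        exact Submodule.zero_mem _
      apply gen_step
      have h1 : T (β x y) - (μ * ν) • β x y =
          β ((A - μ • (1 : Module.End L X)) x) (C y) +
            μ • β x ((C - ν • (1 : Module.End L Y)) y) := by
        rw [h]
        simp only [LinearMap.sub_apply, LinearMap.smul_apply, Module.End.one_apply, map_sub,
          map_smul, smul_sub, smul_smul]
        abel
      rw [h1]
      refine Submodule.add_mem _ ?_ (Submodule.smul_mem _ _ ?_)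
      · refine ih k (l + 1) (by omega) _ _ ?_ ?_
        · rw [pow_succ] at hx
          exact hx
        · have hc : Commute ((C - ν • (1 : Module.End L Y)) ^ (l + 1)) C := by
            apply Commute.pow_left
            exact (Commute.refl C).sub_left ((Commute.one_left C).smul_left ν)
          have h2 := LinearMap.congr_fun hc.eq y
          rw [Module.End.mul_apply, Module.End.mul_apply, hy, map_zero] at h2
          exact h2
      · refine ih (k + 1) l (by omega) _ _ hx ?_
        rw [pow_succ] at hy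
        exact hy
  rw [Module.End.mem_maxGenEigenspace] at hx hy
  obtain ⟨k, hk⟩ := hx
  obtain ⟨l, hl⟩ := hy
  exact key _ k l le_rfl x y hk hl

lemma gen_pow {A : Module.End L X} {μ : L} {x : X} (hx : x ∈ A.maxGenEigenspace μ) (k : ℕ) :
    x ∈ (A ^ k).maxGenEigenspace (μ ^ k) := by
  rw [Module.End.mem_maxGenEigenspace] at hx ⊢
  obtain ⟨N, hN⟩ := hx
  refine ⟨N, ?_⟩
  have h1 : A ^ k - μ ^ k • (1 : Module.End L X) =
      (∑ i ∈ Finset.range k, A ^ i * (μ • (1 : Module.End L X)) ^ (k - 1 - i)) *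
        (A - μ • (1 : Module.End L X)) := by
    have hc : Commute A (μ • (1 : Module.End L X)) := (Commute.one_right A).smul_right μ
    rw [hc.geom_sum₂_mul]
    congr 1
    rw [smul_pow, one_pow]
  have hc : Commute (∑ i ∈ Finset.range k, A ^ i * (μ • (1 : Module.End L X)) ^ (k - 1 - i))
      (A - μ • (1 : Module.End L X)) := by
    have hA : Commute A (A - μ • (1 : Module.End L X)) :=
      (Commute.refl A).sub_right ((Commute.one_right A).smul_right μ)
    have hB : Commute (μ • (1 : Module.End L X)) (A - μ • (1 : Module.End L X)) :=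
      (Commute.one_left _).smul_left μ
    refine Finset.sum_induction _ (fun z => Commute z (A - μ • (1 : Module.End L X)))
      (fun a b ha hb => ha.add_left hb) (Commute.zero_left _) fun i _ => ?_
    exact (hA.pow_left i).mul_left (hB.pow_left _)
  rw [h1, hc.mul_pow, Module.End.mul_apply, hN, map_zero]

end bil

variable {L : Type} [Field L] {ι : Type} [Fintype ι] [DecidableEq ι]

/-- The tensor product of a vector and a tensor. -/
def ct {n : ℕ} : (ι → L) →ₗ[L] ((Fin n → ι) → L) →ₗ[L] ((Fin (n + 1) → ι) → L) :=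
  LinearMap.mk₂ L (fun v t I => v (I 0) * t fun k => I k.succ)
    (fun v v' t => by funext I; simp [add_mul])
    (fun c v t => by funext I; simp [mul_assoc])
    (fun v t t' => by funext I; simp [mul_add])
    (fun c v t => by funext I; simp only [Pi.smul_apply, smul_eq_mul]; ring)

lemma ct_apply {n : ℕ} (v : ι → L) (t : (Fin n → ι) → L) (I : Fin (n + 1) → ι) :
    ct v t I = v (I 0) * t fun k => I k.succ := rfl

lemma tpow_ct (A : Matrix ι ι L) {n : ℕ} (v : ι → L) (t : (Fin n → ι) → L) :
    tpow A (n + 1) (ct v t) = ct (Matrix.toLin' A v) (tpow A n t) := by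
  funext I
  rw [tpow_apply, ct_apply, Matrix.toLin'_apply, Matrix.mulVec, dotProduct, tpow_apply,
    ← Equiv.sum_comp (Fin.consEquiv fun _ : Fin (n + 1) => ι), Fintype.sum_prod_type,
    Finset.sum_mul_sum]
  refine Finset.sum_congr rfl fun a _ => Finset.sum_congr rfl fun J _ => ?_
  rw [ct_apply, Fin.prod_univ_succ]
  simp only [Fin.consEquiv_apply, Fin.cons_zero, Fin.cons_succ]
  ring

/-- A pure tensor. -/
def pt {n : ℕ} (w : Fin n → ι → L) : (Fin n → ι) → L := fun I => ∏ k, w k (I k)

lemma pt_succ {n : ℕ} (w : Fin (n + 1) → ι → L) : pt w = ct (w 0) (pt fun k => w k.succ) := by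
  funext I
  rw [ct_apply, pt, pt, Fin.prod_univ_succ]

lemma pt_gen (A : Matrix ι ι L) {n : ℕ} {w : Fin n → ι → L} {μ : Fin n → L}
    (h : ∀ k, w k ∈ Module.End.maxGenEigenspace (Matrix.toLin' A) (μ k)) :
    pt w ∈ Module.End.maxGenEigenspace (tpow A n) (∏ k, μ k) := by
  induction n with
  | zero =>
    apply gen_step
    have h1 : tpow A 0 (pt w) - (∏ k, μ k) • pt w = 0 := by
      funext I
      rw [Pi.sub_apply, Pi.smul_apply, tpow_apply]
      simp [pt]
    rw [h1]
    exact Submodule.zero_mem _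
  | succ n ih =>
    rw [pt_succ, Fin.prod_univ_succ]
    exact gen_bil ct (fun x y => tpow_ct A x y) (h 0) (ih fun k => h k.succ)

lemma tpow_single (g : Matrix ι ι L) {n : ℕ} (J : Fin n → ι) :
    tpow g n (Pi.single J 1) = pt fun k a => g a (J k) := by
  funext I
  rw [tpow_apply, pt, Finset.sum_eq_single J]
  · rw [Pi.single_eq_same, mul_one]
  · intro J' _ h
    rw [Pi.single_eq_of_ne h, mul_zero]
  · intro h; exact absurd (Finset.mem_univ _) h

lemma tpow_eq_sum (g : Matrix ι ι L) {n : ℕ} (x : (Fin n → ι) → L) :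
    tpow g n x = ∑ J, x J • tpow g n (Pi.single J 1) := by
  have h1 : x = ∑ J, x J • (Pi.single J (1 : L) : (Fin n → ι) → L) := by
    funext b
    rw [Finset.sum_apply, Finset.sum_eq_single b]
    · simp
    · intro a _ ha
      rw [Pi.smul_apply, Pi.single_eq_of_ne (Ne.symm ha), smul_zero]
    · intro h; exact absurd (Finset.mem_univ _) h
  conv_lhs => rw [h1]
  rw [map_sum]
  exact Finset.sum_congr rfl fun J _ => map_smul _ _ _

lemma tpow_diag (c : ι → L) {n : ℕ} (x : (Fin n → ι) → L) :
    tpow (Matrix.diagonal c) n x = fun J => (∏ k, c (J k)) * x J := by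
  funext I
  rw [tpow_apply, Finset.sum_eq_single I]
  · congr 1
    exact Finset.prod_congr rfl fun k _ => Matrix.diagonal_apply_eq _ _
  · intro J _ hJ
    have : ∃ k, I k ≠ J k := by
      by_contra hcon
      push Not at hcon
      exact hJ (funext fun k => (hcon k).symm)
    obtain ⟨k, hk⟩ := this
    rw [Finset.prod_eq_zero (Finset.mem_univ k), zero_mul]
    exact Matrix.diagonal_apply_ne _ hk
  · intro h; exact absurd (Finset.mem_univ _) h

/-- The columns of the invertible matrix `g` are generalised eigenvectors of `A`. -/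
structure EigB (A g g' : Matrix ι ι L) (μ : ι → L) : Prop where
  inv : g * g' = 1
  gen : ∀ b, (fun a => g a b) ∈ Module.End.maxGenEigenspace (Matrix.toLin' A) (μ b)

namespace EigB

variable {A g g' : Matrix ι ι L} {μ : ι → L}

lemma inv' (h : EigB A g g' μ) : g' * g = 1 := mul_eq_one_comm.1 h.inv

lemma gg' (h : EigB A g g' μ) {n : ℕ} (x : (Fin n → ι) → L) : tpow g n (tpow g' n x) = x := by
  rw [← tpow_mul, h.inv, tpow_one]

lemma g'g (h : EigB A g g' μ) {n : ℕ} (x : (Fin n → ι) → L) : tpow g' n (tpow g n x) = x := by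
  rw [← tpow_mul, h.inv', tpow_one]

lemma pow (h : EigB A g g' μ) (k : ℕ) : EigB (A ^ k) g g' fun b => μ b ^ k := by
  refine ⟨h.inv, fun b => ?_⟩
  have h1 := gen_pow (h.gen b) k
  rwa [← Matrix.toLin'_pow] at h1

lemma single_gen (h : EigB A g g' μ) {n : ℕ} (J : Fin n → ι) :
    tpow g n (Pi.single J 1) ∈ Module.End.maxGenEigenspace (tpow A n) (∏ k, μ (J k)) := by
  rw [tpow_single]
  exact pt_gen A fun k => h.gen (J k)

/-- The coordinates of generalised eigenvectors. -/
lemma coord (h : EigB A g g' μ) {n : ℕ} {ν : L} {u : (Fin n → ι) → L}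
    (hu : u ∈ Module.End.maxGenEigenspace (tpow A n) ν) {J : Fin n → ι}
    (hJ : tpow g' n u J ≠ 0) : ∏ k, μ (J k) = ν := by
  classical
  by_contra hne
  set x := tpow g' n u with hx
  let x₁ : (Fin n → ι) → L := fun J => if ∏ k, μ (J k) = ν then x J else 0
  let x₂ : (Fin n → ι) → L := fun J => if ∏ k, μ (J k) = ν then 0 else x J
  have h12 : x = x₁ + x₂ := by
    funext J
    simp only [x₁, x₂, Pi.add_apply]
    split_ifs <;> simp
  have h1 : tpow g n x₁ ∈ Module.End.maxGenEigenspace (tpow A n) ν := by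
    rw [tpow_eq_sum]
    refine Submodule.sum_mem _ fun J _ => ?_
    by_cases hJ : ∏ k, μ (J k) = ν
    · refine Submodule.smul_mem _ _ ?_
      rw [← hJ]
      exact h.single_gen J
    · simp only [x₁, if_neg hJ, zero_smul]
      exact Submodule.zero_mem _
  have h2 : tpow g n x₂ ∈ ⨆ ν', ⨆ (_ : ν' ≠ ν),
      Module.End.maxGenEigenspace (tpow A n) ν' := by
    rw [tpow_eq_sum]
    refine Submodule.sum_mem _ fun J _ => ?_
    by_cases hJ : ∏ k, μ (J k) = ν
    · simp only [x₂, if_pos hJ, zero_smul]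
      exact Submodule.zero_mem _
    · refine Submodule.smul_mem _ _ ?_
      exact Submodule.mem_iSup_of_mem _ (Submodule.mem_iSup_of_mem hJ (h.single_gen J))
  have h3 : tpow g n x₂ = u - tpow g n x₁ := by
    rw [← h.gg' u, ← hx, h12, map_add, add_sub_cancel_left]
  have h4 : tpow g n x₂ ∈ Module.End.maxGenEigenspace (tpow A n) ν := by
    rw [h3]
    exact Submodule.sub_mem _ hu h1
  have h5 := (Module.End.independent_maxGenEigenspace (tpow A n)) ν
  have h6 : tpow g n x₂ = 0 := Submodule.disjoint_def.1 h5 _ h4 h2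
  have h7 : x₂ = 0 := by
    rw [← h.g'g x₂, h6, map_zero]
  have h8 := congrFun h7 J
  simp only [x₂, if_neg hne] at h8
  exact hJ h8

lemma dApply (g g' : Matrix ι ι L) (c : ι → L) {n : ℕ} (w : (Fin n → ι) → L) :
    tpow (g * Matrix.diagonal c * g') n w =
      tpow g n fun J => (∏ k, c (J k)) * tpow g' n w J := by
  rw [tpow_mul, tpow_mul, tpow_diag]

/-- Stable subspaces. -/
lemma stab [IsAlgClosed L] (h : EigB A g g' μ) {n : ℕ} {c : ι → L}
    (hc : ∀ J J' : Fin n → ι, ∏ k, μ (J k) = ∏ k, μ (J' k) → ∏ k, c (J k) = ∏ k, c (J' k))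
    {W : Submodule L ((Fin n → ι) → L)} (hW : ∀ w ∈ W, tpow A n w ∈ W) :
    ∀ w ∈ W, tpow (g * Matrix.diagonal c * g') n w ∈ W := by
  intro w hw
  have h1 : w ∈ W ⊓ ⨆ ν, Module.End.genEigenspace (tpow A n) ν ⊤ := by
    refine ⟨hw, ?_⟩
    have h2 := Module.End.iSup_maxGenEigenspace_eq_top (tpow A n)
    have h3 : w ∈ (⊤ : Submodule L _) := trivial
    rw [← h2] at h3
    exact h3
  rw [Submodule.inf_iSup_genEigenspace hW] at h1
  refine Submodule.iSup_induction _
    (motive := fun w => tpow (g * Matrix.diagonal c * g') n w ∈ W) h1 ?_ ?_ ?_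
  · rintro ν w ⟨hw, hw'⟩
    by_cases h0 : ∃ J₀, tpow g' n w J₀ ≠ 0
    · obtain ⟨J₀, hJ₀⟩ := h0
      have h2 : tpow (g * Matrix.diagonal c * g') n w = (∏ k, c (J₀ k)) • w := by
        rw [dApply]
        have h3 : (fun J => (∏ k, c (J k)) * tpow g' n w J) = (∏ k, c (J₀ k)) • tpow g' n w := by
          funext J
          rw [Pi.smul_apply, smul_eq_mul]
          by_cases hJ : tpow g' n w J = 0
          · rw [hJ, mul_zero, mul_zero]
          · rw [hc J J₀ (by rw [h.coord hw' hJ, h.coord hw' hJ₀])]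
        rw [h3, map_smul, h.gg']
      rw [h2]
      exact W.smul_mem _ hw
    · push Not at h0
      have h2 : tpow g' n w = 0 := funext h0
      have h3 : w = 0 := by rw [← h.gg' w, h2, map_zero]
      rw [h3, map_zero]
      exact W.zero_mem
  · rw [map_zero]; exact W.zero_mem
  · intro a b ha hb
    rw [map_add]
    exact W.add_mem ha hb

/-- Tensors which are fixed by `A` and by a diagonal matrix. -/
lemma fix (h : EigB A g g' μ) {n : ℕ} {c s : ι → L} {t : (Fin n → ι) → L}
    (hA : tpow A n t = t) (hs : tpow (g * Matrix.diagonal s * g') n t = t)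
    (hc : ∀ J : Fin n → ι, ∏ k, μ (J k) = 1 → ∏ k, s (J k) = 1 → ∏ k, c (J k) = 1) :
    tpow (g * Matrix.diagonal c * g') n t = t := by
  have h1 : t ∈ Module.End.maxGenEigenspace (tpow A n) 1 := by
    apply gen_step
    rw [hA, one_smul, sub_self]
    exact Submodule.zero_mem _
  have h2 : ∀ J, tpow g' n t J ≠ 0 → ∏ k, s (J k) = 1 := by
    intro J hJ
    have h3 := congrArg (tpow g' n) hs
    rw [dApply, h.g'g] at h3
    have h4 := congrFun h3 J
    exact mul_right_cancel₀ hJ (h4.trans (one_mul _).symm)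
  rw [dApply]
  conv_rhs => rw [← h.gg' t]
  congr 1
  funext J
  by_cases hJ : tpow g' n t J = 0
  · rw [hJ, mul_zero]
  · rw [hc J (h.coord h1 hJ) (h2 J hJ), one_mul]

/-- The eigenvalues on the tensors which are fixed by diagonal matrices. -/
lemma eig (h : EigB A g g' μ) {n : ℕ} {u : (Fin n → ι) → L} (hu : u ≠ 0) {ν : L}
    (hA : tpow A n u = ν • u) {Z : Type*} {c : Z → ι → L}
    (hc : ∀ z, tpow (g * Matrix.diagonal (c z) * g') n u = u) :
    ∃ J : Fin n → ι, ∏ k, μ (J k) = ν ∧ ∀ z, ∏ k, c z (J k) = 1 := by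
  have h1 : u ∈ Module.End.maxGenEigenspace (tpow A n) ν := by
    apply gen_step
    rw [hA, sub_self]
    exact Submodule.zero_mem _
  obtain ⟨J, hJ⟩ : ∃ J, tpow g' n u J ≠ 0 := by
    by_contra hcon
    push Not at hcon
    have h2 : tpow g' n u = 0 := funext hcon
    exact hu (by rw [← h.gg' u, h2, map_zero])
  refine ⟨J, h.coord h1 hJ, fun z => ?_⟩
  have h3 := congrArg (tpow g' n) (hc z)
  rw [dApply, h.g'g] at h3
  have h4 := congrFun h3 J
  exact mul_right_cancel₀ hJ (h4.trans (one_mul _).symm)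

end EigB

end Pool.Agent.Q60.TD
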