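import Pool.Agent.Q60.ED.ThmA

/-!
# The ideal of the stabiliser is radical
-/

set_option linter.unusedSectionVars false

namespace Pool.Agent.Q60.TD

open MvPolynomial Algebra Module Pool.Agent.Q60.ED

variable {K : Type} [Field K] {ι : Type} [Fintype ι] [DecidableEq ι]
  {S : ∀ n : ℕ, Submodule K ((Fin n → ι) → K)} {Q : (ι × ι → K) →ₗ[K] (ι × ι → K)}

/-- A set of functions which vanish at the unit matrix and is stable under the invariant
derivations consists of functions which vanish to infinite order modulo the ideal. -/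
lemma mem_pow' [CharZero K] (hQ : ∀ f ∈ IS S, Q (grd f) = 0)
    (hQ2 : ∀ v, ∃ f ∈ IS S, v - Q v = grd f) {F : Set (MvPolynomial (ι × ι) K)}
    (hF1 : ∀ f ∈ F, f ∈ (P1 : Ideal (MvPolynomial (ι × ι) K)))
    (hFd : ∀ A, Lie S A → ∀ f ∈ F, dA A f ∈ F) (k : ℕ) :
    ∀ f ∈ F, f ∈ (P1 : Ideal (MvPolynomial (ι × ι) K)) ^ (k + 1) ⊔ IS S := by
  induction k with
  | zero => intro f hf; rw [zero_add, pow_one]; exact Submodule.mem_sup_left (hF1 f hf)
  | succ k ih =>
    intro f hf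
    obtain ⟨g, hg, h, hh, hgh⟩ := Submodule.mem_sup.1 (ih f hf)
    have h1 := Eu_pow hQ2 (k + 1) g hg
    have hE : Eu Q f ∈ (P1 : Ideal (MvPolynomial (ι × ι) K)) ^ (k + 1 + 1) ⊔ IS S := by
      rw [Eu_apply]
      refine Ideal.sum_mem _ fun p _ => ?_
      obtain ⟨a, ha, b, hb, hab⟩ := Submodule.mem_sup.1 (ih _ (hFd _ (row_lie hQ p) f hf))
      rw [← hab, mul_add]
      refine Submodule.add_mem_sup ?_ (Ideal.mul_mem_left _ _ hb)
      rw [pow_succ, mul_comm (xi p) a]
      exact Ideal.mul_mem_mul ha (xi_mem p)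
    have h2 : Eu Q g = Eu Q f - Eu Q h := by
      rw [← hgh, map_add, add_sub_cancel_right]
    have h4 : ((k + 1 : ℕ) : MvPolynomial (ι × ι) K) * g ∈
        (P1 : Ideal (MvPolynomial (ι × ι) K)) ^ (k + 1 + 1) ⊔ IS S := by
      have h5 : ((k + 1 : ℕ) : MvPolynomial (ι × ι) K) * g = Eu Q f - Eu Q h -
          (Eu Q g - ((k + 1 : ℕ) : MvPolynomial (ι × ι) K) * g) := by
        rw [h2]; ring
      rw [h5]
      exact Ideal.sub_mem _ (Ideal.sub_mem _ hE (Submodule.mem_sup_right (Eu_IS hQ hh))) h1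
    have h6 : g ∈ (P1 : Ideal (MvPolynomial (ι × ι) K)) ^ (k + 1 + 1) ⊔ IS S := by
      have h7 := Ideal.mul_mem_left _ (C ((k + 1 : ℕ) : K)⁻¹) h4
      have h8 : (C ((k + 1 : ℕ) : K)⁻¹ : MvPolynomial (ι × ι) K) *
          (((k + 1 : ℕ) : MvPolynomial (ι × ι) K) * g) = g := by
        rw [← mul_assoc, ← map_natCast (C : K →+* MvPolynomial (ι × ι) K), ← map_mul,
          inv_mul_cancel₀ (Nat.cast_ne_zero.2 (Nat.succ_ne_zero k)), map_one, one_mul]
      rwa [h8] at h7
    rw [← hgh]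
    exact Ideal.add_mem _ h6 (Submodule.mem_sup_right hh)

/-- Near the unit matrix the ideal contains the functions of a stable set. -/
lemma exists_unit' [CharZero K] {F : Set (MvPolynomial (ι × ι) K)}
    (hF1 : ∀ f ∈ F, f ∈ (P1 : Ideal (MvPolynomial (ι × ι) K)))
    (hFd : ∀ A, Lie S A → ∀ f ∈ F, dA A f ∈ F) {f : MvPolynomial (ι × ι) K} (hf : f ∈ F) :
    ∃ u, evM (1 : Matrix ι ι K) u = 1 ∧ u * f ∈ IS S := by
  obtain ⟨Q, hQ, hQ2⟩ := exists_proj S
  have h1 := fun k => mem_pow' hQ hQ2 hF1 hFd k f hf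
  have h2 : (Ideal.Quotient.mk (IS S) f) ∈
      (⨅ i : ℕ, (P1 : Ideal (MvPolynomial (ι × ι) K)) ^ i • ⊤ :
        Submodule (MvPolynomial (ι × ι) K) (MvPolynomial (ι × ι) K ⧸ IS S)) := by
    rw [Submodule.mem_iInf]
    intro i
    rcases Nat.eq_zero_or_pos i with rfl | hi
    · rw [pow_zero, Ideal.one_eq_top, Submodule.top_smul]
      trivial
    · obtain ⟨k, rfl⟩ : ∃ k, i = k + 1 := ⟨i - 1, by omega⟩
      obtain ⟨g, hg, h, hh, hgh⟩ := Submodule.mem_sup.1 (h1 k)
      have h3 : Ideal.Quotient.mk (IS S) f = g • (1 : MvPolynomial (ι × ι) K ⧸ IS S) := by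
        rw [← hgh, map_add, Ideal.Quotient.eq_zero_iff_mem.2 hh, add_zero]
        change Ideal.Quotient.mk (IS S) g = Ideal.Quotient.mk (IS S) (g * 1)
        rw [mul_one]
      rw [h3]
      exact Submodule.smul_mem_smul hg trivial
  rw [Ideal.mem_iInf_smul_pow_eq_bot_iff] at h2
  obtain ⟨r, hr⟩ := h2
  refine ⟨1 - r.1, ?_, ?_⟩
  · rw [map_sub, map_one, mem_P1.1 r.2, sub_zero]
  · rw [← Ideal.Quotient.eq_zero_iff_mem, sub_mul, one_mul, map_sub]
    have h4 : Ideal.Quotient.mk (IS S) (r.1 * f) = r.1 • Ideal.Quotient.mk (IS S) f := by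
      rfl
    rw [h4, hr, sub_self]

lemma fix_mul {h h' : Matrix ι ι K} (hh : Fix S h) (hh' : Fix S h') : Fix S (h * h') := by
  intro n s hs
  rw [tpow_mul, hh' n s hs, hh n s hs]

/-- **The ideal of the stabiliser is radical**: it contains all functions which vanish on the
stabiliser. -/
theorem mem_IS [IsAlgClosed K] [CharZero K] {Ω : (Fin 2 → ι) → K} (hΩ : Ω ∈ S 2)
    (hdet : (mat2 Ω).det ≠ 0) {f : MvPolynomial (ι × ι) K}
    (hf : ∀ h, Fix S h → evM h f = 0) : f ∈ IS S := by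
  let F : Set (MvPolynomial (ι × ι) K) := {f | ∀ h, Fix S h → evM h f = 0}
  have hrad : ∀ f, f ∈ F ↔ f ∈ (IS S).radical := by
    intro f
    rw [← vanishingIdeal_zeroLocus_eq_radical (k := K) (K := K), mem_vanishingIdeal_iff]
    constructor
    · intro hf x hx
      have h2 : Fix S (Matrix.of fun a b => x (a, b)) := by
        rw [fix_iff]
        intro f hf
        exact hx f hf
      exact hf _ h2
    · intro hf h hh
      exact hf (fun p => h p.1 p.2) fun g hg => (fix_iff.1 hh) g hg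
  have hF1 : ∀ f ∈ F, f ∈ (P1 : Ideal (MvPolynomial (ι × ι) K)) := fun f hf =>
    mem_P1.2 (hf 1 fix_one)
  let _ : Algebra ℚ (MvPolynomial (ι × ι) K) := inferInstance
  have hFd : ∀ A, Lie S A → ∀ f ∈ F, dA A f ∈ F := by
    intro A hA f hf
    rw [hrad] at hf ⊢
    exact der_radical ((dA A).restrictScalars ℤ) (IS S) (fun f hf => dA_IS hA hf) hf
  have hFr : ∀ h, Fix S h → ∀ f ∈ F, rho h f ∈ F := by
    intro h hh f hf g hg
    rw [evM_rho]
    exact hf _ (fix_mul hg hh)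
  let J : Ideal (MvPolynomial (ι × ι) K) :=
    { carrier := {v | v * f ∈ IS S}
      add_mem' := fun {a b} ha hb => by
        change (a + b) * f ∈ IS S
        rw [add_mul]; exact Ideal.add_mem _ ha hb
      zero_mem' := by
        change 0 * f ∈ IS S
        rw [zero_mul]; exact Ideal.zero_mem _
      smul_mem' := fun c a ha => by
        change (c * a) * f ∈ IS S
        rw [mul_assoc]; exact Ideal.mul_mem_left _ _ ha }
  have hJ : ∀ v, v ∈ J ↔ v * f ∈ IS S := fun v => Iff.rfl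
  have htop : J = ⊤ := by
    by_contra hne
    obtain ⟨𝔪, h𝔪, hle⟩ := Ideal.exists_le_maximal J hne
    obtain ⟨x, hx⟩ := (isMaximal_iff_eq_vanishingIdeal_singleton (K := K)).1 h𝔪
    have h1 : ∀ v ∈ J, evM (Matrix.of fun a b => x (a, b)) v = 0 := by
      intro v hv
      have h2 := hle hv
      rw [hx, mem_vanishingIdeal_singleton_iff] at h2
      exact h2
    set h : Matrix ι ι K := Matrix.of fun a b => x (a, b) with hh
    have hfix : Fix S h := by
      rw [fix_iff]
      intro f' hf'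
      exact h1 f' ((hJ f').2 (Ideal.mul_mem_right _ _ hf'))
    have hd := fix_det hΩ hdet hfix
    have hfix' : Fix S h⁻¹ := fun m s hs => tpow_inv hd (hfix m s hs)
    obtain ⟨u, hu1, hu⟩ := exists_unit' hF1 hFd (hFr h hfix f hf)
    have h3 : rho h⁻¹ u ∈ J := by
      rw [hJ]
      have h4 := rho_IS hfix' hu
      rw [map_mul, rho_rho, Matrix.nonsing_inv_mul _ (isUnit_iff_ne_zero.2 hd), rho_one] at h4
      exact h4
    have h5 := h1 _ h3
    rw [evM_rho, Matrix.mul_nonsing_inv _ (isUnit_iff_ne_zero.2 hd), hu1] at h5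
    exact one_ne_zero h5
  have h6 : (1 : MvPolynomial (ι × ι) K) ∈ J := by rw [htop]; trivial
  rw [hJ, one_mul] at h6
  exact h6

end Pool.Agent.Q60.TD
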