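import Pool.Agent.Q60.TD.Bc
import Pool.Agent.Y800.Lin

/-!
# Semisimple representations all of whose eigenvalues are roots of unity of bounded order
-/

set_option linter.unusedSectionVars false

namespace Pool.Agent.Q60.TD

open Module Polynomial Pool.Agent.Y800

section mat

variable {k : Type*} [Field k] {n : ℕ}

/-- A matrix all of whose powers with exponents divisible by `m` have trace `n` has only
`m`-th roots of unity as eigenvalues. -/
lemma root_of_trace [CharZero k] {A : Matrix (Fin n) (Fin n) k} {m : ℕ}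
    (h : ∀ j : ℕ, (A ^ (m * j)).trace = n) {μ : k} (hμ : μ ∈ A.charpoly.roots) : μ ^ m = 1 := by
  have h1 : IsNilpotent (A ^ m - 1) := by
    refine nilpotent_of_trace (fun j hj _ => Nat.cast_ne_zero.2 (by omega)) fun f => ?_
    have h2 : aeval (A ^ m - 1) f * (A ^ m - 1) = aeval (A ^ m) ((f.comp (X - 1)) * (X - 1)) := by
      rw [map_mul, aeval_comp]
      simp
    rw [h2]
    have h3 : ∀ g : k[X], (aeval (A ^ m) g).trace = n * g.eval 1 := by
      intro g
      induction g using Polynomial.induction_on' with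
      | add p q hp hq => rw [map_add, Matrix.trace_add, hp, hq, eval_add, mul_add]
      | monomial j c =>
        rw [aeval_monomial, ← Algebra.smul_def, Matrix.trace_smul, ← pow_mul, h, eval_monomial,
          one_pow, mul_one, smul_eq_mul, mul_comm]
    rw [h3]
    simp
  have h2 : Module.End.HasEigenvalue (Matrix.toLin' A) μ := by
    rw [Module.End.hasEigenvalue_iff_isRoot_charpoly, Matrix.charpoly_toLin']
    exact (mem_roots'.1 hμ).2
  obtain ⟨v, hv⟩ := h2.exists_hasEigenvector
  obtain ⟨N, hN⟩ := h1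
  have h3 : ∀ j, (A ^ j).mulVec v = μ ^ j • v := by
    intro j
    induction j with
    | zero => rw [pow_zero, pow_zero, Matrix.one_mulVec, one_smul]
    | succ j ih =>
      rw [pow_succ, ← Matrix.mulVec_mulVec]
      have h4 : A.mulVec v = μ • v := hv.apply_eq_smul
      rw [h4, Matrix.mulVec_smul, ih, smul_smul, pow_succ, mul_comm]
  have h4 : (A ^ m - 1).mulVec v = (μ ^ m - 1) • v := by
    rw [Matrix.sub_mulVec, h3, Matrix.one_mulVec, sub_smul, one_smul]
  have h5 : ∀ j, ((A ^ m - 1) ^ j).mulVec v = (μ ^ m - 1) ^ j • v := by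
    intro j
    induction j with
    | zero => rw [pow_zero, pow_zero, Matrix.one_mulVec, one_smul]
    | succ j ih =>
      rw [pow_succ, ← Matrix.mulVec_mulVec, h4, Matrix.mulVec_smul, ih, smul_smul, pow_succ,
        mul_comm]
  have h6 := h5 N
  rw [hN, Matrix.zero_mulVec] at h6
  have h7 : (μ ^ m - 1) ^ N = 0 := (smul_eq_zero.1 h6.symm).resolve_right hv.2
  exact sub_eq_zero.1 (eq_zero_of_pow_eq_zero h7)

/-- The sums of `n` roots of unity of order `m`. -/
def tset (k : Type*) [Field k] (m n : ℕ) : Set k :=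
  {t | ∃ f : Fin n → k, (∀ i, f i ^ m = 1) ∧ ∑ i, f i = t}

lemma tset_finite {m : ℕ} (hm : 0 < m) : (tset k m n).Finite := by
  classical
  have h1 : {x : k | x ^ m = 1}.Finite := by
    have h2 : {x : k | x ^ m = 1} ⊆ ((nthRoots m (1 : k)).toFinset : Set k) := by
      intro x hx
      rw [Finset.mem_coe, Multiset.mem_toFinset, mem_nthRoots hm]
      exact hx
    exact (Finset.finite_toSet _).subset h2
  have h3 : {f : Fin n → k | ∀ i, f i ^ m = 1}.Finite := by
    have h4 : {f : Fin n → k | ∀ i, f i ^ m = 1} = Set.pi Set.univ fun _ => {x : k | x ^ m = 1} := by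
      ext f
      simp
    rw [h4]
    exact Set.Finite.pi fun _ => h1
  have h4 : tset k m n = (fun f : Fin n → k => ∑ i, f i) '' {f | ∀ i, f i ^ m = 1} := by
    ext t
    constructor
    · rintro ⟨f, hf, rfl⟩
      exact ⟨f, hf, rfl⟩
    · rintro ⟨f, hf, rfl⟩
      exact ⟨f, hf, rfl⟩
  rw [h4]
  exact h3.image _

lemma trace_mem_tset [IsAlgClosed k] {A : Matrix (Fin n) (Fin n) k} {m : ℕ}
    (h : ∀ μ ∈ A.charpoly.roots, μ ^ m = 1) : A.trace ∈ tset k m n := by
  have hcard : Multiset.card A.charpoly.roots = n := by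
    have h1 := IsAlgClosed.splits A.charpoly
    have h2 := h1.natDegree_eq_card_roots
    rw [Matrix.charpoly_natDegree_eq_dim, Fintype.card_fin] at h2
    exact h2.symm
  rw [Matrix.trace_eq_sum_roots_charpoly]
  obtain ⟨l, hl⟩ := Quot.exists_rep A.charpoly.roots
  have hl' : (l : Multiset k) = A.charpoly.roots := hl
  have hlen : l.length = n := by
    rw [← Multiset.coe_card, hl', hcard]
  subst hlen
  refine ⟨fun i => l.get i, fun i => h _ ?_, ?_⟩
  · rw [← hl']
    exact List.get_mem l i
  · rw [← hl', Multiset.sum_coe]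
    have h3 : l.sum = (List.ofFn l.get).sum := by rw [List.ofFn_get]
    rw [h3, List.sum_ofFn]

/-- If all eigenvalues are `m`-th roots of unity then the powers with exponents divisible by `m`
have trace `n`. -/
lemma trace_pow_eq [IsAlgClosed k] {A : Matrix (Fin n) (Fin n) k} {m : ℕ}
    (h : ∀ μ : k, (∃ v ≠ 0, A.mulVec v = μ • v) → μ ^ m = 1) (j : ℕ) :
    (A ^ (m * j)).trace = n := by
  have hcard : ∀ C : Matrix (Fin n) (Fin n) k, Multiset.card C.charpoly.roots = n := by
    intro C
    have h1 := IsAlgClosed.splits C.charpoly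
    have h2 := h1.natDegree_eq_card_roots
    rw [Matrix.charpoly_natDegree_eq_dim, Fintype.card_fin] at h2
    exact h2.symm
  rw [Matrix.trace_eq_sum_roots_charpoly]
  have h1 : ∀ ν ∈ (A ^ (m * j)).charpoly.roots, ν = 1 := by
    intro ν hν
    have h2 : ν ∈ spectrum k (A ^ (m * j)) := by
      rw [Matrix.mem_spectrum_iff_isRoot_charpoly]
      exact (mem_roots'.1 hν).2
    have h3 : A ^ (m * j) = aeval A ((X : k[X]) ^ (m * j)) := by simp
    rcases Nat.eq_zero_or_pos n with rfl | hn
    · have := hcard (A ^ (m * j))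
      rw [Multiset.card_eq_zero] at this
      rw [this] at hν
      exact absurd hν (Multiset.notMem_zero _)
    · have : NeZero n := ⟨hn.ne'⟩
      rw [h3, spectrum.map_polynomial_aeval_of_nonempty] at h2
      · obtain ⟨μ, hμ, hμν⟩ := h2
        simp only [eval_pow, eval_X] at hμν
        rw [← hμν, pow_mul, h μ, one_pow]
        rw [Matrix.mem_spectrum_iff_isRoot_charpoly, ← Matrix.charpoly_toLin',
          ← Module.End.hasEigenvalue_iff_isRoot_charpoly] at hμ
        obtain ⟨v, hv⟩ := hμ.exists_hasEigenvector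
        exact ⟨v, hv.2, hv.apply_eq_smul⟩
      · exact spectrum.nonempty_of_isAlgClosed_of_finiteDimensional k A
  rw [Multiset.eq_replicate_card.2 h1, hcard, Multiset.sum_replicate, nsmul_eq_mul, mul_one]

/-- **Finite image.** -/
theorem finite_image [CharZero k] [IsAlgClosed k] {G : Type*} [Group G] (ρ : G →* GL (Fin n) k)
    (hss : IsSemisimpleRep ρ) {m : ℕ} (hm : 0 < m)
    (h : ∀ g (j : ℕ), ((ρ g : Matrix (Fin n) (Fin n) k) ^ (m * j)).trace = n) :
    ρ.ker.FiniteIndex := by
  classical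
  have hn : ∀ j : ℕ, 1 ≤ j → j ≤ n → (j : k) ≠ 0 := fun j hj _ => Nat.cast_ne_zero.2 (by omega)
  have ht : ∀ g, (ρ g : Matrix (Fin n) (Fin n) k).trace ∈ tset k m n := fun g =>
    trace_mem_tset fun μ hμ => root_of_trace (h g) hμ
  obtain ⟨b, hb, hspan, hli⟩ := exists_linearIndependent k
    (Set.range fun g => (ρ g : Matrix (Fin n) (Fin n) k))
  have hfin : Finite b := hli.finite
  choose f hf using fun x : b => hb x.2
  let φ : G → (b → tset k m n) := fun g x => ⟨_, ht (f x * g)⟩
  have hφ : ∀ g g', φ g = φ g' → ρ g = ρ g' := by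
    intro g g' hgg
    have h1 : ∀ x : b, ((x : Matrix (Fin n) (Fin n) k) *
        ((ρ g : Matrix (Fin n) (Fin n) k) - ρ g')).trace = 0 := by
      intro x
      have h2 := congrArg Subtype.val (congrFun hgg x)
      change (ρ (f x * g) : Matrix (Fin n) (Fin n) k).trace =
        (ρ (f x * g') : Matrix (Fin n) (Fin n) k).trace at h2
      rw [map_mul, map_mul, Units.val_mul, Units.val_mul] at h2
      have h3 : (ρ (f x) : Matrix (Fin n) (Fin n) k) = x := hf x
      rw [h3] at h2
      rw [mul_sub, Matrix.trace_sub, h2, sub_self]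
    have h2 : ∀ y ∈ Submodule.span k b, (y *
        ((ρ g : Matrix (Fin n) (Fin n) k) - ρ g')).trace = 0 := by
      intro y hy
      induction hy using Submodule.span_induction with
      | mem y hy => exact h1 ⟨y, hy⟩
      | zero => rw [zero_mul, Matrix.trace_zero]
      | add y z _ _ hy hz => rw [add_mul, Matrix.trace_add, hy, hz, add_zero]
      | smul c y _ hy => rw [smul_mul_assoc, Matrix.trace_smul, hy, smul_zero]
    have h3 := eq_zero_of_trace ρ hn hss
      (Submodule.sub_mem _ (mem_Sp ρ g) (mem_Sp ρ g')) (fun x => h2 _ (by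
        rw [hspan]
        exact Submodule.subset_span ⟨x, rfl⟩))
    exact Units.ext (sub_eq_zero.1 h3)
  have hT : Finite (tset k m n) := (tset_finite hm).to_subtype
  have hr : Finite ρ.range := by
    have h1 : Finite (Set.range φ) := inferInstance
    refine Finite.of_surjective (fun y : Set.range φ => (⟨ρ y.2.choose, y.2.choose, rfl⟩ :
      ρ.range)) ?_
    rintro ⟨_, g, rfl⟩
    refine ⟨⟨φ g, g, rfl⟩, ?_⟩
    apply Subtype.ext
    exact hφ _ _ (⟨φ g, g, rfl⟩ : Set.range φ).2.choose_spec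
  exact Subgroup.finiteIndex_ker ρ

end mat

section sub

variable {k : Type*} [Field k] {V : Type*} [AddCommGroup V] [Module k V] [FiniteDimensional k V]

/-- Dual families for a subspace. -/
lemma exists_dual (U : Submodule k V) : ∃ (u : Fin (finrank k U) → V)
    (φ : Fin (finrank k U) → V →ₗ[k] k), (∀ i, u i ∈ U) ∧
      (∀ v ∈ U, v = ∑ i, φ i v • u i) ∧ ∀ i j, φ i (u j) = if i = j then 1 else 0 := by
  let b := finBasis k U
  have h1 : ∀ i, ∃ φ : V →ₗ[k] k, φ ∘ₗ U.subtype = b.coord i := fun i =>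
    LinearMap.exists_extend (b.coord i)
  choose φ hφ using h1
  have h2 : ∀ i (v : U), φ i v = b.coord i v := fun i v => LinearMap.congr_fun (hφ i) v
  refine ⟨fun i => b i, φ, fun i => (b i).2, fun v hv => ?_, fun i j => ?_⟩
  · have h3 := congrArg Subtype.val (b.sum_repr ⟨v, hv⟩)
    rw [Submodule.coe_sum] at h3
    conv_lhs => rw [← (show ((⟨v, hv⟩ : U) : V) = v from rfl), ← h3]
    refine Finset.sum_congr rfl fun i _ => ?_
    rw [Submodule.coe_smul]
    congr 1
    exact (h2 i ⟨v, hv⟩).symm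
  · rw [h2, Basis.coord_apply, Basis.repr_self, Finsupp.single_apply]
    simp only [eq_comm]

/-- **A semisimple representation with unipotent powers is trivial on a subgroup of finite
index.** -/
theorem exists_index [CharZero k] [IsAlgClosed k] {G : Type*} [Group G]
    (ρ : G →* Module.End k V) {U : Submodule k V} (hU : Stab (Op ρ ⊤) U)
    (hss : SSon (Op ρ ⊤) U) {u : Fin (finrank k U) → V} {φ : Fin (finrank k U) → V →ₗ[k] k}
    (hu : ∀ i, u i ∈ U) (hφ : ∀ v ∈ U, v = ∑ i, φ i v • u i)
    (hφu : ∀ i j, φ i (u j) = if i = j then 1 else 0) {m : ℕ} (hm : 0 < m)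
    (h : ∀ g (j : ℕ), ∑ i, φ i (ρ (g ^ (m * j)) (u i)) = finrank k U) :
    ∃ Δ : Subgroup G, Δ.FiniteIndex ∧ ∀ g ∈ Δ, ∀ v ∈ U, ρ g v = v := by
  classical
  have hUg : ∀ g, ∀ v ∈ U, ρ g v ∈ U := fun g v hv => hU _ (mem_Op (Subgroup.mem_top g)) v hv
  let R : G → Matrix (Fin (finrank k U)) (Fin (finrank k U)) k := fun g =>
    Matrix.of fun i j => φ i (ρ g (u j))
  have hR1 : R 1 = 1 := by
    ext i j
    change φ i (ρ 1 (u j)) = _
    rw [map_one, Matrix.one_apply]
    exact hφu i j
  have hRm : ∀ g g', R (g * g') = R g * R g' := by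
    intro g g'
    ext i j
    rw [Matrix.mul_apply]
    change φ i (ρ (g * g') (u j)) = _
    rw [map_mul]
    have h1 := hφ _ (hUg g' _ (hu j))
    change φ i (ρ g (ρ g' (u j))) = _
    conv_lhs => rw [h1]
    rw [map_sum, map_sum]
    refine Finset.sum_congr rfl fun l _ => ?_
    rw [map_smul, map_smul, smul_eq_mul, mul_comm]
    rfl
  let Rh : G →* GL (Fin (finrank k U)) k :=
    { toFun := fun g => ⟨R g, R g⁻¹, by rw [← hRm, mul_inv_cancel, hR1], by
        rw [← hRm, inv_mul_cancel, hR1]⟩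
      map_one' := Units.ext hR1
      map_mul' := fun g g' => Units.ext (hRm g g') }
  have hRh : ∀ g, (Rh g : Matrix (Fin (finrank k U)) (Fin (finrank k U)) k) = R g := fun g => rfl
  -- the isomorphism with the coordinates
  let ψ : (Fin (finrank k U) → k) →ₗ[k] V := Fintype.linearCombination k u
  have hψ : ∀ x, ψ x = ∑ i, x i • u i := fun x => rfl
  have hψU : ∀ x, ψ x ∈ U := fun x => by
    rw [hψ]
    exact Submodule.sum_mem _ fun i _ => U.smul_mem _ (hu i)
  have hφψ : ∀ i x, φ i (ψ x) = x i := by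
    intro i x
    rw [hψ, map_sum, Finset.sum_eq_single i]
    · rw [map_smul, hφu, if_pos rfl, smul_eq_mul, mul_one]
    · intro j _ hj
      rw [map_smul, hφu, if_neg (Ne.symm hj), smul_zero]
    · intro h; exact absurd (Finset.mem_univ _) h
  have hψi : Function.Injective ψ := by
    intro x y hxy
    funext i
    rw [← hφψ i x, hxy, hφψ]
  have hψs : ∀ v ∈ U, ψ (fun i => φ i v) = v := fun v hv => (hφ v hv).symm
  have hRψ : ∀ g x, ψ ((R g).mulVec x) = ρ g (ψ x) := by
    intro g x
    rw [← hψs _ (hUg g _ (hψU x))]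
    congr 1
    funext i
    rw [hψ x, map_sum, map_sum, Matrix.mulVec, dotProduct]
    refine Finset.sum_congr rfl fun j _ => ?_
    rw [map_smul, map_smul, smul_eq_mul, mul_comm]
    rfl
  have hssR : IsSemisimpleRep Rh := by
    intro W hW
    have hWm : Stab (Op ρ ⊤) (W.map ψ) := by
      rw [stab_op]
      rintro g - _ ⟨x, hx, rfl⟩
      exact ⟨_, hW g x hx, hRψ g x⟩
    obtain ⟨C, hC, hCs, h1, h2⟩ := hss _ (by rintro _ ⟨x, _, rfl⟩; exact hψU x) hWm
    rw [stab_op] at hCs
    refine ⟨C.comap ψ, ?_, ?_⟩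
    · intro g x hx
      rw [Submodule.mem_comap] at hx ⊢
      rw [hRh, hRψ]
      exact hCs g (Subgroup.mem_top g) _ hx
    · constructor
      · rw [Submodule.disjoint_def]
        intro x hx hx'
        have h3 : ψ x ∈ W.map ψ ⊓ C := ⟨⟨x, hx, rfl⟩, hx'⟩
        rw [h1, Submodule.mem_bot] at h3
        exact hψi (h3.trans (map_zero ψ).symm)
      · rw [codisjoint_iff, eq_top_iff]
        intro x _
        have h3 : ψ x ∈ W.map ψ ⊔ C := h2.ge (hψU x)
        obtain ⟨_, ⟨w, hw, rfl⟩, c, hc, hwc⟩ := Submodule.mem_sup.1 h3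
        refine Submodule.mem_sup.2 ⟨w, hw, x - w, ?_, by abel⟩
        rw [Submodule.mem_comap, map_sub, ← hwc, add_sub_cancel_left]
        exact hc
  have hfi := finite_image Rh hssR hm (fun g j => by
    rw [← Units.val_pow_eq_pow_val, ← map_pow, hRh]
    exact h g j)
  refine ⟨Rh.ker, hfi, fun g hg v hv => ?_⟩
  have h1 : R g = 1 := by
    rw [← hRh, MonoidHom.mem_ker.1 hg]
    rfl
  rw [← hψs v hv, ← hRψ, h1, Matrix.one_mulVec]

end sub

end Pool.Agent.Q60.TD
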