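import Pool.Agent.Q60.TD.TR
import Pool.Agent.Q60.TD.Fin

/-!
# Density of the Weil elements and finiteness of the action on the invariants
-/

set_option linter.unusedSectionVars false

namespace Pool.Agent.Q60.TD

open Polynomial Module Matrix Pool.Agent.Q60.ED Pool.Agent.Q56.FD

section trace

variable {k : Type*} [Field k] {V : Type*} [AddCommGroup V] [Module k V] [FiniteDimensional k V]

/-- The traces of the powers of an operator whose eigenvalues are roots of unity. -/
lemma trace_sub [IsAlgClosed k] {G : Type*} [Group G] (ρ : G →* Module.End k V)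
    {U : Submodule k V} (hU : Stab (Op ρ ⊤) U) {u : Fin (finrank k U) → V}
    {φ : Fin (finrank k U) → V →ₗ[k] k} (hu : ∀ i, u i ∈ U)
    (hφ : ∀ v ∈ U, v = ∑ i, φ i v • u i) (hφu : ∀ i j, φ i (u j) = if i = j then 1 else 0)
    {m : ℕ} (g : G) (h : ∀ ν : k, ∀ v ∈ U, v ≠ 0 → ρ g v = ν • v → ν ^ m = 1) (j : ℕ) :
    ∑ i, φ i (ρ (g ^ (m * j)) (u i)) = finrank k U := by
  classical
  have hUg : ∀ g, ∀ v ∈ U, ρ g v ∈ U := fun g v hv => hU _ (mem_Op (Subgroup.mem_top g)) v hv
  let R : G → Matrix (Fin (finrank k U)) (Fin (finrank k U)) k := fun g =>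
    Matrix.of fun i j => φ i (ρ g (u j))
  have hR1 : R 1 = 1 := by
    ext i j
    change φ i (ρ 1 (u j)) = _
    rw [map_one, Matrix.one_apply]
    exact hφu i j
  have hRm : ∀ g g', R (g * g') = R g * R g' := by
    intro g g'
    ext i j
    rw [Matrix.mul_apply]
    change φ i (ρ (g * g') (u j)) = _
    rw [map_mul]
    have h1 := hφ _ (hUg g' _ (hu j))
    change φ i (ρ g (ρ g' (u j))) = _
    conv_lhs => rw [h1]
    rw [map_sum, map_sum]
    refine Finset.sum_congr rfl fun l _ => ?_
    rw [map_smul, map_smul, smul_eq_mul, mul_comm]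
    rfl
  have hRp : ∀ (g : G) (n : ℕ), R (g ^ n) = R g ^ n := by
    intro g n
    induction n with
    | zero => rw [pow_zero, pow_zero, hR1]
    | succ n ih => rw [pow_succ, hRm, ih, pow_succ]
  have h1 : ∑ i, φ i (ρ (g ^ (m * j)) (u i)) = (R (g ^ (m * j))).trace := rfl
  rw [h1, hRp]
  refine trace_pow_eq (fun ν hν => ?_) j
  obtain ⟨v, hv, hvν⟩ := hν
  refine h ν (∑ i, v i • u i) (Submodule.sum_mem _ fun i _ => U.smul_mem _ (hu i)) ?_ ?_
  · intro h0
    apply hv
    funext i
    have h2 := congrArg (φ i) h0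
    rw [map_sum, map_zero, Finset.sum_eq_single i] at h2
    · rw [map_smul, hφu, if_pos rfl, smul_eq_mul, mul_one] at h2
      exact h2
    · intro j _ hj
      rw [map_smul, hφu, if_neg (Ne.symm hj), smul_zero]
    · intro h; exact absurd (Finset.mem_univ _) h
  · rw [map_sum]
    have h2 : ∀ i, ρ g (v i • u i) = ∑ l, (R g l i * v i) • u l := by
      intro i
      rw [map_smul]
      have h3 := hφ _ (hUg g _ (hu i))
      conv_lhs => rw [h3]
      rw [Finset.smul_sum]
      refine Finset.sum_congr rfl fun l _ => ?_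
      rw [smul_smul, mul_comm]
      rfl
    simp only [h2]
    rw [Finset.sum_comm, Finset.smul_sum]
    refine Finset.sum_congr rfl fun l _ => ?_
    rw [← Finset.sum_smul, smul_smul]
    congr 1
    have h3 := congrFun hvν l
    rw [Matrix.mulVec, dotProduct, Pi.smul_apply, smul_eq_mul] at h3
    exact h3

end trace

section good

variable {X : Type*} [TopologicalSpace X] {K L : Type*} [Field K] [TopologicalSpace K]
  [IsTopologicalRing K] [Field L] [Algebra K L]

/-- Functions with values in an extension field all of whose coordinates are continuous. -/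
def Good (F : X → L) : Prop := ∀ l : L →ₗ[K] K, Continuous fun x => l (F x)

lemma good_add {F F' : X → L} (h : Good (K := K) F) (h' : Good (K := K) F') :
    Good (K := K) fun x => F x + F' x := by
  intro l
  simp only [map_add]
  exact (h l).add (h' l)

lemma good_sum {α : Type*} (s : Finset α) {F : α → X → L} (h : ∀ a, Good (K := K) (F a)) :
    Good (K := K) fun x => ∑ a ∈ s, F a x := by
  intro l
  simp only [map_sum]
  exact continuous_finsetSum _ fun a _ => h a l

lemma good_mul {f : X → K} (hf : Continuous f) (c : L) :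
    Good (K := K) fun x => c * algebraMap K L (f x) := by
  intro l
  have h1 : ∀ x, l (c * algebraMap K L (f x)) = f x * l c := by
    intro x
    rw [mul_comm, ← Algebra.smul_def, map_smul, smul_eq_mul]
  simp only [h1]
  exact hf.mul continuous_const

lemma good_const [T2Space K] {F : X → L} (h : Good (K := K) F) (r : L) :
    IsClosed {x | F x = r} := by
  have h1 : {x | F x = r} = ⋂ l : L →ₗ[K] K, {x | l (F x) = l r} := by
    ext x
    rw [Set.mem_iInter]
    constructor
    · intro hx l
      change l (F x) = l r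
      have h2 : F x = r := hx
      rw [h2]
    · intro hx
      have h2 : ∀ l : Module.Dual K L, l (F x - r) = 0 := by
        intro l
        have h3 : l (F x) = l r := hx l
        rw [map_sub, h3, sub_self]
      exact sub_eq_zero.1 ((Module.forall_dual_apply_eq_zero_iff K _).1 h2)
  rw [h1]
  exact isClosed_iInter fun l => isClosed_eq (h l) continuous_const

end good

variable {K : Type} [Field K] [CharZero K] {ι : Type} [Fintype ι] [DecidableEq ι] {Γ : Type*}
  [Group Γ] {L : Type} [Field L] [Algebra K L] {R : MRep K ι Γ} {b : ℕ}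

/-- The entries of the normalised matrices on the even tensors. -/
noncomputable def cE (R : MRep K ι Γ) {n : ℕ} (I J : Fin n → ι) (g : Γ) : K :=
  open Classical in
  if Even (∑ k, R.a (I k)) then ((R.χ g : K)⁻¹) ^ ((∑ k, R.a (I k)) / 2) * ∏ k, R.A g (I k) (J k)
  else 0

variable [IsAlgClosed L]

lemma even_apply {dX n : ℕ} (hM : R.M ≤ 2 * dX) {t : (Fin n → ι) → L}
    (ht : t ∈ (toT (b := b) R L hM).Ev n) {I : Fin n → ι} (hI : ¬ Even (∑ k, R.a (I k))) :
    t I = 0 := by
  have h1 : tpow (diagonal (sg R L)) n t = t := ht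
  rw [tpow_diag] at h1
  have h2 := congrFun h1 I
  simp only [sg] at h2
  rw [Finset.prod_pow_eq_pow_sum, (Nat.not_even_iff_odd.1 hI).neg_one_pow] at h2
  have : CharZero L := charZero_of_injective_algebraMap (algebraMap K L).injective
  have h3 : (2 : L) * t I = 0 := by linear_combination -h2
  exact (mul_eq_zero.1 h3).resolve_left two_ne_zero

/-- The action on even tensors has coefficients in the small field. -/
lemma tpow_rr {dX n : ℕ} (hM : R.M ≤ 2 * dX) {t : (Fin n → ι) → L}
    (ht : t ∈ (toT (b := b) R L hM).Ev n) (x : GG R L) (I : Fin n → ι) :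
    tpow (rr R L x) n t I = ∑ J, algebraMap K L (cE R I J x.1.1) * t J := by
  classical
  rw [rr_apply, tpow_mul, tpow_diag]
  beta_reduce
  rw [Finset.prod_pow_eq_pow_sum]
  by_cases h : Even (∑ k, R.a (I k))
  · obtain ⟨l, hl⟩ := h
    have hl' : ∑ k, R.a (I k) = 2 * l := by omega
    have h1 : ((x.1.2 : L)⁻¹) ^ (∑ k, R.a (I k)) = algebraMap K L (((R.χ x.1.1 : K)⁻¹) ^ l) := by
      rw [hl', pow_mul, inv_pow, mem_GG.1 x.2, map_pow, map_inv₀]
    rw [h1, tpow_apply, Finset.mul_sum]
    refine Finset.sum_congr rfl fun J _ => ?_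
    rw [cE, if_pos ⟨l, hl⟩, map_mul, map_prod, hl', Nat.mul_div_cancel_left l two_pos, mul_assoc]
    rfl
  · rw [tpow_apply, Finset.mul_sum]
    refine Finset.sum_congr rfl fun J _ => ?_
    rw [cE, if_neg h, map_zero, zero_mul]
    by_cases h2 : Even (∑ k, R.a (J k))
    · have h3 : ∃ k, R.a (I k) ≠ R.a (J k) := by
        by_contra hcon
        push Not at hcon
        exact h (by simpa only [hcon] using h2)
      obtain ⟨k, hk⟩ := h3
      rw [Finset.prod_eq_zero (Finset.mem_univ k) (R.AL_hom _ hk), zero_mul, mul_zero]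
    · rw [even_apply hM ht h2, mul_zero, mul_zero]

/-- The traces on the invariants for the Weil elements. -/
lemma eigen_pow {dX n : ℕ} (hM : R.M ≤ 2 * dX) {x : GG R L} (hx : R.IsWeil b x.1.1)
    {t : (Fin n → ι) → L} (ht : t ∈ (toT (b := b) R L hM).Ev n)
    (htG : ∀ γ ∈ Gam (toT (b := b) R L hM).d (toT (b := b) R L hM).E, tpow γ n t = t)
    (ht0 : t ≠ 0) {ν : L} (hν : tpow (rr R L x) n t = ν • t) :
    ν ^ (2 * b ^ n).factorial = 1 := by
  obtain ⟨p, hp, e, Q, he, hχ, hQ, hb, hk⟩ := hx
  have : CharZero L := charZero_of_injective_algebraMap (algebraMap K L).injective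
  let τ : Qb →ₐ[ℚ] L := IsAlgClosed.lift
  obtain ⟨y, B, B', hB, hBh⟩ := R.exists_eigB (L := L) hQ hk (τ : Qb →+* L)
  let N : ND R L b :=
    { g := x.1.1, p := p, hp := hp, e := e, Q := Q, he := he, hχ := hχ, hQ := hQ, hb := hb,
      hk := hk, τ := (τ : Qb →+* L), x := y, B := B, B' := B', eig := hB, homB := hBh }
  let _ : Fact N.p.Prime := N.hp
  have h1 := N.eig_rr x rfl
  obtain ⟨J, hJ, hJc⟩ := h1.eig ht0 hν
    (Z := (Qb →+* PadicAlgCl p) ⊕ Unit)
    (c := fun z => Sum.elim (fun ι₀ j => (2 : L) ^ (N.c ι₀ j)) (fun _ j => (-1 : L) ^ (N.dg' j)) z)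
    (by
      rintro (ι₀ | _)
      · have h2 := htG _ (coch_mem (d := (toT (b := b) R L hM).d)
          (⟨N.E (2 * ((dX + 1) * b.factorial)) ι₀, N, ι₀, rfl⟩ : (toT (b := b) R L hM).J)
          (two_ne_zero : (2 : L) ≠ 0))
        have h3 := N.coch_E hM le_rfl ι₀ (two_ne_zero : (2 : L) ≠ 0)
        have h4 : coch (toT (b := b) R L hM).d ((toT (b := b) R L hM).E
            ⟨N.E (2 * ((dX + 1) * b.factorial)) ι₀, N, ι₀, rfl⟩) (2 : L) =
            N.B * diagonal (fun j => (2 : L) ^ (N.c ι₀ j)) * N.B' := h3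
        rw [h4] at h2
        exact h2
      · have h2 : tpow (diagonal (sg R L)) n t = t := ht
        rw [sg_diag N] at h2
        exact h2)
  have hev : Even (dg (N.ms J)) := by
    have h2 := hJc (Sum.inr ())
    simp only [Sum.elim_inr] at h2
    rw [Finset.prod_pow_eq_pow_sum, ← N.dg_ms] at h2
    by_contra h3
    rw [Nat.not_even_iff_odd] at h3
    rw [h3.neg_one_pow] at h2
    have h4 : (2 : L) = 0 := by linear_combination -h2
    exact two_ne_zero h4
  have hsl : ∀ ι₀ : Qb →+* PadicAlgCl p, ((N.ms J).map fun x => cs (p ^ e) ι₀ x).sum = 0 := by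
    intro ι₀
    have h2 := hJc (Sum.inl ι₀)
    simp only [Sum.elim_inl] at h2
    rw [prod_zpow' two_ne_zero] at h2
    have h3 : ∑ k, N.c ι₀ (J k) = 0 := by
      have h4 : ∀ m : ℤ, (2 : L) ^ m = 1 → m = 0 := by
        intro m hm
        have h5 : ((2 : ℚ) : L) ^ m = ((1 : ℚ) : L) := by
          push_cast
          exact hm
        have h6 : (2 : ℚ) ^ m = 1 := by exact_mod_cast h5
        exact (zpow_eq_one_iff_right₀ (by norm_num) (by norm_num)).1 h6
      exact h4 _ h2
    have h4 := N.sum_c J ι₀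
    rw [h3, Int.cast_zero] at h4
    have h5 : (b.factorial : ℝ) ≠ 0 := by exact_mod_cast b.factorial_ne_zero
    exact (mul_eq_zero.1 h4.symm).resolve_left h5
  obtain ⟨j, hj, hpow⟩ := bal_pow N.he N.hQ N.hb hev hsl
  rw [N.card_ms] at hpow
  rw [ND.prod_eq (N := N), hj, pow_mul, inv_pow, ND.sq_eq (N := N) x rfl] at hJ
  rw [← hJ, mul_pow, ← map_pow N.τ (pr (N.ms J)), hpow, map_pow, map_pow, ← mul_pow, ← mul_pow,
    inv_mul_cancel₀, one_pow, one_pow]
  rw [← ND.sq_eq (N := N) x rfl]
  exact pow_ne_zero _ x.1.2.ne_zero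

/-- **Finiteness.** The even tensors which are fixed by the one-parameter families are virtually
invariant. -/
theorem fin_T {dX n : ℕ} (hM : R.M ≤ 2 * dX) [TopologicalSpace Γ] [IsTopologicalGroup Γ]
    [TopologicalSpace K] [T2Space K] [IsTopologicalDivisionRing K]
    (hA : ∀ i j, Continuous fun g => R.A g i j) (hχ : Continuous fun g => (R.χ g : K))
    (hW : Dense {g | R.IsWeil b g})
    (hss : SSon (Op ((toT (b := b) R L hM).ρn n) ⊤) ((toT (b := b) R L hM).Ev n)) :
    ∀ t ∈ (toT (b := b) R L hM).Ev n,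
      (∀ γ ∈ Gam (toT (b := b) R L hM).d (toT (b := b) R L hM).E, tpow γ n t = t) →
        t ∈ (toT (b := b) R L hM).T n := by
  classical
  have : CharZero L := charZero_of_injective_algebraMap (algebraMap K L).injective
  set T := toT (b := b) R L hM with hT
  let U : Submodule L ((Fin n → ι) → L) :=
    { carrier := {t | t ∈ T.Ev n ∧ ∀ γ ∈ Gam T.d T.E, tpow γ n t = t}
      add_mem' := by
        rintro a b ⟨ha, ha'⟩ ⟨hb, hb'⟩
        exact ⟨Submodule.add_mem _ ha hb, fun γ hγ => by rw [map_add, ha' γ hγ, hb' γ hγ]⟩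
      zero_mem' := ⟨Submodule.zero_mem _, fun γ _ => map_zero _⟩
      smul_mem' := by
        rintro c a ⟨ha, ha'⟩
        exact ⟨Submodule.smul_mem _ _ ha, fun γ hγ => by rw [map_smul, ha' γ hγ]⟩ }
  have hU : ∀ t, t ∈ U ↔ t ∈ T.Ev n ∧ ∀ γ ∈ Gam T.d T.E, tpow γ n t = t := fun t => Iff.rfl
  have hUs : Stab (Op (T.ρn n) ⊤) U := by
    rw [stab_op]
    intro g hg w hw
    rw [hU] at hw ⊢
    refine ⟨(stab_op.1 (TRep.ev_stab n)) g hg w hw.1, fun γ hγ => ?_⟩
    obtain ⟨γ', hγ', h1⟩ := TRep.gam_conj g hγ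
    rw [TRep.ρn_apply, ← tpow_mul, h1, tpow_mul, hw.2 γ' hγ']
  have hssU : SSon (Op (T.ρn n) ⊤) U := hss.mono (fun t ht => ht.1) hUs
  obtain ⟨u, φ, hu, hφ, hφu⟩ := exists_dual U
  have key : ∀ (g : GG R L) (j : ℕ), ∑ i, φ i (T.ρn n (g ^ ((2 * b ^ n).factorial * j)) (u i)) =
      finrank L U := by
    intro g₀ j
    set m := (2 * b ^ n).factorial * j with hm
    -- the function on the group
    let F : Γ → L := fun g => ∑ i, ∑ I, ∑ J, (φ i (Pi.single I 1) * u i J) *
      algebraMap K L (cE R I J (g ^ m))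
    have hF : ∀ x : GG R L, ∑ i, φ i (T.ρn n (x ^ m) (u i)) = F x.1.1 := by
      intro x
      refine Finset.sum_congr rfl fun i _ => ?_
      have h1 : T.ρn n (x ^ m) (u i) = ∑ I, (T.ρn n (x ^ m) (u i) I) •
          (Pi.single I 1 : (Fin n → ι) → L) := (TSys.sum_single _).symm
      rw [h1, map_sum]
      refine Finset.sum_congr rfl fun I _ => ?_
      have h2 : T.ρn n (x ^ m) (u i) I =
          ∑ J, algebraMap K L (cE R I J ((x ^ m : GG R L).1.1)) * u i J :=
        tpow_rr hM (hu i).1 (x ^ m) I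
      rw [map_smul, h2, smul_eq_mul, Finset.sum_mul]
      refine Finset.sum_congr rfl fun J _ => ?_
      have h3 : (x ^ m : GG R L).1.1 = x.1.1 ^ m := rfl
      rw [h3]
      ring
    have hcont : ∀ I J : Fin n → ι, Continuous fun g => cE R I J (g ^ m) := by
      intro I J
      have h1 : Continuous fun g : Γ => cE R I J g := by
        unfold cE
        split_ifs
        · refine Continuous.mul ?_ (continuous_finsetProd _ fun k _ => hA _ _)
          exact (hχ.inv₀ fun g => (R.χ g).ne_zero).pow _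
        · exact continuous_const
      exact h1.comp (continuous_pow m)
    have hgood : Good (K := K) F := by
      refine good_sum _ fun i => good_sum _ fun I => good_sum _ fun J => ?_
      exact good_mul (hcont I J) _
    have hcl := good_const hgood (finrank L U : L)
    have hsub : {g | R.IsWeil b g} ⊆ {g | F g = (finrank L U : L)} := by
      intro g hg
      obtain ⟨x, hx⟩ := exists_GG (R := R) (L := L) g
      change F g = _
      rw [← hx, ← hF]
      refine trace_sub (T.ρn n) hUs hu hφ hφu x (fun ν v hv hv0 hν => ?_) j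
      exact eigen_pow hM (by rw [hx]; exact hg) hv.1 hv.2 hv0 hν
    have hall : ∀ g, F g = (finrank L U : L) := by
      intro g
      have h1 := hcl.closure_subset_iff.2 hsub
      rw [hW.closure_eq] at h1
      exact h1 (Set.mem_univ g)
    rw [hF]
    exact hall _
  obtain ⟨Δ, hΔ, hfix⟩ := exists_index (T.ρn n) hUs hssU hu hφ hφu
    (Nat.factorial_pos _) key
  intro t ht htG
  exact ⟨ht, Δ, hΔ, fun g hg => hfix g hg t ⟨ht, htG⟩⟩

end Pool.Agent.Q60.TD
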