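import Pool.Agent.Q60.TD.KTen

/-!
# The closed system of tensors of a system of classes
-/

open CategoryTheory AlgebraicGeometry TensorProduct

set_option linter.unusedSectionVars false

universe u v

namespace Pool.Agent.Q60.TD

open Module Matrix
open Pool.Agent.H914 Pool.Agent.H914.VarClass Pool.Agent.H914.VarClass.Obj
  Pool.Agent.H914.WeilCohomology
open Pool.Agent.Y133.Half Pool.Agent.Y121.AH Pool.Agent.Q60.ED
open Pool.Agent.Q60.HD (wd wd_zero wd_succ wd_map wd_prj wd_append wd_PH wb_PH sum_append' par_op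
  two_inv par_prod par_pw sg sg_mem sg_xp wb_xp)

section lin

variable {K : Type} [Field K] {ι : Type} [Fintype ι] [DecidableEq ι]

lemma bf_tmulK (Q : Matrix ι ι K) {m n : ℕ} (s : (Fin m → ι) → K) (t : (Fin n → ι) → K)
    (w : (Fin (m + n) → ι) → K) : bf (TP Q (m + n)) (tmul s t) w =
      bf (TP Q n) t fun J => ∑ I, ∑ I', s I * TP Q m I I' * w (Fin.append I' J) := by
  simp only [bf, sum_append, Finset.mul_sum]
  rw [Finset.sum_comm]
  refine Finset.sum_congr rfl fun J _ => ?_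
  have h1 : ∀ (x : Fin m → ι), ∑ x_1 : Fin m → ι, ∑ x_2 : Fin n → ι,
      tmul s t (Fin.append x J) * TP Q (m + n) (Fin.append x J) (Fin.append x_1 x_2) *
        w (Fin.append x_1 x_2) = ∑ x_2 : Fin n → ι, ∑ x_1 : Fin m → ι,
      t J * TP Q n J x_2 * (s x * TP Q m x x_1 * w (Fin.append x_1 x_2)) := by
    intro x
    rw [Finset.sum_comm]
    refine Finset.sum_congr rfl fun J' _ => Finset.sum_congr rfl fun I' _ => ?_
    rw [TP_apply, TP_apply, TP_apply, Fin.prod_univ_add, ED.tmul]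
    simp only [Fin.append_left, Fin.append_right]
    ring
  simp only [h1]
  rw [Finset.sum_comm]

lemma bf_permK (Q : Matrix ι ι K) {n : ℕ} (σ : Equiv.Perm (Fin n)) (s t : (Fin n → ι) → K) :
    bf (TP Q n) (fun J => s (J ∘ σ)) t = bf (TP Q n) s fun J => t (J ∘ σ.symm) := by
  let e : (Fin n → ι) ≃ (Fin n → ι) := Equiv.arrowCongr σ (Equiv.refl ι)
  have he : ∀ J, e J = J ∘ σ.symm := fun J => rfl
  simp only [bf]
  rw [← Equiv.sum_comp e]
  refine Finset.sum_congr rfl fun I _ => ?_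
  rw [← Equiv.sum_comp e]
  refine Finset.sum_congr rfl fun J _ => ?_
  have h1 : e I ∘ σ = I := by
    rw [he]; funext k; simp
  have h2 : TP Q n (e I) (e J) = TP Q n I J := by
    rw [TP_apply, TP_apply, he, he]
    exact Equiv.prod_comp σ.symm fun k => Q (I k) (J k)
  rw [h1, h2, he]

/-- A closed system of tensors on which the form is nondegenerate has projections. -/
theorem exists_tsysK (Q : Matrix ι ι K) (S : ∀ n : ℕ, Submodule K ((Fin n → ι) → K))
    (one : (fun _ => 1) ∈ S 0)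
    (mul : ∀ {m n : ℕ} {s : (Fin m → ι) → K} {t : (Fin n → ι) → K}, s ∈ S m → t ∈ S n →
      tmul s t ∈ S (m + n))
    (perm : ∀ {n : ℕ} (σ : Equiv.Perm (Fin n)) {t : (Fin n → ι) → K}, t ∈ S n →
      (fun J => t (J ∘ σ)) ∈ S n)
    (contr : ∀ {m n : ℕ} {s : (Fin m → ι) → K} {t : (Fin (m + n) → ι) → K}, s ∈ S m →
      t ∈ S (m + n) → (fun J => ∑ I, ∑ I', s I * TP Q m I I' * t (Fin.append I' J)) ∈ S n)
    (hnd : ∀ n, ∀ v ∈ S n, (∀ w ∈ S n, bf (TP Q n) v w = 0) → v = 0) :
    ∃ T : TSys K ι, T.S = S := by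
  choose p h1 h2 h3 using fun n => exists_orth (TP Q n) (S n) (hnd n)
  have huniq : ∀ n v x, x ∈ S n → (∀ w ∈ S n, bf (TP Q n) x w = bf (TP Q n) v w) →
      p n v = x := by
    intro n v x hx h
    rw [← sub_eq_zero]
    apply hnd n _ (Submodule.sub_mem _ (h1 n v) hx)
    intro w hw
    rw [bf_sub_left, h3 n v w hw, h w hw, sub_self]
  refine ⟨⟨S, p, h1, h2, ?_, ?_, one⟩, rfl⟩
  · intro n σ t I
    refine congrFun (huniq n _ (fun I => p n t (I ∘ σ)) (perm σ (h1 n t)) fun w hw => ?_) I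
    rw [bf_permK, bf_permK, h3 n t _ (perm σ.symm hw)]
  · intro m n s t hs
    refine huniq _ _ _ (mul hs (h1 n t)) fun w hw => ?_
    rw [bf_tmulK, bf_tmulK, h3 n t _ (contr hs hw)]

end lin

variable {k : Type u} [Field k] {𝒱 : VarClass k} {ops : CycleOps 𝒱}
  {W : WeilCohomology.{u, 0} ops} {X Y Z : 𝒱.Obj} {ι : Type} [Fintype ι] [DecidableEq ι]
  (e : Basis ι W.K (W.H X)) {a : ι → ℕ}

/-- The matrix of the trace form. -/
noncomputable def QW : Matrix ι ι W.K := Matrix.of fun i j => W.tr X (e i * e j)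

lemma QW_apply (i j : ι) : QW e i j = W.tr X (e i * e j) := rfl

/-- The tensor of a class on a power. -/
noncomputable def tn (n : ℕ) (c : W.H (pw X n)) : (Fin (n + 1) → ι) → W.K :=
  (wb e n).equivFun c

lemma clsK_tn (n : ℕ) (c : W.H (pw X n)) : clsK e (prj X n) (tn e n c) = c := by
  rw [clsK_prj, tn, LinearEquiv.symm_apply_apply]

lemma clsK_inj (n : ℕ) {s t : (Fin (n + 1) → ι) → W.K}
    (h : clsK e (prj X n) s = clsK e (prj X n) t) : s = t := by
  rw [clsK_prj, clsK_prj] at h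
  exact (wb e n).equivFun.symm.injective h

lemma tn_cls (n : ℕ) (t : (Fin (n + 1) → ι) → W.K) : tn e n (clsK e (prj X n) t) = t :=
  clsK_inj e n (clsK_tn e n _)

lemma sum_fin2 {M : Type*} [AddCommMonoid M] (F : (Fin 2 → ι) → M) :
    ∑ w, F w = ∑ i, ∑ j, F ![i, j] := by
  rw [← (finTwoArrowEquiv ι).symm.sum_comp, Fintype.sum_prod_type]
  rfl

/-- The correspondence of a class on the square. -/
noncomputable def cor1 (W : WeilCohomology.{u, 0} ops) (X : 𝒱.Obj) :
    W.H (pw X 1) →ₗ[W.K] (W.H X →ₗ[W.K] W.H X) := corrL W X X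

lemma cor1_wb (he : ∀ j, e j ∈ PH W X (a j)) (w : Fin 2 → ι) (kk : ι) :
    cor1 W X (wb e 1 w) (e kk) =
      ((-1 : W.K) ^ (a (w 1) * a kk) * W.tr X (e (w 0) * e kk)) • e (w 1) := by
  rw [wb_xp, wb_zero]
  exact corr_xp (W := W) (X := X) (Y := X) (e (w 0)) (he (w 1)) (he kk)

/-- The class of the diagonal. -/
noncomputable def dl (W : WeilCohomology.{u, 0} ops) (X : 𝒱.Obj) : W.H (pw X 1) :=
  W.push (diag X) (1 : W.H X)

lemma dl_mem (S : Sys W) : dl W X ∈ S.C (pw X 1) := Sys.diag_mem (S := S) (X := X)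

lemma cor1_dl (x : W.H X) : cor1 W X (dl W X) x = x := by
  have h := Sys.corr_diag_one (W := W) (X := X)
  exact congrArg (fun G : W.H X →ₗ[W.K] W.H X => G x) h

lemma diag_mul {S : Sys W} (he : ∀ j, e j ∈ PH W X (a j)) : ∃ Ω ∈ crdK e S 2,
    (QW e).transpose * mat2 Ω = diagonal fun i => (-1 : W.K) ^ (a i * a i) := by
  refine ⟨tn e 1 (dl W X), ?_, ?_⟩
  · rw [mem_crdK_succ, clsK_tn]
    exact dl_mem S
  · set Ω := tn e 1 (dl W X) with hΩ
    have h0 : clsK e (prj X 1) Ω = dl W X := clsK_tn e 1 _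
    have h1 : ∀ kk, ∑ i, ∑ j, Ω ![i, j] • (((-1 : W.K) ^ (a j * a kk) * W.tr X (e i * e kk)) •
        e j) = e kk := by
      intro kk
      have e1 : cor1 W X (clsK e (prj X 1) Ω) (e kk) = e kk := by
        rw [h0, cor1_dl]
      rw [clsK, map_sum, LinearMap.sum_apply, sum_fin2] at e1
      conv_rhs => rw [← e1]
      refine Finset.sum_congr rfl fun i _ => Finset.sum_congr rfl fun j _ => ?_
      rw [map_smul, LinearMap.smul_apply, wd_prj, cor1_wb e he]
      rfl
    ext kk j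
    have h2 := congrArg (fun x => e.repr x j) (h1 kk)
    simp only [map_sum, map_smul, Finsupp.coe_finsetSum, Finset.sum_apply, Finsupp.smul_apply,
      Basis.repr_self, smul_eq_mul] at h2
    have h3 : ∀ i, ∑ j', Ω ![i, j'] * ((-1 : W.K) ^ (a j' * a kk) * W.tr X (e i * e kk) *
        (Finsupp.single j' (1 : W.K)) j) =
        Ω ![i, j] * ((-1 : W.K) ^ (a j * a kk) * W.tr X (e i * e kk)) := by
      intro i
      rw [Finset.sum_eq_single j]
      · rw [Finsupp.single_eq_same, mul_one]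
      · intro j' _ hj
        rw [Finsupp.single_eq_of_ne (Ne.symm hj), mul_zero, mul_zero]
      · intro h; exact absurd (Finset.mem_univ _) h
    simp only [h3] at h2
    have h4 : ((QW e).transpose * mat2 Ω) kk j * (-1 : W.K) ^ (a j * a kk) =
        (Finsupp.single kk (1 : W.K)) j := by
      rw [← h2, Matrix.mul_apply, Finset.sum_mul]
      refine Finset.sum_congr rfl fun i _ => ?_
      rw [Matrix.transpose_apply, QW_apply, mat2, Matrix.of_apply]
      ring
    have h5 : (-1 : W.K) ^ (a j * a kk) * (-1 : W.K) ^ (a j * a kk) = 1 := by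
      rw [← pow_add, ← two_mul, pow_mul, neg_one_sq, one_pow]
    have h6 : ((QW e).transpose * mat2 Ω) kk j =
        (Finsupp.single kk (1 : W.K)) j * (-1 : W.K) ^ (a j * a kk) := by
      rw [← h4, mul_assoc, h5, mul_one]
    rw [h6]
    by_cases h : kk = j
    · subst h
      rw [Finsupp.single_eq_same, one_mul, diagonal_apply_eq]
    · rw [Finsupp.single_eq_of_ne (Ne.symm h), zero_mul, diagonal_apply_ne _ h]

lemma det_diag (a : ι → ℕ) :
    (diagonal fun i => (-1 : W.K) ^ (a i * a i)).det ≠ 0 := by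
  rw [det_diagonal]
  exact Finset.prod_ne_zero_iff.2 fun i _ => pow_ne_zero _ (neg_ne_zero.2 one_ne_zero)

lemma exists_om (S : Sys W) (he : ∀ j, e j ∈ PH W X (a j)) :
    ∃ Ω ∈ crdK e S 2, (mat2 Ω).det ≠ 0 := by
  obtain ⟨Ω, h1, h2⟩ := diag_mul (S := S) e he
  refine ⟨Ω, h1, fun h => ?_⟩
  have h3 := congrArg Matrix.det h2
  rw [det_mul, h, mul_zero] at h3
  exact det_diag (W := W) a h3.symm

lemma QW_det (S : Sys W) (he : ∀ j, e j ∈ PH W X (a j)) : (QW e).det ≠ 0 := by
  obtain ⟨Ω, h1, h2⟩ := diag_mul (S := S) e he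
  intro h
  have h3 := congrArg Matrix.det h2
  rw [det_mul, det_transpose, h, zero_mul] at h3
  exact det_diag (W := W) a h3.symm

lemma bf_cls {n : ℕ} {Ψ : Module.End W.K (W.H (pw X n))} (h : ∀ I J : Fin (n + 1) → ι,
      W.tr (pw X n) (Ψ (wb e n I) * wb e n J) = TP (QW e) (n + 1) I J)
    (v w : (Fin (n + 1) → ι) → W.K) : bf (TP (QW e) (n + 1)) v w =
      W.tr (pw X n) (Ψ (clsK e (prj X n) v) * clsK e (prj X n) w) := by
  rw [bf, clsK, clsK, map_sum, Finset.sum_mul_sum, map_sum]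
  refine Finset.sum_congr rfl fun I _ => ?_
  rw [map_sum]
  refine Finset.sum_congr rfl fun J _ => ?_
  rw [map_smul, smul_mul_smul_comm, map_smul, wd_prj, wd_prj, h, smul_eq_mul]
  ring

/-- The form is nondegenerate on the tensors of a system without numerically trivial classes. -/
lemma crdK_nd {S : Sys W} (he : ∀ j, e j ∈ PH W X (a j))
    (hpar : par (W.isInternal X) ∈ S.Op X X) (hnum : ∀ n, S.Num (pw X n) = ⊥) (n : ℕ) :
    ∀ v ∈ crdK e S n, (∀ w ∈ crdK e S n, bf (TP (QW e) n) v w = 0) → v = 0 := by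
  intro v hv h
  cases n with
  | zero =>
    have h1 := h (fun _ => 1) (mem_crdK_zero e _)
    rw [bf, Fintype.sum_unique, Fintype.sum_unique, TP_apply, Finset.univ_eq_empty,
      Finset.prod_empty, mul_one, mul_one] at h1
    funext I
    rw [Pi.zero_apply, ← h1]
    exact congrArg v (Subsingleton.elim _ _)
  | succ n =>
    obtain ⟨Ψ, hΨ, hb⟩ := exists_psiK e he hpar (Q := QW e) (fun i j => rfl) n
    have h1 : Ψ (clsK e (prj X n) v) ∈ S.Num (pw X n) := by
      refine ⟨Sys.Op.apply (T := S) (fun _ => le_rfl) hΨ (mem_crdK_succ (e := e).1 hv), ?_⟩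
      intro c hc
      have h2 := h (tn e n c) ((mem_crdK_succ (e := e)).2 (by rw [clsK_tn]; exact hc))
      rw [bf_cls e hb, clsK_tn] at h2
      exact h2
    rw [hnum, Submodule.mem_bot] at h1
    have h3 : ∀ w, bf (TP (QW e) (n + 1)) v w = 0 := by
      intro w
      rw [bf_cls e hb, h1, zero_mul, map_zero]
    have h4 : Matrix.vecMul v (TP (QW e) (n + 1)) = 0 := by
      funext J
      have h5 := h3 (Pi.single J 1)
      rw [bf] at h5
      rw [Matrix.vecMul, dotProduct, Pi.zero_apply, ← h5]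
      refine Finset.sum_congr rfl fun I _ => ?_
      rw [Finset.sum_eq_single J]
      · rw [Pi.single_eq_same, mul_one]
      · intro J' _ hJ
        rw [Pi.single_eq_of_ne hJ, mul_zero]
      · intro h; exact absurd (Finset.mem_univ _) h
    have h6 := congrArg (fun u => Matrix.vecMul u (TP (QW e)⁻¹ (n + 1))) h4
    simp only [Matrix.vecMul_vecMul, (TP_det (QW_det e S he) (n + 1)).1, Matrix.vecMul_one,
      Matrix.zero_vecMul] at h6
    exact h6

/-- The closed system of tensors. -/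
theorem exists_sysK {S : Sys W} (he : ∀ j, e j ∈ PH W X (a j))
    (hpar : par (W.isInternal X) ∈ S.Op X X) (hnum : ∀ n, S.Num (pw X n) = ⊥) :
    ∃ T : TSys W.K ι, T.S = crdK e S :=
  exists_tsysK (QW e) (crdK e S) (mem_crdK_zero e _) (fun hs ht => crdK_mul e hs ht)
    (fun σ _ ht => crdK_perm e he hpar σ ht)
    (fun hs ht => crdK_contr e he hpar (fun _ _ => rfl) hs ht) (crdK_nd e he hpar hnum)

end Pool.Agent.Q60.TD
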