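import Pool.Agent.Q55.Galois
import Pool.Agent.Q60.TD.KSys
import Pool.Agent.Q60.TD.MainK

/-!
# Galois actions on tensors
-/

open CategoryTheory AlgebraicGeometry TensorProduct

set_option linter.unusedSectionVars false

universe u v w

namespace Pool.Agent.Q60.TD

open Module Matrix
open Pool.Agent.H914 Pool.Agent.H914.VarClass Pool.Agent.H914.VarClass.Obj
  Pool.Agent.H914.WeilCohomology
open Pool.Agent.Y133.Half Pool.Agent.Y121.AH Pool.Agent.Q60.ED Pool.Agent.Q55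
open Pool.Agent.Q60.HD (wd wd_zero wd_succ wd_map wd_prj wd_append wd_PH wb_PH sum_append' par_op
  two_inv par_prod par_pw sg sg_mem sg_xp wb_xp)

variable {k : Type u} [Field k] {𝒱 : VarClass k} {ops : CycleOps 𝒱}
  {W : WeilCohomology.{u, 0} ops} {X Y Z : 𝒱.Obj} {ι : Type} [Fintype ι] [DecidableEq ι]
  {Γ : Type w} [Group Γ] (G : GaloisAction W Γ)

lemma act_one : (G.ρ X).act 1 = 1 := by
  have h := (G.ρ X).act_mul 1 (one_mem _) 1 (one_mem _)
  rw [mul_one] at h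
  exact mul_left_cancel (h.symm.trans (mul_one _).symm)

/-- The representation on the cohomology. -/
noncomputable def rep (X : 𝒱.Obj) : (G.ρ X).dom →* Module.End W.K (W.H X) where
  toFun g := ((G.ρ X).act g).toLinearMap
  map_one' := by
    rw [OneMemClass.coe_one, act_one]
    rfl
  map_mul' g h := by
    rw [Subgroup.coe_mul, (G.ρ X).act_mul g g.2 h h.2]
    rfl

lemma rep_apply (g : (G.ρ X).dom) (x : W.H X) : rep G X g x = (G.ρ X).act g x := rfl

variable (e : Basis ι W.K (W.H X))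

/-- The matrices of the representation. -/
noncomputable def Am : (G.ρ X).dom →* Matrix ι ι W.K :=
  ((LinearMap.toMatrixAlgEquiv e : Module.End W.K (W.H X) ≃ₐ[W.K] Matrix ι ι W.K) :
    Module.End W.K (W.H X) →* Matrix ι ι W.K).comp (rep G X)

lemma Am_apply (g : (G.ρ X).dom) (i j : ι) : Am G e g i j = e.repr ((G.ρ X).act g (e j)) i :=
  LinearMap.toMatrixAlgEquiv_apply e (rep G X g) i j

lemma act_e (g : (G.ρ X).dom) (j : ι) : (G.ρ X).act g (e j) = ∑ i, Am G e g i j • e i := by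
  conv_lhs => rw [← e.sum_repr ((G.ρ X).act g (e j))]
  exact Finset.sum_congr rfl fun i _ => by rw [Am_apply]

/-- The action on products of pull-backs of basis elements. -/
lemma act_wd {g : Γ} (hX : g ∈ (G.ρ X).dom) (hZ : g ∈ (G.ρ Z).dom) {n : ℕ} (f : Fin n → (Z ⟶ X))
    (hf : ∀ i, (G.ρ Z).Commutes (G.ρ X) (W.map (f i)) g) (w : Fin n → ι) :
    (G.ρ Z).act g (wd e f w) = ∑ J : Fin n → ι, (∏ i, Am G e ⟨g, hX⟩ (J i) (w i)) • wd e f J := by
  induction n with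
  | zero =>
    rw [wd_zero, map_one, Fintype.sum_unique, wd_zero, Finset.univ_eq_empty, Finset.prod_empty,
      one_smul]
  | succ n ih =>
    rw [wd_succ, map_mul, ih _ fun i => hf i.succ, ← hf 0 hZ hX, act_e G e ⟨g, hX⟩, map_sum,
      Finset.sum_mul_sum, ← Fintype.sum_prod_type', ← (Fin.consEquiv fun _ => ι).sum_comp]
    refine Finset.sum_congr rfl fun p _ => ?_
    rw [map_smul, smul_mul_smul_comm]
    have h1 : wd e f ((Fin.consEquiv fun _ => ι) p) =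
        W.map (f 0) (e p.1) * wd e (fun i => f i.succ) p.2 := by
      rw [wd_succ]
      rfl
    rw [h1]
    congr 1
    rw [Fin.prod_univ_succ]
    rfl

lemma act_cls {g : Γ} (hX : g ∈ (G.ρ X).dom) (hZ : g ∈ (G.ρ Z).dom) {n : ℕ} (f : Fin n → (Z ⟶ X))
    (hf : ∀ i, (G.ρ Z).Commutes (G.ρ X) (W.map (f i)) g) (t : (Fin n → ι) → W.K) :
    (G.ρ Z).act g (clsK e f t) = clsK e f (tpow (Am G e ⟨g, hX⟩) n t) := by
  rw [clsK, map_sum]
  simp only [map_smul, act_wd G e hX hZ f hf, Finset.smul_sum, smul_smul]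
  rw [Finset.sum_comm, clsK]
  refine Finset.sum_congr rfl fun J _ => ?_
  rw [tpow_apply, Finset.sum_smul]
  exact Finset.sum_congr rfl fun w _ => by rw [mul_comm]

/-- The subgroup which acts on a power compatibly with the projections. -/
lemma exists_good (X : 𝒱.Obj) (n : ℕ) : ∃ Δ : Subgroup Γ, Δ.FiniteIndex ∧ ∀ g ∈ Δ,
    g ∈ (G.ρ X).dom ∧ g ∈ (G.ρ (pw X n)).dom ∧
      ∀ i, (G.ρ (pw X n)).Commutes (G.ρ X) (W.map (prj X n i)) g := by
  choose D hD h using fun i => G.map_act (prj X n i)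
  have h1 := (G.isGalois X).finiteIndex
  have h2 := (G.isGalois (pw X n)).finiteIndex
  have h3 : (⨅ i, D i).FiniteIndex := Subgroup.finiteIndex_iInf hD
  refine ⟨(G.ρ X).dom ⊓ (G.ρ (pw X n)).dom ⊓ ⨅ i, D i, inferInstance, ?_⟩
  rintro g ⟨⟨hg1, hg2⟩, hg3⟩
  refine ⟨hg1, hg2, fun i => h i g ?_⟩
  exact (Subgroup.mem_iInf.1 hg3) i

lemma act_cls' {Δ : Subgroup Γ} {n : ℕ} (hΔ : ∀ g ∈ Δ, g ∈ (G.ρ X).dom ∧ g ∈ (G.ρ (pw X n)).dom ∧
      ∀ i, (G.ρ (pw X n)).Commutes (G.ρ X) (W.map (prj X n i)) g) {g : Γ} (hg : g ∈ Δ)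
    (t : (Fin (n + 1) → ι) → W.K) : (G.ρ (pw X n)).act g (clsK e (prj X n) t) =
      clsK e (prj X n) (tpow (Am G e ⟨g, (hΔ g hg).1⟩) (n + 1) t) :=
  act_cls G e (hΔ g hg).1 (hΔ g hg).2.1 _ (hΔ g hg).2.2 t

end Pool.Agent.Q60.TD
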