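import Pool.Agent.Q60.TD.GAct

/-!
# The tensors and the cohomology of the powers: Tate classes and semisimplicity
-/

open CategoryTheory AlgebraicGeometry TensorProduct

set_option linter.unusedSectionVars false

universe u v w

namespace Pool.Agent.Q60.TD

open Module Matrix
open Pool.Agent.H914 Pool.Agent.H914.VarClass Pool.Agent.H914.VarClass.Obj
  Pool.Agent.H914.WeilCohomology
open Pool.Agent.Y133.Half Pool.Agent.Y121.AH Pool.Agent.Q60.ED Pool.Agent.Q55
open Pool.Agent.Q60.HD (wd wd_zero wd_succ wd_map wd_prj wd_append wd_PH wb_PH sum_append' par_op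
  two_inv par_prod par_pw sg sg_mem sg_xp wb_xp)

variable {k : Type u} [Field k] {𝒱 : VarClass k} {ops : CycleOps 𝒱}
  {W : WeilCohomology.{u, 0} ops} {X Y Z : 𝒱.Obj} {ι : Type} [Fintype ι] [DecidableEq ι]
  {Γ : Type w} [Group Γ] (G : GaloisAction W Γ)

/-- The coordinates of a homogeneous class in a homogeneous basis. -/
lemma repr_gr {κ : Type*} (f : Basis κ W.K (W.H Y)) {d : κ → ℕ}
    (hf : ∀ j, f j ∈ W.gr Y (d j)) {c : W.H Y} {w : ℕ} (hc : c ∈ W.gr Y w) {j : κ}
    (hj : d j ≠ w) : f.repr c j = 0 := by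
  classical
  have h2 : f.coord j ∘ₗ H914.proj (W.isInternal Y) w = 0 := by
    apply f.ext
    intro i
    rw [LinearMap.comp_apply, LinearMap.zero_apply]
    by_cases h : d i = w
    · have h3 : f i ∈ W.gr Y w := h ▸ hf i
      rw [proj_same _ h3, Basis.coord_apply, Basis.repr_self, Finsupp.single_eq_of_ne]
      rintro rfl
      exact hj h
    · rw [proj_ne _ (hf i) h, map_zero]
  have h3 := LinearMap.congr_fun h2 c
  rw [LinearMap.comp_apply, proj_same _ hc] at h3
  exact h3

variable (e : Basis ι W.K (W.H X)) {a : ι → ℕ}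

lemma wd_gr (he : ∀ j, e j ∈ W.gr X (a j)) {n : ℕ} (f : Fin n → (Z ⟶ X)) (w : Fin n → ι) :
    wd e f w ∈ W.gr Z (∑ i, a (w i)) := by
  induction n with
  | zero =>
    rw [wd_zero, Finset.univ_eq_empty, Finset.sum_empty]
    exact W.one_mem Z
  | succ n ih =>
    rw [wd_succ, Fin.sum_univ_succ]
    exact W.mul_mem (W.map_mem _ (he _)) (ih _ _)

lemma wb_gr (he : ∀ j, e j ∈ W.gr X (a j)) (n : ℕ) (w : Fin (n + 1) → ι) :
    wb e n w ∈ W.gr (pw X n) (∑ i, a (w i)) := by
  rw [← wd_prj]
  exact wd_gr e he _ _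

/-- The graded representation by matrices. -/
noncomputable def toM (he : ∀ j, e j ∈ W.gr X (a j)) : MRep W.K ι (G.ρ X).dom where
  A := Am G e
  χ := G.χ.comp (G.ρ X).dom.subtype
  a := a
  M := 2 * X.dim
  le j := by
    by_contra h
    push Not at h
    have h1 := he j
    rw [W.gr_eq_bot X _ h, Submodule.mem_bot] at h1
    exact e.ne_zero j h1
  hom g i j h := by
    rw [Am_apply]
    exact repr_gr e he ((G.isGalois X).gr_mem g g.2 (a j) _ (he j)) h

variable {e} (he : ∀ j, e j ∈ W.gr X (a j))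

lemma cls_gr_iff {n w : ℕ} {t : (Fin (n + 1) → ι) → W.K} :
    t ∈ grw (toM G e he) W.K (n + 1) w ↔ clsK e (prj X n) t ∈ W.gr (pw X n) w := by
  constructor
  · intro h
    rw [clsK]
    refine Submodule.sum_mem _ fun I _ => ?_
    by_cases hI : ∑ i, a (I i) = w
    · refine Submodule.smul_mem _ _ ?_
      rw [← hI]
      exact wd_gr e he _ _
    · rw [h I hI, zero_smul]
      exact Submodule.zero_mem _
  · intro h I hI
    have h1 := repr_gr (wb e n) (wb_gr e he n) h hI.symm.symm
    have h2 := tn_cls e n t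
    rw [← h2]
    exact h1

lemma tn_gr {n w : ℕ} {c : W.H (pw X n)} (hc : c ∈ W.gr (pw X n) w) :
    tn e n c ∈ grw (toM G e he) W.K (n + 1) w := by
  rw [cls_gr_iff, clsK_tn]
  exact hc

lemma cE_sum {n : ℕ} {t : (Fin n → ι) → W.K} {j : ℕ}
    (ht : t ∈ grw (toM G e he) W.K n (2 * j)) (g : (G.ρ X).dom) (I : Fin n → ι) :
    ∑ J, cE (toM G e he) I J g * t J = ((G.χ g : W.K)⁻¹) ^ j * tpow (Am G e g) n t I := by
  by_cases h : ∑ i, a (I i) = 2 * j
  · have h1 : ∀ J, cE (toM G e he) I J g = ((G.χ g : W.K)⁻¹) ^ j * ∏ k, Am G e g (I k) (J k) := by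
      intro J
      rw [cE, if_pos (by rw [show (toM G e he).a = a from rfl, h]; exact even_two_mul j)]
      congr 2
      change (∑ k, a (I k)) / 2 = j
      rw [h]
      omega
    simp only [h1, mul_assoc]
    rw [← Finset.mul_sum, tpow_apply]
  · have h2 : tpow (Am G e g) n t ∈ grw (toM G e he) W.K n (2 * j) :=
      (stab_MO.1 (grw_stabK (R := toM G e he) n (2 * j))) _ ⟨g, rfl⟩ t ht
    rw [h2 I h, mul_zero]
    refine Finset.sum_eq_zero fun J _ => ?_
    by_cases hJ : ∑ i, a (J i) = 2 * j
    · have h3 : ∏ k, Am G e g (I k) (J k) = 0 := by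
        have h4 : ∃ k, a (I k) ≠ a (J k) := by
          by_contra hcon
          push Not at hcon
          apply h
          simpa only [hcon] using hJ
        obtain ⟨k, hk⟩ := h4
        exact Finset.prod_eq_zero (Finset.mem_univ k) ((toM G e he).hom g _ _ hk)
      rw [cE]
      split_ifs
      · change ((G.χ g : W.K)⁻¹) ^ _ * (∏ k, Am G e g (I k) (J k)) * t J = 0
        rw [h3, mul_zero, zero_mul]
      · rw [zero_mul]
    · rw [ht J hJ, mul_zero]

/-- The tensor of a Tate class is virtually invariant. -/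
lemma tn_mem_TK {n j : ℕ} {c : W.H (pw X n)} (hc : IsTate G (pw X n) j c) :
    tn e n c ∈ TK (toM G e he) (n + 1) := by
  obtain ⟨hgr, Δ, hΔ, h⟩ := hc
  obtain ⟨Δ', hΔ', h'⟩ := exists_good G X n
  refine ⟨(Δ ⊓ Δ').subgroupOf (G.ρ X).dom, inferInstance, ?_⟩
  rintro g hg I
  have hg' : (g : Γ) ∈ Δ ⊓ Δ' := hg
  have ht := tn_gr G he hgr
  rw [cE_sum G he ht]
  have h1 := act_cls' G e h' hg'.2 (tn e n c)
  rw [clsK_tn, h g hg'.1 (h' g hg'.2).2.1] at h1
  have h2 : clsK e (prj X n) ((G.χ g : W.K) ^ j • tn e n c) =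
      clsK e (prj X n) (tpow (Am G e g) (n + 1) (tn e n c)) := by
    rw [clsK_smul, clsK_tn]
    exact h1
  have h3 := clsK_inj e n h2
  rw [← h3, Pi.smul_apply, smul_eq_mul, ← mul_assoc, ← mul_pow, inv_mul_cancel₀ (Units.ne_zero _),
    one_pow, one_mul]

/-- The tensors of weight `w` in the virtually invariant tensors. -/
lemma cmp_TK {n w : ℕ} {t : (Fin n → ι) → W.K} (ht : t ∈ TK (toM G e he) n) :
    (fun I => if ∑ i, a (I i) = w then t I else 0) ∈ TK (toM G e he) n := by
  obtain ⟨Δ, hΔ, h⟩ := ht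
  refine ⟨Δ, hΔ, fun g hg I => ?_⟩
  dsimp only
  by_cases hI : ∑ i, a (I i) = w
  · rw [if_pos hI, ← h g hg I]
    refine Finset.sum_congr rfl fun J _ => ?_
    by_cases hJ : ∑ i, a (J i) = w
    · rw [if_pos hJ]
    · rw [if_neg hJ, mul_zero]
      have h4 : ∃ k, a (I k) ≠ a (J k) := by
        by_contra hcon
        push Not at hcon
        apply hJ
        simpa only [hcon] using hI
      obtain ⟨k, hk⟩ := h4
      rw [cE]
      split_ifs
      · rw [Finset.prod_eq_zero (Finset.mem_univ k) ((toM G e he).hom g _ _ hk), mul_zero,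
          zero_mul]
      · rw [zero_mul]
  · rw [if_neg hI]
    refine Finset.sum_eq_zero fun J _ => ?_
    by_cases hJ : ∑ i, a (J i) = w
    · have h4 : ∃ k, a (I k) ≠ a (J k) := by
        by_contra hcon
        push Not at hcon
        apply hI
        simpa only [hcon] using hJ
      obtain ⟨k, hk⟩ := h4
      rw [cE]
      split_ifs
      · rw [Finset.prod_eq_zero (Finset.mem_univ k) ((toM G e he).hom g _ _ hk), mul_zero,
          zero_mul]
      · rw [zero_mul]
    · rw [if_neg hJ, mul_zero]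

/-- A homogeneous virtually invariant tensor gives a Tate class. -/
lemma tate_of_TK {n j : ℕ} {t : (Fin (n + 1) → ι) → W.K}
    (hw : t ∈ grw (toM G e he) W.K (n + 1) (2 * j)) (ht : t ∈ TK (toM G e he) (n + 1)) :
    IsTate G (pw X n) j (clsK e (prj X n) t) := by
  obtain ⟨Δ, hΔ, h⟩ := ht
  obtain ⟨Δ', hΔ', h'⟩ := exists_good G X n
  refine ⟨(cls_gr_iff G he).1 hw, Δ.map (G.ρ X).dom.subtype ⊓ Δ', ?_, ?_⟩
  · have h1 : (Δ.map (G.ρ X).dom.subtype).FiniteIndex := by
      have := (G.isGalois X).finiteIndex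
      refine ⟨?_⟩
      rw [Subgroup.index_map_subtype]
      exact mul_ne_zero hΔ.index_ne_zero this.index_ne_zero
    infer_instance
  · rintro g ⟨⟨g', hg', rfl⟩, hg2⟩ _
    have h1 := act_cls' G e h' hg2 t
    refine h1.trans ?_
    rw [← clsK_smul]
    congr 1
    funext I
    have h2 := h g' hg' I
    rw [cE_sum G he hw] at h2
    rw [Pi.smul_apply, ← h2, smul_eq_mul, ← mul_assoc, ← mul_pow]
    change _ = ((G.χ (g' : Γ) : W.K) * (G.χ (g' : Γ) : W.K)⁻¹) ^ j * _
    rw [mul_inv_cancel₀ (Units.ne_zero _), one_pow, one_mul]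
    rfl

/-- **The virtually invariant tensors are the tensors of the Tate classes.** -/
theorem TK_eq (n : ℕ) : TK (toM G e he) n = crdK e (tatePred G).sys n := by
  cases n with
  | zero =>
    apply le_antisymm
    · intro t _
      exact mem_crdK_zero e t
    · intro t _
      refine ⟨⊤, inferInstance, fun g _ I => ?_⟩
      rw [Fintype.sum_unique, cE, Finset.univ_eq_empty, Finset.sum_empty, if_pos (by decide),
        Finset.prod_empty, Nat.zero_div, pow_zero, one_mul, one_mul]
      exact congrArg t (Subsingleton.elim _ _)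
  | succ n =>
    apply le_antisymm
    · intro t ht
      rw [mem_crdK_succ]
      have h1 : t = ∑ w ∈ Finset.range ((n + 1) * (2 * X.dim) + 1),
          fun I => if ∑ i, a (I i) = w then t I else 0 := by
        funext I
        rw [Finset.sum_apply, Finset.sum_eq_single (∑ i, a (I i))]
        · rw [if_pos rfl]
        · intro w _ hw
          rw [if_neg (Ne.symm hw)]
        · intro h3
          exfalso
          apply h3
          rw [Finset.mem_range, Nat.lt_succ_iff]
          calc ∑ i, a (I i) ≤ ∑ _k : Fin (n + 1), (2 * X.dim) :=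
                Finset.sum_le_sum fun k _ => (toM G e he).le _
            _ = (n + 1) * (2 * X.dim) := by simp
      rw [h1]
      change clsL e (prj X n) _ ∈ _
      rw [map_sum]
      refine Submodule.sum_mem _ fun w _ => ?_
      rw [clsL_apply]
      have h2 := cmp_TK G he (w := w) ht
      rcases Nat.even_or_odd' w with ⟨j, rfl | rfl⟩
      · exact ClassPred.sp_of (Q := tatePred G)
          (tate_of_TK G he (fun I hI => if_neg hI) h2)
      · have h3 : (fun I => if ∑ i, a (I i) = 2 * j + 1 then t I else 0) = 0 := by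
          funext I
          by_cases hI : ∑ i, a (I i) = 2 * j + 1
          · have h4 := TK_even h2 (I := I) (by
              change ¬ Even (∑ i, a (I i))
              rw [hI]
              exact Nat.not_even_iff_odd.2 ⟨j, rfl⟩)
            exact h4
          · exact if_neg hI
        rw [h3, clsK_zero]
        exact Submodule.zero_mem _
    · intro t ht
      rw [mem_crdK_succ] at ht
      have h1 : ∀ c ∈ (tatePred G).sys.C (pw X n), tn e n c ∈ TK (toM G e he) (n + 1) := by
        intro c hc
        have h2 : (tatePred G).sys.C (pw X n) ≤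
            (TK (toM G e he) (n + 1)).comap (wb e n).equivFun.toLinearMap :=
          Submodule.span_le.2 (by
            rintro c ⟨j, hj⟩
            exact tn_mem_TK G he hj)
        exact h2 hc
      have h2 := h1 _ ht
      rwa [tn_cls] at h2

end Pool.Agent.Q60.TD
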