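import Pool.Agent.Q60.TD.Newt

/-!
# The normalised representation of a graded representation
-/

set_option linter.unusedSectionVars false

namespace Pool.Agent.Q60.TD

open Polynomial Module Matrix Pool.Agent.Q60.ED Pool.Agent.Q56.FD

variable {K : Type} [Field K] [CharZero K] {ι : Type} [Fintype ι] [DecidableEq ι] {Γ : Type*}
  [Group Γ] {L : Type} [Field L] [Algebra K L]

/-- The group of the pairs of an element of `Γ` and a square root of its character. -/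
def GG (R : MRep K ι Γ) (L : Type) [Field L] [Algebra K L] : Subgroup (Γ × Lˣ) where
  carrier := {x | (x.2 : L) ^ 2 = algebraMap K L (R.χ x.1)}
  one_mem' := by
    change ((1 : Lˣ) : L) ^ 2 = algebraMap K L (R.χ 1)
    rw [map_one, Units.val_one, Units.val_one, map_one, one_pow]
  mul_mem' {x y} hx hy := by
    change ((x.2 * y.2 : Lˣ) : L) ^ 2 = algebraMap K L (R.χ (x.1 * y.1))
    rw [map_mul, Units.val_mul, Units.val_mul, map_mul, mul_pow]
    exact congrArg₂ _ hx hy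
  inv_mem' {x} hx := by
    change ((x.2⁻¹ : Lˣ) : L) ^ 2 = algebraMap K L (R.χ x.1⁻¹)
    rw [map_inv, Units.val_inv_eq_inv_val, Units.val_inv_eq_inv_val, map_inv₀, inv_pow]
    exact congrArg _ hx

variable {R : MRep K ι Γ}

lemma mem_GG {x : Γ × Lˣ} : x ∈ GG R L ↔ (x.2 : L) ^ 2 = algebraMap K L (R.χ x.1) := Iff.rfl

/-- The normalised representation. -/
noncomputable def rr (R : MRep K ι Γ) (L : Type) [Field L] [Algebra K L] :
    GG R L →* Matrix ι ι L where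
  toFun x := diagonal (fun i => ((x.1.2 : L)⁻¹) ^ (R.a i)) * R.AL L x.1.1
  map_one' := by
    change diagonal (fun i => (((1 : Lˣ) : L)⁻¹) ^ (R.a i)) * R.AL L 1 = 1
    rw [R.AL_one, Matrix.mul_one, Units.val_one, inv_one]
    simp only [one_pow, diagonal_one]
  map_mul' x y := by
    change diagonal (fun i => (((x.1.2 * y.1.2 : Lˣ) : L)⁻¹) ^ (R.a i)) *
      R.AL L (x.1.1 * y.1.1) = _
    rw [R.AL_mul, Units.val_mul]
    have h1 : diagonal (fun i => (((x.1.2 : L) * (y.1.2 : L))⁻¹) ^ (R.a i)) =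
        diagonal (fun i => ((x.1.2 : L)⁻¹) ^ (R.a i)) *
          diagonal (fun i => ((y.1.2 : L)⁻¹) ^ (R.a i)) := by
      rw [diagonal_mul_diagonal]
      congr 1
      funext i
      rw [mul_inv, mul_pow]
    rw [h1]
    have h2 := R.AL_comm x.1.1 (fun m => ((y.1.2 : L)⁻¹) ^ m)
    simp only [Matrix.mul_assoc]
    congr 1
    rw [← Matrix.mul_assoc, h2, Matrix.mul_assoc]

lemma rr_apply (x : GG R L) : rr R L x =
    diagonal (fun i => ((x.1.2 : L)⁻¹) ^ (R.a i)) * R.AL L x.1.1 := rfl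

lemma rr_comm (x : GG R L) (f : ℕ → L) :
    rr R L x * diagonal (fun i => f (R.a i)) = diagonal (fun i => f (R.a i)) * rr R L x := by
  rw [rr_apply, Matrix.mul_assoc, ← R.AL_comm x.1.1 f, ← Matrix.mul_assoc, ← Matrix.mul_assoc,
    diagonal_mul_diagonal, diagonal_mul_diagonal]
  congr 2
  funext i
  exact mul_comm _ _

lemma rr_hom (x : GG R L) {i j : ι} (h : R.a i ≠ R.a j) : rr R L x i j = 0 := by
  rw [rr_apply, diagonal_mul, R.AL_hom _ h, mul_zero]

/-- The sign. -/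
noncomputable def sg (R : MRep K ι Γ) (L : Type) [Field L] (i : ι) : L := (-1) ^ (R.a i)

/-- The element which acts by the signs. -/
noncomputable def zz (R : MRep K ι Γ) (L : Type) [Field L] [Algebra K L] : GG R L :=
  ⟨(1, -1), by
    rw [mem_GG, map_one, Units.val_one, map_one, Units.val_neg, Units.val_one, neg_one_sq]⟩

lemma rr_zz : rr R L (zz R L) = diagonal (sg R L) := by
  rw [rr_apply]
  change diagonal (fun i => (((-1 : Lˣ) : L)⁻¹) ^ (R.a i)) * R.AL L 1 = _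
  rw [R.AL_one, Matrix.mul_one, Units.val_neg, Units.val_one, inv_neg, inv_one]
  rfl

/-- Rescaling of generalised eigenvectors. -/
lemma gen_scale {V : Type*} [AddCommGroup V] [Module L V] {A D : Module.End L V}
    (hc : Commute D A) {μ c : L} {v : V} (hD : D v = c • v) (hv : v ∈ A.maxGenEigenspace μ) :
    v ∈ (D * A).maxGenEigenspace (c * μ) := by
  rw [Module.End.mem_maxGenEigenspace] at hv ⊢
  obtain ⟨N, hN⟩ := hv
  have hDk : ∀ k, D (((A - μ • (1 : Module.End L V)) ^ k) v) =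
      c • ((A - μ • (1 : Module.End L V)) ^ k) v := by
    intro k
    have h1 : Commute D ((A - μ • (1 : Module.End L V)) ^ k) :=
      (hc.sub_right ((Commute.one_right D).smul_right μ)).pow_right k
    have h2 := LinearMap.congr_fun h1.eq v
    rw [Module.End.mul_apply, Module.End.mul_apply, hD, map_smul] at h2
    exact h2
  have key : ∀ k, ((D * A - (c * μ) • (1 : Module.End L V)) ^ k) v =
      c ^ k • ((A - μ • (1 : Module.End L V)) ^ k) v := by
    intro k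
    induction k with
    | zero => rw [pow_zero, pow_zero, pow_zero, one_smul]
    | succ k ih =>
      rw [pow_succ', Module.End.mul_apply, ih, map_smul]
      set u := ((A - μ • (1 : Module.End L V)) ^ k) v with hu
      have h1 : D (A u) = c • A u := by
        have h2 := LinearMap.congr_fun hc.eq u
        rw [Module.End.mul_apply, Module.End.mul_apply, hDk k, map_smul] at h2
        exact h2
      have h2 : (D * A - (c * μ) • (1 : Module.End L V)) u =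
          c • (A - μ • (1 : Module.End L V)) u := by
        rw [LinearMap.sub_apply, Module.End.mul_apply, h1, LinearMap.smul_apply,
          Module.End.one_apply, LinearMap.sub_apply, LinearMap.smul_apply, Module.End.one_apply,
          smul_sub, smul_smul]
      rw [h2, smul_smul, ← pow_succ, pow_succ' (A - μ • (1 : Module.End L V)),
        Module.End.mul_apply]
  refine ⟨N, ?_⟩
  rw [key, hN, smul_zero]

namespace ND

variable {b : ℕ} (N : ND R L b)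

/-- The basis for the normalised matrices. -/
lemma eig_rr (w : GG R L) (hw : w.1.1 = N.g) : EigB (rr R L w) N.B N.B'
    fun j => ((w.1.2 : L)⁻¹) ^ (N.dg' j) * N.τ (N.x j).1.2 := by
  refine ⟨N.eig.inv, fun j => ?_⟩
  rw [rr_apply, hw, Matrix.toLin'_mul]
  refine gen_scale ?_ ?_ (N.eig.gen j)
  · have h1 := R.AL_comm N.g (fun m => ((w.1.2 : L)⁻¹) ^ m)
    change Matrix.toLin' _ * Matrix.toLin' _ = Matrix.toLin' _ * Matrix.toLin' _
    rw [Module.End.mul_eq_comp, Module.End.mul_eq_comp, ← Matrix.toLin'_mul,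
      ← Matrix.toLin'_mul, h1]
  · rw [Matrix.toLin'_apply]
    funext i
    rw [Matrix.mulVec_diagonal, Pi.smul_apply, smul_eq_mul]
    by_cases h : R.a i = N.dg' j
    · rw [h]
    · rw [N.homB i j h, mul_zero, mul_zero]

variable {N}

/-- The product of the normalised eigenvalues. -/
lemma prod_eq (w : GG R L) {n : ℕ} (J : Fin n → ι) :
    ∏ k, (((w.1.2 : L)⁻¹) ^ (N.dg' (J k)) * N.τ (N.x (J k)).1.2) =
      ((w.1.2 : L)⁻¹) ^ dg (N.ms J) * N.τ (pr (N.ms J)) := by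
  rw [Finset.prod_mul_distrib, N.dg_ms, N.pr_ms, map_prod, Finset.prod_pow_eq_pow_sum]

lemma sq_eq (w : GG R L) (hw : w.1.1 = N.g) :
    (w.1.2 : L) ^ 2 = N.τ ((N.p ^ N.e : ℕ) : Qb) := by
  rw [mem_GG.1 w.2, hw, N.hχ, map_natCast, map_natCast]

/-- Equal eigenvalues have equal slopes. -/
lemma c_eq (w : GG R L) (hw : w.1.1 = N.g) {m : ℕ} (hm : 0 < m) {n : ℕ} {J J' : Fin n → ι}
    (h : (∏ k, (((w.1.2 : L)⁻¹) ^ (N.dg' (J k)) * N.τ (N.x (J k)).1.2)) ^ m =
      (∏ k, (((w.1.2 : L)⁻¹) ^ (N.dg' (J' k)) * N.τ (N.x (J' k)).1.2)) ^ m)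
    (ι₀ : letI := N.hp; Qb →+* PadicAlgCl N.p) :
    ∑ k, N.c ι₀ (J k) = ∑ k, N.c ι₀ (J' k) := by
  let _ := N.hp
  rw [prod_eq, prod_eq] at h
  have hs0 : (w.1.2 : L) ≠ 0 := w.1.2.ne_zero
  have hq := q_pos (p := N.p) (e := N.e)
  have hq1 := q_gt (p := N.p) N.he
  -- squares
  have h2 : N.τ ((pr (N.ms J) ^ 2 * ((N.p ^ N.e : ℕ) : Qb) ^ dg (N.ms J')) ^ m) =
      N.τ ((pr (N.ms J') ^ 2 * ((N.p ^ N.e : ℕ) : Qb) ^ dg (N.ms J)) ^ m) := by
    have h3 := congrArg (fun z => z ^ 2) h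
    simp only [map_pow, map_mul, ← sq_eq w hw]
    have h4 : ∀ (u v : ℕ) (y y' : L), (((w.1.2 : L)⁻¹ ^ u * y) ^ m) ^ 2 =
        (((w.1.2 : L)⁻¹ ^ v * y') ^ m) ^ 2 →
        (y ^ 2 * ((w.1.2 : L) ^ 2) ^ v) ^ m = (y' ^ 2 * ((w.1.2 : L) ^ 2) ^ u) ^ m := by
      intro u v y y' hy
      have hi : (w.1.2 : L) * (w.1.2 : L)⁻¹ = 1 := mul_inv_cancel₀ hs0
      have h5 : (y ^ 2 * ((w.1.2 : L) ^ 2) ^ v) ^ m =
          (((w.1.2 : L)⁻¹ ^ u * y) ^ m) ^ 2 * (((w.1.2 : L) ^ 2) ^ (u + v)) ^ m := by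
        have h7 : (((w.1.2 : L)⁻¹ ^ u * y) ^ m) ^ 2 * (((w.1.2 : L) ^ 2) ^ (u + v)) ^ m =
            (y ^ 2 * ((w.1.2 : L) ^ 2) ^ v) ^ m * (((w.1.2 : L) * (w.1.2 : L)⁻¹) ^ (2 * u)) ^ m := by
          ring
        rw [h7, hi, one_pow, one_pow, mul_one]
      have h6 : (y' ^ 2 * ((w.1.2 : L) ^ 2) ^ u) ^ m =
          (((w.1.2 : L)⁻¹ ^ v * y') ^ m) ^ 2 * (((w.1.2 : L) ^ 2) ^ (u + v)) ^ m := by
        have h7 : (((w.1.2 : L)⁻¹ ^ v * y') ^ m) ^ 2 * (((w.1.2 : L) ^ 2) ^ (u + v)) ^ m =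
            (y' ^ 2 * ((w.1.2 : L) ^ 2) ^ u) ^ m * (((w.1.2 : L) * (w.1.2 : L)⁻¹) ^ (2 * v)) ^ m := by
          ring
        rw [h7, hi, one_pow, one_pow, mul_one]
      rw [h5, h6, hy]
    exact h4 _ _ _ _ h3
  have h3 := N.τ.injective h2
  have h4 := congrArg (fun z => ‖ι₀ z‖) h3
  simp only [map_pow, map_mul, norm_pow, norm_mul] at h4
  have h5 := (pow_left_inj₀ (by positivity) (by positivity) hm.ne').1 h4
  have h6 := norm_q (p := N.p) (e := N.e) ι₀
  rw [h6] at h5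
  have h7 : ‖ι₀ (pr (N.ms J))‖ ^ 2 * ((N.p ^ N.e : ℕ) : ℝ) ^ dg (N.ms J) =
      ‖ι₀ (pr (N.ms J'))‖ ^ 2 * ((N.p ^ N.e : ℕ) : ℝ) ^ dg (N.ms J') := by
    rw [inv_pow, inv_pow] at h5
    field_simp at h5
    linarith
  rw [norm_word, norm_word] at h7
  have h8 := congrArg (Real.logb ((N.p ^ N.e : ℕ) : ℝ)) h7
  rw [Real.logb_rpow hq hq1.ne', Real.logb_rpow hq hq1.ne'] at h8
  have h9 : ((∑ k, N.c ι₀ (J k) : ℤ) : ℝ) = ((∑ k, N.c ι₀ (J' k) : ℤ) : ℝ) := by
    rw [N.sum_c, N.sum_c, neg_injective h8]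
  exact_mod_cast h9

/-- Eigenvalues one have slope zero. -/
lemma c_zero (w : GG R L) (hw : w.1.1 = N.g) {m : ℕ} (hm : 0 < m) {n : ℕ} {J : Fin n → ι}
    (h : (∏ k, (((w.1.2 : L)⁻¹) ^ (N.dg' (J k)) * N.τ (N.x (J k)).1.2)) ^ m = 1)
    (hd : Even (dg (N.ms J))) (ι₀ : letI := N.hp; Qb →+* PadicAlgCl N.p) :
    ∑ k, N.c ι₀ (J k) = 0 := by
  let _ := N.hp
  obtain ⟨j, hj⟩ := hd
  have hj' : dg (N.ms J) = 2 * j := by omega
  have hs0 : (w.1.2 : L) ≠ 0 := w.1.2.ne_zero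
  rw [prod_eq, hj', pow_mul, inv_pow, sq_eq w hw, mul_pow, inv_pow, inv_pow] at h
  have h0 : N.τ ((N.p ^ N.e : ℕ) : Qb) ≠ 0 := by
    rw [← sq_eq w hw]
    exact pow_ne_zero _ hs0
  have h1 : (N.τ (pr (N.ms J))) ^ m = ((N.τ ((N.p ^ N.e : ℕ) : Qb)) ^ j) ^ m := by
    field_simp at h
    exact h
  have h2 : (pr (N.ms J)) ^ m = (((N.p ^ N.e : ℕ) : Qb) ^ j) ^ m := by
    apply N.τ.injective
    rw [map_pow, map_pow, map_pow]
    exact h1
  have h3 := (Bal.sum_zero N.he N.hQ hm h2).2 ι₀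
  have h4 : ((∑ k, N.c ι₀ (J k) : ℤ) : ℝ) = ((0 : ℤ) : ℝ) := by
    rw [N.sum_c, h3, mul_zero, Int.cast_zero]
  exact_mod_cast h4

end ND

end Pool.Agent.Q60.TD
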