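import Pool.Agent.Q60.HD.Ctr
import Pool.Agent.Q60.ED.Lam
import Pool.Agent.Q60.ED.ThmC

/-!
# Tensors with coefficients in the field of a Weil cohomology theory
-/

open CategoryTheory AlgebraicGeometry TensorProduct

set_option linter.unusedSectionVars false

universe u v

namespace Pool.Agent.Q60.TD

open Module Matrix
open Pool.Agent.H914 Pool.Agent.H914.VarClass Pool.Agent.H914.VarClass.Obj
  Pool.Agent.H914.WeilCohomology
open Pool.Agent.Y133.Half Pool.Agent.Y121.AH Pool.Agent.Q60.ED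
open Pool.Agent.Q60.HD (wd wd_zero wd_succ wd_map wd_prj wd_append wd_PH wb_PH sum_append' par_op
  two_inv par_prod par_pw sg sg_mem sg_xp wb_xp)

variable {k : Type u} [Field k] {𝒱 : VarClass k} {ops : CycleOps 𝒱}

section General

variable {W : WeilCohomology.{u, 0} ops} {X Y Z : 𝒱.Obj} {ι : Type} [Fintype ι] [DecidableEq ι]
  (e : Basis ι W.K (W.H X))

/-- The class of a tensor. -/
noncomputable def clsK {n : ℕ} (f : Fin n → (Z ⟶ X)) (t : (Fin n → ι) → W.K) : W.H Z :=
  ∑ w, t w • wd e f w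

lemma clsK_add {n : ℕ} (f : Fin n → (Z ⟶ X)) (s t : (Fin n → ι) → W.K) :
    clsK e f (s + t) = clsK e f s + clsK e f t := by
  simp only [clsK, Pi.add_apply, add_smul, Finset.sum_add_distrib]

lemma clsK_smul {n : ℕ} (f : Fin n → (Z ⟶ X)) (q : W.K) (t : (Fin n → ι) → W.K) :
    clsK e f (q • t) = q • clsK e f t := by
  simp only [clsK, Pi.smul_apply, smul_eq_mul, Finset.smul_sum, smul_smul]

lemma clsK_zero {n : ℕ} (f : Fin n → (Z ⟶ X)) : clsK e f (0 : (Fin n → ι) → W.K) = 0 := by
  simp [clsK]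

/-- The class of a tensor as a linear map. -/
noncomputable def clsL {n : ℕ} (f : Fin n → (Z ⟶ X)) : ((Fin n → ι) → W.K) →ₗ[W.K] W.H Z where
  toFun := clsK e f
  map_add' := clsK_add e f
  map_smul' := clsK_smul e f

lemma clsL_apply {n : ℕ} (f : Fin n → (Z ⟶ X)) (t : (Fin n → ι) → W.K) :
    clsL e f t = clsK e f t := rfl

lemma clsK_map {n : ℕ} (g : Y ⟶ Z) (f : Fin n → (Z ⟶ X)) (t : (Fin n → ι) → W.K) :
    W.map g (clsK e f t) = clsK e (fun i => g ≫ f i) t := by
  rw [clsK, map_sum]
  exact Finset.sum_congr rfl fun w _ => by rw [map_smul, wd_map]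

/-- The tensors whose classes belong to the system. -/
noncomputable def crdK (S : Sys W) (n : ℕ) : Submodule W.K ((Fin n → ι) → W.K) where
  carrier := {t | ∀ (Z : 𝒱.Obj) (f : Fin n → (Z ⟶ X)), clsK e f t ∈ S.C Z}
  add_mem' ha hb Z f := by rw [clsK_add]; exact Submodule.add_mem _ (ha Z f) (hb Z f)
  zero_mem' Z f := by rw [clsK_zero]; exact Submodule.zero_mem _
  smul_mem' q t ht Z f := by rw [clsK_smul]; exact Submodule.smul_mem _ _ (ht Z f)

lemma mem_crdK {S : Sys W} {n : ℕ} {t : (Fin n → ι) → W.K} :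
    t ∈ crdK e S n ↔ ∀ (Z : 𝒱.Obj) (f : Fin n → (Z ⟶ X)), clsK e f t ∈ S.C Z := Iff.rfl

lemma mem_crdK_zero {S : Sys W} (t : (Fin 0 → ι) → W.K) : t ∈ crdK e S 0 := by
  intro Z f
  rw [clsK]
  refine Submodule.sum_mem _ fun w _ => ?_
  rw [wd_zero]
  exact Submodule.smul_mem _ _ (S.one Z)

lemma mem_crdK_succ {S : Sys W} {n : ℕ} {t : (Fin (n + 1) → ι) → W.K} :
    t ∈ crdK e S (n + 1) ↔ clsK e (prj X n) t ∈ S.C (pw X n) := by
  constructor
  · intro h; exact h _ _
  · intro h Z f
    have h1 := S.map (liftN X n f) h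
    rw [clsK_map] at h1
    have h2 : (fun i => liftN X n f ≫ prj X n i) = f := funext fun i => liftN_prj n f i
    rwa [h2] at h1

lemma crdK_mono {S T : Sys W} (h : ∀ Z, S.C Z ≤ T.C Z) (n : ℕ) : crdK e S n ≤ crdK e T n :=
  fun _ ht Z f => h Z (ht Z f)

/-- The linear equivalence between the tensors and the cohomology of a power. -/
lemma clsK_prj (n : ℕ) (t : (Fin (n + 1) → ι) → W.K) :
    clsK e (prj X n) t = (wb e n).equivFun.symm t := by
  rw [clsK, Basis.equivFun_symm_apply]
  exact Finset.sum_congr rfl fun w _ => by rw [wd_prj]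

variable {a : ι → ℕ} {S : Sys W}

/-- The multipliers of the tensors of a system. -/
noncomputable def mltK (S : Sys W) (n : ℕ) : Subalgebra W.K ((Fin n → ι) → W.K) where
  carrier := {ψ | ∀ t ∈ crdK e S n, ψ * t ∈ crdK e S n}
  mul_mem' ha hb t ht := by rw [mul_assoc]; exact ha _ (hb _ ht)
  add_mem' ha hb t ht := by rw [add_mul]; exact Submodule.add_mem _ (ha _ ht) (hb _ ht)
  algebraMap_mem' q t ht := by
    have h1 : algebraMap W.K ((Fin n → ι) → W.K) q * t = q • t := by
      rw [← Algebra.smul_def]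
    rw [h1]
    exact Submodule.smul_mem _ _ ht

/-- The sign of the parity of one letter. -/
def chiK (K : Type) [Field K] (a : ι → ℕ) {n : ℕ} (i : Fin n) : (Fin n → ι) → K :=
  fun w => (-1) ^ a (w i)

lemma chiK_mem (he : ∀ j, e j ∈ PH W X (a j)) (hpar : par (W.isInternal X) ∈ S.Op X X) {n : ℕ}
    (i : Fin n) : chiK W.K a i ∈ mltK e S n := by
  cases n with
  | zero => exact i.elim0
  | succ n =>
    intro t ht
    rw [mem_crdK_succ] at ht ⊢
    obtain ⟨P, hP, hPw⟩ := par_op e he hpar n i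
    have h1 := Sys.Op.apply (T := S) (fun _ => le_rfl) hP ht
    have h2 : P (clsK e (prj X n) t) = clsK e (prj X n) (chiK W.K a i * t) := by
      rw [clsK, map_sum, clsK]
      refine Finset.sum_congr rfl fun w _ => ?_
      rw [map_smul, wd_prj, hPw, smul_smul, Pi.mul_apply, chiK, mul_comm]
    rwa [h2] at h1

lemma signK_mem (he : ∀ j, e j ∈ PH W X (a j)) (hpar : par (W.isInternal X) ∈ S.Op X X) {n : ℕ}
    (i j : Fin n) : (fun w : Fin n → ι => (-1 : W.K) ^ (a (w i) * a (w j))) ∈ mltK e S n := by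
  have h20 : (2 : W.K) ≠ 0 := two_ne_zero
  have h1 : (fun w : Fin n → ι => (-1 : W.K) ^ (a (w i) * a (w j))) =
      (2⁻¹ : W.K) • (1 + chiK W.K a i + chiK W.K a j - chiK W.K a i * chiK W.K a j) := by
    funext w
    simp only [Pi.smul_apply, Pi.sub_apply, Pi.add_apply, Pi.one_apply, Pi.mul_apply, chiK,
      smul_eq_mul]
    rcases Nat.even_or_odd (a (w i)) with h | h <;> rcases Nat.even_or_odd (a (w j)) with h' | h'
    · rw [h.neg_one_pow, h'.neg_one_pow, (h.mul_right _).neg_one_pow]; field_simp; norm_num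
    · rw [h.neg_one_pow, h'.neg_one_pow, (h.mul_right _).neg_one_pow]; field_simp; norm_num
    · rw [h.neg_one_pow, h'.neg_one_pow, (h'.mul_left _).neg_one_pow]; field_simp; norm_num
    · rw [h.neg_one_pow, h'.neg_one_pow, (h.mul h').neg_one_pow]; field_simp; norm_num
  rw [h1]
  have h2 := chiK_mem e he hpar i
  have h3 := chiK_mem e he hpar j
  exact Subalgebra.smul_mem _ (Subalgebra.sub_mem _ (Subalgebra.add_mem _ (Subalgebra.add_mem _
    (Subalgebra.one_mem _) h2) h3) (Subalgebra.mul_mem _ h2 h3)) _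

/-- Products of classes in a different order. -/
lemma list_permK (he : ∀ j, e j ∈ PH W X (a j)) (hpar : par (W.isInternal X) ∈ S.Op X X) {n : ℕ}
    {l l' : List (Fin n)} (h : l.Perm l') : ∃ s ∈ mltK e S n, ∀ (Z : 𝒱.Obj) (x : Fin n → W.H Z)
      (w : Fin n → ι), (∀ i, x i ∈ PH W Z (a (w i))) →
        (l.map x).prod = s w • (l'.map x).prod := by
  induction h with
  | nil => exact ⟨1, Subalgebra.one_mem _, fun Z x w _ => by simp⟩
  | cons i _ ih =>
    obtain ⟨s, hs, h⟩ := ih
    refine ⟨s, hs, fun Z x w hx => ?_⟩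
    rw [List.map_cons, List.map_cons, List.prod_cons, List.prod_cons, h Z x w hx, mul_smul_comm]
  | swap i j l =>
    refine ⟨_, signK_mem e he hpar j i, fun Z x w hx => ?_⟩
    rw [List.map_cons, List.map_cons, List.map_cons, List.map_cons, List.prod_cons,
      List.prod_cons, List.prod_cons, List.prod_cons, ← mul_assoc, PH.comm (hx j) (hx i),
      smul_mul_assoc, mul_assoc]
  | trans _ _ ih1 ih2 =>
    obtain ⟨s, hs, h⟩ := ih1
    obtain ⟨s', hs', h'⟩ := ih2
    refine ⟨s * s', Subalgebra.mul_mem _ hs hs', fun Z x w hx => ?_⟩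
    rw [h Z x w hx, h' Z x w hx, smul_smul, Pi.mul_apply]

/-- The tensors of a system are stable under permutations of the factors. -/
lemma crdK_perm (he : ∀ j, e j ∈ PH W X (a j)) (hpar : par (W.isInternal X) ∈ S.Op X X) {n : ℕ}
    (σ : Equiv.Perm (Fin n)) {t : (Fin n → ι) → W.K} (ht : t ∈ crdK e S n) :
    (fun J => t (J ∘ σ)) ∈ crdK e S n := by
  have hp : (List.ofFn σ.symm).Perm (List.ofFn (id : Fin n → Fin n)) :=
    Equiv.Perm.ofFn_comp_perm σ.symm id
  obtain ⟨s, hs, h⟩ := list_permK e he hpar hp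
  intro Z f
  have h1 : clsK e f (fun J => t (J ∘ σ)) = clsK e (f ∘ σ) (s * t) := by
    rw [clsK, clsK, ← (Equiv.arrowCongr σ (Equiv.refl ι)).sum_comp]
    refine Finset.sum_congr rfl fun v _ => ?_
    have e1 : (Equiv.arrowCongr σ (Equiv.refl ι)) v = v ∘ σ.symm := rfl
    have e2 : (v ∘ σ.symm) ∘ σ = v := by funext i; simp
    have e3 := h Z (fun i => W.map (f (σ i)) (e (v i))) v fun i => PH.map _ (he _)
    rw [List.map_ofFn, List.map_ofFn] at e3
    have e4 : wd e f (v ∘ σ.symm) =
        (List.ofFn ((fun i => W.map (f (σ i)) (e (v i))) ∘ σ.symm)).prod := by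
      rw [wd]
      congr 2
      funext i
      simp
    rw [e1]
    rw [e2, e4, e3, smul_smul, Pi.mul_apply, mul_comm]
    rfl
  rw [h1]
  exact (hs t ht) _ _

/-- The tensors of a system are stable under products. -/
lemma crdK_mul {m n : ℕ} {s : (Fin m → ι) → W.K} {t : (Fin n → ι) → W.K} (hs : s ∈ crdK e S m)
    (ht : t ∈ crdK e S n) : tmul s t ∈ crdK e S (m + n) := by
  intro Z f
  have h1 : clsK e f (tmul s t) = clsK e (fun i => f (Fin.castAdd n i)) s *
      clsK e (fun j => f (Fin.natAdd m j)) t := by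
    rw [clsK, clsK, clsK, Finset.sum_mul_sum, sum_append']
    refine Finset.sum_congr rfl fun I _ => Finset.sum_congr rfl fun J _ => ?_
    rw [wd_append, smul_mul_smul_comm]
    congr 1
    simp only [ED.tmul, Fin.append_left, Fin.append_right]
  rw [h1]
  exact S.mul (hs _ _) (ht _ _)

/-- The operator which gives the tensor power of the trace form. -/
lemma exists_psiK (he : ∀ j, e j ∈ PH W X (a j)) (hpar : par (W.isInternal X) ∈ S.Op X X)
    {Q : Matrix ι ι W.K} (hQ : ∀ i j, Q i j = W.tr X (e i * e j)) (n : ℕ) :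
    ∃ Ψ ∈ S.Op (pw X n) (pw X n), ∀ I J : Fin (n + 1) → ι,
      W.tr (pw X n) (Ψ (wb e n I) * wb e n J) = TP Q (n + 1) I J := by
  induction n with
  | zero =>
    refine ⟨LinearMap.id, Sys.Op.id, fun I J => ?_⟩
    rw [wb_zero, wb_zero, TP_apply, Fin.prod_univ_succ, Fin.prod_univ_zero, mul_one, hQ]
    rfl
  | succ n ih =>
    obtain ⟨Ψ, hΨ, h⟩ := ih
    have hm : extOp W Ψ LinearMap.id ∘ₗ sg W (pw X n) X ∈ S.Op ((pw X n).prod X)
        ((pw X n).prod X) :=
      Sys.Op.comp (Sys.Op.ext hΨ Sys.Op.id) (sg_mem (par_pw hpar n) hpar)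
    refine ⟨extOp W Ψ LinearMap.id ∘ₗ sg W (pw X n) X, hm, fun I J => ?_⟩
    set I' : Fin (n + 1) → ι := fun i => I i.castSucc with hI'
    set J' : Fin (n + 1) → ι := fun i => J i.castSucc with hJ'
    have hx := wb_PH e he n I'
    have hx' := wb_PH e he n J'
    have hy := he (I (Fin.last _))
    have hΨx := Sys.Op.ev hΨ _ _ hx
    have e1 : (extOp W Ψ LinearMap.id ∘ₗ sg W (pw X n) X) (xp W (X := pw X n) (Y := X) (wb e n I')
        (e (I (Fin.last _)))) = (-1 : W.K) ^ ((∑ i, a (I' i)) * a (I (Fin.last _))) •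
          xp W (Ψ (wb e n I')) (e (I (Fin.last _))) := by
      rw [LinearMap.comp_apply, sg_xp hx hy, map_smul]
      congr 1
      exact extOp_tmul (W := W) _ _ _ _
    have e2 : W.tr ((pw X n).prod X) ((extOp W Ψ LinearMap.id ∘ₗ sg W (pw X n) X)
        (xp W (X := pw X n) (Y := X) (wb e n I') (e (I (Fin.last _)))) *
        xp W (X := pw X n) (Y := X) (wb e n J') (e (J (Fin.last _)))) =
        TP Q (n + 1 + 1) I J := by
      rw [e1, smul_mul_assoc, xp_mul _ _ _ _ hy hx', map_smul, map_smul, tr_xp, h, ← hQ,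
        smul_eq_mul, smul_eq_mul]
      have e3 : TP Q (n + 1 + 1) I J = TP Q (n + 1) I' J' * Q (I (Fin.last _)) (J (Fin.last _)) := by
        rw [TP_apply, TP_apply, Fin.prod_univ_castSucc]
      rw [e3]
      by_cases hp : ((∑ i, a (I' i)) + ∑ i, a (J' i)) % 2 = 0
      · have e4 : (-1 : W.K) ^ ((∑ i, a (I' i)) * a (I (Fin.last _))) *
            (-1 : W.K) ^ (a (I (Fin.last _)) * ∑ i, a (J' i)) = 1 := by
          rw [← pow_add, mul_comm (a (I (Fin.last _))), ← add_mul]
          exact (Nat.even_iff.2 hp).mul_right _ |>.neg_one_pow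
        rw [← mul_assoc, e4, one_mul]
      · have e4 : W.tr (pw X n) (Ψ (wb e n I') * wb e n J') = 0 :=
          PH.tr_odd (PH.mul hΨx hx') (by omega)
        rw [h] at e4
        rw [e4]
        ring
    rw [wb_xp, wb_xp]
    exact e2

/-- The tensors of a system are stable under contractions. -/
lemma crdK_contr (he : ∀ j, e j ∈ PH W X (a j)) (hpar : par (W.isInternal X) ∈ S.Op X X)
    {Q : Matrix ι ι W.K} (hQ : ∀ i j, Q i j = W.tr X (e i * e j)) {m n : ℕ}
    {s : (Fin m → ι) → W.K} {t : (Fin (m + n) → ι) → W.K} (hs : s ∈ crdK e S m)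
    (ht : t ∈ crdK e S (m + n)) :
    (fun J => ∑ I, ∑ I', s I * TP Q m I I' * t (Fin.append I' J)) ∈ crdK e S n := by
  intro Z f
  cases m with
  | zero =>
    have h1 := ht Z fun i => f (Fin.cast (zero_add n) i)
    have h2 : clsK e f (fun J => ∑ I, ∑ I', s I * TP Q 0 I I' * t (Fin.append I' J)) =
        (∑ I, s I) • clsK e (fun i => f (Fin.cast (zero_add n) i)) t := by
      have hu : ∀ g : (Fin 0 → ι) → W.H Z, ∑ I, g I = g default := fun g => Fintype.sum_unique g
      have hu' : ∀ g : (Fin 0 → ι) → W.K, ∑ I, g I = g default := fun g => Fintype.sum_unique g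
      rw [clsK, clsK, sum_append', hu, Finset.smul_sum]
      refine Finset.sum_congr rfl fun J _ => ?_
      rw [hu', hu', hu', smul_smul]
      have h3 : TP Q 0 (default : Fin 0 → ι) default = 1 := by
        rw [TP_apply, Finset.univ_eq_empty, Finset.prod_empty]
      rw [h3, mul_one]
      congr 1
      rw [wd_append, wd_zero, one_mul]
      congr 1
      funext i
      congr 1
      ext
      simp
    rw [h2]
    exact Submodule.smul_mem _ _ h1
  | succ m =>
    obtain ⟨Ψ, hΨ, h⟩ := exists_psiK e he hpar hQ m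
    set F : Fin (m + 1 + n) → ((pw X m).prod Z ⟶ X) :=
      Fin.append (fun i => fst (pw X m) Z ≫ prj X m i) (fun j => snd (pw X m) Z ≫ f j) with hF
    have hγ := ht ((pw X m).prod Z) F
    have hz := Sys.Op.apply (T := S) (fun _ => le_rfl) hΨ (mem_crdK_succ (e := e).1 hs)
    set z := Ψ (clsK e (prj X m) s) with hzdef
    have h1 := Sys.Op.apply (T := S) (fun _ => le_rfl) (Sys.Op.corr hγ) hz
    have h2 : W.corr (clsK e F t) z =
        clsK e f (fun J => ∑ I, ∑ I', s I * TP Q (m + 1) I I' * t (Fin.append I' J)) := by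
      have hz0 : z ∈ PH W (pw X m) 0 := S.even hz
      have e1 : ∀ I' : Fin (m + 1) → ι, W.tr (pw X m) (z * wb e m I') =
          ∑ I, s I * TP Q (m + 1) I I' := by
        intro I'
        rw [hzdef, clsK, map_sum, Finset.sum_mul, map_sum]
        refine Finset.sum_congr rfl fun I _ => ?_
        rw [map_smul, smul_mul_assoc, map_smul, wd_prj, h, smul_eq_mul]
      have e2 : ∀ (I' : Fin (m + 1) → ι) (J : Fin n → ι),
          W.corr (wd e F (Fin.append I' J)) z =
            (∑ I, s I * TP Q (m + 1) I I') • wd e f J := by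
        intro I' J
        have e3 : wd e F (Fin.append I' J) = xp W (X := pw X m) (wb e m I') (wd e f J) := by
          rw [wd_append, xp, ← wd_prj, wd_map, wd_map]
          simp only [hF, Fin.append_left, Fin.append_right]
        rw [e3, corr_xp _ (wd_PH e he f J) hz0, mul_zero, pow_zero, one_mul,
          ← PH.even_comm hz0, e1]
      have e4 : W.corr (clsK e F t) z = ∑ L, t L • W.corr (wd e F L) z := by
        rw [clsK]
        have e5 := map_sum (corrL W (pw X m) Z) (fun L => t L • wd e F L) Finset.univ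
        have e6 := congrArg (fun G : W.H (pw X m) →ₗ[W.K] W.H Z => G z) e5
        refine e6.trans ?_
        rw [LinearMap.sum_apply]
        refine Finset.sum_congr rfl fun L _ => ?_
        rw [map_smul, LinearMap.smul_apply]
        rfl
      rw [e4, sum_append', Finset.sum_comm, clsK]
      refine Finset.sum_congr rfl fun J _ => ?_
      rw [Finset.sum_comm, Finset.sum_smul]
      refine Finset.sum_congr rfl fun I' _ => ?_
      rw [e2, smul_smul, mul_comm, Finset.sum_mul]
    rw [← h2]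
    exact h1

end General

end Pool.Agent.Q60.TD
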