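import Pool.Agent.Q60.TD.Weil

/-!
# The one-parameter families of the Weil elements
-/

set_option linter.unusedSectionVars false

namespace Pool.Agent.Q60.TD

open Polynomial Module Matrix Pool.Agent.Q60.ED Pool.Agent.Q56.FD

variable {K : Type} [Field K] [CharZero K] {ι : Type} [Fintype ι] [DecidableEq ι] {Γ : Type*}
  [Group Γ] {L : Type} [Field L] [Algebra K L]

/-- A Weil element with a homogeneous basis of generalised eigenvectors. -/
structure ND (R : MRep K ι Γ) (L : Type) [Field L] [Algebra K L] (b : ℕ) where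
  /-- the element -/
  g : Γ
  /-- the prime number -/
  p : ℕ
  hp : Fact p.Prime
  /-- the exponent -/
  e : ℕ
  /-- the Frobenius polynomials -/
  Q : ℕ → ℤ[X]
  he : 0 < e
  hχ : (R.χ g : K) = ((p ^ e : ℕ) : K)
  hQ : ∀ i ≤ R.M, IsFrobPoly p (p ^ e) i (Q i)
  hb : ∑ i ∈ Finset.range (R.M + 1), (Q i).natDegree ≤ b
  hk : ∀ i ≤ R.M, ∀ j, R.a j = i → ∀ k, (aeval (R.A g) (Q i) : Matrix ι ι K) k j = 0
  /-- the embedding of the algebraic numbers -/
  τ : Qb →+* L
  /-- the eigenvalues -/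
  x : ι → Letter Q R.M
  /-- the basis -/
  B : Matrix ι ι L
  /-- the inverse -/
  B' : Matrix ι ι L
  eig : EigB (R.AL L g) B B' fun j => τ (x j).1.2
  homB : ∀ i j, R.a i ≠ (x j).1.1 → B i j = 0

namespace ND

variable {R : MRep K ι Γ} {b : ℕ} (N : ND R L b)

/-- The degree of a basis vector. -/
def dg' (j : ι) : ℕ := (N.x j).1.1

/-- The centred slopes. -/
noncomputable def c (ι₀ : letI := N.hp; Qb →+* PadicAlgCl N.p) (j : ι) : ℤ :=
  let _ := N.hp
  cI N.he N.hQ N.hb ι₀ (N.x j)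

/-- The one-parameter family. -/
noncomputable def E (d : ℕ) (ι₀ : letI := N.hp; Qb →+* PadicAlgCl N.p) (w : ℕ) : Matrix ι ι L :=
  N.B * diagonal (fun j => if N.c ι₀ j + d = w then 1 else 0) * N.B'

lemma coch_E {dX d : ℕ} (hM : R.M ≤ 2 * dX) (hd : 2 * ((dX + 1) * b.factorial) ≤ d)
    (ι₀ : letI := N.hp; Qb →+* PadicAlgCl N.p) {z : L} (hz : z ≠ 0) :
    coch d (N.E d ι₀) z = N.B * diagonal (fun j => z ^ (N.c ι₀ j)) * N.B' := by
  let _ := N.hp
  have h1 : ∀ j, ∃ m : ℕ, N.c ι₀ j + d = m ∧ m < 2 * d + 1 := by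
    intro j
    have h2 := cI_abs N.he N.hQ N.hb hM ι₀ (N.x j)
    have h3 : |N.c ι₀ j| ≤ (d : ℤ) := h2.trans (by exact_mod_cast hd)
    rw [abs_le] at h3
    refine ⟨(N.c ι₀ j + d).toNat, ?_, ?_⟩
    · rw [Int.toNat_of_nonneg (by omega)]
    · omega
  rw [coch]
  have h2 : ∀ w ∈ Finset.range (2 * d + 1), z ^ w • N.E d ι₀ w =
      N.B * (z ^ w • diagonal (fun j => if N.c ι₀ j + d = w then (1 : L) else 0)) * N.B' := by
    intro w _
    rw [E, Matrix.mul_smul, Matrix.smul_mul]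
  rw [Finset.sum_congr rfl h2, ← Finset.sum_mul, ← Finset.mul_sum, ← Matrix.smul_mul,
    ← Matrix.mul_smul]
  congr 2
  ext i j
  rw [Matrix.smul_apply, Matrix.sum_apply]
  by_cases hij : i = j
  · subst hij
    obtain ⟨m, hm, hm'⟩ := h1 i
    rw [diagonal_apply_eq, Finset.sum_eq_single m]
    · rw [Matrix.smul_apply, diagonal_apply_eq, if_pos hm, smul_eq_mul, smul_eq_mul, mul_one]
      have h3 : N.c ι₀ i = (m : ℤ) - d := by omega
      rw [h3, zpow_sub₀ hz, zpow_natCast, zpow_natCast, div_eq_mul_inv, mul_comm]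
    · intro w _ hw
      rw [Matrix.smul_apply, diagonal_apply_eq, if_neg, smul_zero]
      intro h
      apply hw
      have h3 : (w : ℤ) = m := h.symm.trans hm
      exact_mod_cast h3
    · intro h
      exact absurd (Finset.mem_range.2 hm') h
  · rw [diagonal_apply_ne _ hij]
    rw [Finset.sum_eq_zero, smul_zero]
    intro w _
    rw [Matrix.smul_apply, diagonal_apply_ne _ hij, smul_zero]

/-- Homogeneity of the basis. -/
lemma diag_B (f : ℕ → L) : diagonal (fun i => f (R.a i)) * N.B =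
    N.B * diagonal (fun j => f (N.dg' j)) := by
  ext i j
  rw [diagonal_mul, mul_diagonal]
  by_cases h : R.a i = N.dg' j
  · rw [h, mul_comm]
  · rw [N.homB i j h, mul_zero, zero_mul]

lemma diag_eq (f : ℕ → L) : diagonal (fun i => f (R.a i)) =
    N.B * diagonal (fun j => f (N.dg' j)) * N.B' := by
  rw [← N.diag_B, Matrix.mul_assoc, N.eig.inv, Matrix.mul_one]

lemma conj_diag (f g : ι → L) : (N.B * diagonal f * N.B') * (N.B * diagonal g * N.B') =
    N.B * diagonal (fun j => f j * g j) * N.B' := by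
  have h1 : (N.B * diagonal f * N.B') * (N.B * diagonal g * N.B') =
      N.B * diagonal f * (N.B' * N.B) * diagonal g * N.B' := by
    simp only [Matrix.mul_assoc]
  rw [h1, N.eig.inv', Matrix.mul_one, Matrix.mul_assoc N.B, diagonal_mul_diagonal]

/-- The multiset of letters of a word. -/
def ms {n : ℕ} (J : Fin n → ι) : Multiset (Letter N.Q R.M) :=
  Multiset.map (fun k => N.x (J k)) Finset.univ.val

lemma card_ms {n : ℕ} (J : Fin n → ι) : Multiset.card (N.ms J) = n := by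
  rw [ms, Multiset.card_map, Finset.card_val, Finset.card_univ, Fintype.card_fin]

lemma pr_ms {n : ℕ} (J : Fin n → ι) : pr (N.ms J) = ∏ k, (N.x (J k)).1.2 := by
  rw [pr, ms, Multiset.map_map]
  rfl

lemma dg_ms {n : ℕ} (J : Fin n → ι) : dg (N.ms J) = ∑ k, N.dg' (J k) := by
  rw [dg, ms, Multiset.map_map]
  rfl

lemma c_ms {n : ℕ} (J : Fin n → ι) (ι₀ : letI := N.hp; Qb →+* PadicAlgCl N.p) :
    letI := N.hp
    ((N.ms J).map fun x => cI N.he N.hQ N.hb ι₀ x).sum = ∑ k, N.c ι₀ (J k) := by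
  rw [ms, Multiset.map_map]
  rfl

lemma sum_c {n : ℕ} (J : Fin n → ι) (ι₀ : letI := N.hp; Qb →+* PadicAlgCl N.p) :
    letI := N.hp
    ((∑ k, N.c ι₀ (J k) : ℤ) : ℝ) = b.factorial * ((N.ms J).map fun x => cs (N.p ^ N.e) ι₀ x).sum := by
  let _ := N.hp
  rw [← N.c_ms]
  exact cI_sum N.he N.hQ N.hb ι₀ _

/-- The centred slope of a word in terms of the absolute value. -/
lemma norm_word {n : ℕ} (J : Fin n → ι) (ι₀ : letI := N.hp; Qb →+* PadicAlgCl N.p) :
    letI := N.hp
    ‖ι₀ (pr (N.ms J))‖ ^ 2 * ((N.p ^ N.e : ℕ) : ℝ) ^ dg (N.ms J) =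
      ((N.p ^ N.e : ℕ) : ℝ) ^ (-((N.ms J).map fun x => cs (N.p ^ N.e) ι₀ x).sum) := by
  let _ := N.hp
  have hq := q_pos (p := N.p) (e := N.e)
  have h5 : ∀ s : Multiset (Letter N.Q R.M), (s.map fun x => cs (N.p ^ N.e) ι₀ x).sum =
      2 * (s.map fun x => sl (N.p ^ N.e) ι₀ x.1.2).sum - (dg s : ℝ) := by
    intro s
    induction s using Multiset.induction with
    | empty => simp [dg]
    | cons x s ih =>
      rw [Multiset.map_cons, Multiset.sum_cons, ih, Multiset.map_cons, Multiset.sum_cons, dg_cons,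
        cs]
      push_cast
      ring
  rw [pr_norm N.he N.hQ, h5, ← Real.rpow_natCast (((N.p ^ N.e : ℕ) : ℝ)) (dg (N.ms J)),
    ← Real.rpow_natCast _ 2, ← Real.rpow_mul hq.le, ← Real.rpow_add hq]
  congr 1
  push_cast
  ring

end ND

end Pool.Agent.Q60.TD
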