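import Pool.Agent.Q56.FD.Coord

/-!
# Roots of unity of bounded degree
-/

set_option linter.unusedSectionVars false

namespace Pool.Agent.Q60.TD

open Polynomial Pool.Agent.Q56.FD Module

/-- The order of a root of unity is bounded in terms of its degree. -/
lemma dvd_factorial_of_totient {m N : ℕ} (hm : 0 < m) (h : m.totient ≤ N) :
    m ∣ (2 * N).factorial := by
  rw [Nat.dvd_iff_prime_pow_dvd_dvd]
  intro p k hp hk
  rcases k with _ | k
  · rw [pow_zero]; exact one_dvd _
  have h1 : (p ^ (k + 1)).totient ≤ N :=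
    (Nat.le_of_dvd (Nat.totient_pos.2 hm) (Nat.totient_dvd_of_dvd hk)).trans h
  rw [Nat.totient_prime_pow_succ hp] at h1
  have h2 : p ^ (k + 1) ≤ 2 * N := by
    have h3 : p ≤ 2 * (p - 1) := by
      have := hp.two_le
      omega
    calc p ^ (k + 1) = p ^ k * p := pow_succ _ _
      _ ≤ p ^ k * (2 * (p - 1)) := Nat.mul_le_mul_left _ h3
      _ = 2 * (p ^ k * (p - 1)) := by ring
      _ ≤ 2 * N := Nat.mul_le_mul_left _ h1
  exact Nat.dvd_factorial (pow_pos hp.pos _) h2

/-- A root of unity of degree at most `N` has order dividing `(2 N)!`. -/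
lemma pow_factorial_eq_one {x : Qb} {j : ℕ} (hj : 0 < j) (hx : x ^ j = 1)
    {E : IntermediateField ℚ Qb} [FiniteDimensional ℚ E] (hxE : x ∈ E) {N : ℕ}
    (hN : finrank ℚ E ≤ N) : x ^ (2 * N).factorial = 1 := by
  have hfin : IsOfFinOrder x := isOfFinOrder_iff_pow_eq_one.2 ⟨j, hj, hx⟩
  have ho : 0 < orderOf x := hfin.orderOf_pos
  have hprim : IsPrimitiveRoot x (orderOf x) := IsPrimitiveRoot.orderOf x
  have h1 : (orderOf x).totient ≤ N := by
    rw [← natDegree_cyclotomic (orderOf x) ℚ, cyclotomic_eq_minpoly_rat hprim ho]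
    have h2 : finrank ℚ (IntermediateField.adjoin ℚ {x}) = (minpoly ℚ x).natDegree :=
      IntermediateField.adjoin.finrank (Algebra.IsIntegral.isIntegral x)
    rw [← h2]
    refine le_trans ?_ hN
    have h3 : IntermediateField.adjoin ℚ {x} ≤ E := by
      rw [IntermediateField.adjoin_le_iff]
      simpa using hxE
    have h4 : finrank ℚ (IntermediateField.adjoin ℚ {x}) =
        finrank ℚ (IntermediateField.adjoin ℚ {x}).toSubmodule := rfl
    have h5 : finrank ℚ E = finrank ℚ E.toSubmodule := rfl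
    rw [h4, h5]
    have : FiniteDimensional ℚ E.toSubmodule := inferInstanceAs (FiniteDimensional ℚ E)
    exact Submodule.finrank_mono h3
  exact orderOf_dvd_iff_pow_eq_one.1 (dvd_factorial_of_totient ho h1)

variable {p : ℕ} [Fact p.Prime] {e : ℕ} {Q : ℕ → ℤ[X]} {M b : ℕ}

/-- The products of eigenvalues have bounded degree. -/
lemma exists_field (hQ : ∀ i ≤ M, IsFrobPoly p (p ^ e) i (Q i))
    (hb : ∑ i ∈ Finset.range (M + 1), (Q i).natDegree ≤ b) (s : Multiset (Letter Q M)) :
    ∃ E : IntermediateField ℚ Qb, FiniteDimensional ℚ E ∧ finrank ℚ E ≤ b ^ Multiset.card s ∧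
      pr s ∈ E := by
  induction s using Multiset.induction with
  | empty =>
    refine ⟨⊥, inferInstance, ?_, ?_⟩
    · rw [IntermediateField.finrank_bot, Multiset.card_zero, pow_zero]
    · rw [pr, Multiset.map_zero, Multiset.prod_zero]
      exact one_mem _
  | cons x s ih =>
    obtain ⟨E, hE, hEr, hEs⟩ := ih
    have hint : IsIntegral ℚ x.1.2 := Algebra.IsIntegral.isIntegral _
    have hfd : FiniteDimensional ℚ (IntermediateField.adjoin ℚ {x.1.2}) :=
      IntermediateField.adjoin.finiteDimensional hint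
    refine ⟨IntermediateField.adjoin ℚ {x.1.2} ⊔ E, inferInstance, ?_, ?_⟩
    · refine (IntermediateField.finrank_sup_le _ _).trans ?_
      rw [Multiset.card_cons, pow_succ, mul_comm]
      refine Nat.mul_le_mul hEr ?_
      rw [IntermediateField.adjoin.finrank hint]
      have hroot : aeval x.1.2 ((Q x.1.1).map (Int.castRingHom ℚ)) = 0 := by
        have h1 := aeval_map_algebraMap ℚ x.1.2 (Q x.1.1)
        rw [x.2.2] at h1
        exact h1
      have hne : (Q x.1.1).map (Int.castRingHom ℚ) ≠ 0 :=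
        ((hQ _ x.2.1).monic.map _).ne_zero
      refine (natDegree_le_of_dvd (minpoly.dvd ℚ x.1.2 hroot) hne).trans ?_
      exact natDegree_map_le.trans (natDegree_le hb x.2.1)
    · rw [pr_cons]
      exact mul_mem ((le_sup_left : _ ≤ _ ⊔ E) (IntermediateField.mem_adjoin_simple_self ℚ _))
        ((le_sup_right : E ≤ _) hEs)

/-- The balanced products of `n` eigenvalues are, up to roots of unity of bounded order, powers
of `q`. -/
lemma bal_pow (he : 0 < e) (hQ : ∀ i ≤ M, IsFrobPoly p (p ^ e) i (Q i))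
    (hb : ∑ i ∈ Finset.range (M + 1), (Q i).natDegree ≤ b) {s : Multiset (Letter Q M)}
    (hd : Even (dg s)) (h : ∀ ι : Qb →+* PadicAlgCl p, (s.map fun x => cs (p ^ e) ι x).sum = 0) :
    ∃ j : ℕ, dg s = 2 * j ∧ (pr s) ^ (2 * b ^ Multiset.card s).factorial =
      (((p ^ e : ℕ) : Qb) ^ j) ^ (2 * b ^ Multiset.card s).factorial := by
  obtain ⟨j, m, hm, h1, h2⟩ := bal_of_sum_zero he hQ hd h
  refine ⟨j, h2, ?_⟩
  obtain ⟨E, hE, hEr, hEs⟩ := exists_field hQ hb s
  have hq0 : ((p ^ e : ℕ) : Qb) ≠ 0 := by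
    exact_mod_cast (pow_pos (Fact.out : p.Prime).pos e).ne'
  have h3 : (pr s / ((p ^ e : ℕ) : Qb) ^ j) ^ m = 1 := by
    rw [div_pow, h1, div_self (pow_ne_zero _ (pow_ne_zero _ hq0))]
  have h4 := pow_factorial_eq_one hm h3 (E := E)
    (div_mem hEs (pow_mem (natCast_mem E _) _)) hEr
  rw [div_pow, div_eq_one_iff_eq (pow_ne_zero _ (pow_ne_zero _ hq0))] at h4
  exact h4

end Pool.Agent.Q60.TD
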