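import Pool.Agent.Q60.TD.Rey

/-!
# Polynomial functions of bounded degree and their coefficients
-/

set_option linter.unusedSectionVars false

namespace Pool.Agent.Q60.TD

open MvPolynomial Module Matrix Pool.Agent.Q60.ED

variable {K : Type} [Field K] {ι : Type} [Fintype ι] [DecidableEq ι]

/-- The indices of the coefficients of polynomial functions of degree at most `D`. -/
abbrev EK (ι : Type) (D : ℕ) : Type := Σ i : Fin (D + 1), (Fin i → ι) × (Fin i → ι)

lemma xt_addK {n : ℕ} (s t : (Fin n → ι) → K) (I : Fin n → ι) :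
    xt (s + t) I = xt s I + xt t I := by
  simp only [xt, Pi.add_apply, map_add, add_mul, Finset.sum_add_distrib]

lemma xt_smulK {n : ℕ} (c : K) (t : (Fin n → ι) → K) (I : Fin n → ι) :
    xt (c • t) I = c • xt t I := by
  simp only [xt, Pi.smul_apply, smul_eq_mul, Finset.smul_sum, map_mul, smul_eq_C_mul, mul_assoc]

variable {D : ℕ}

/-- The polynomial function with given coefficients. -/
noncomputable def PhK (D : ℕ) : (EK ι D → K) →ₗ[K] MvPolynomial (ι × ι) K where
  toFun e := ∑ i : Fin (D + 1), ∑ I : Fin i → ι, xt (fun J => e ⟨i, (J, I)⟩) I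
  map_add' a b := by
    rw [← Finset.sum_add_distrib]
    refine Finset.sum_congr rfl fun i _ => ?_
    rw [← Finset.sum_add_distrib]
    exact Finset.sum_congr rfl fun I _ => xt_addK _ _ _
  map_smul' c a := by
    rw [RingHom.id_apply, Finset.smul_sum]
    refine Finset.sum_congr rfl fun i _ => ?_
    rw [Finset.smul_sum]
    exact Finset.sum_congr rfl fun I _ => xt_smulK _ _ _

lemma PhK_apply (e : EK ι D → K) :
    PhK D e = ∑ i : Fin (D + 1), ∑ I : Fin i → ι, xt (fun J => e ⟨i, (J, I)⟩) I := rfl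

/-- The action on the coefficients. -/
noncomputable def RK (D : ℕ) (g : Matrix ι ι K) : (EK ι D → K) →ₗ[K] (EK ι D → K) where
  toFun e a := tpow g a.1 (fun J => e ⟨a.1, (J, a.2.2)⟩) a.2.1
  map_add' a b := by
    funext x
    exact congrFun (map_add (tpow g (x.1 : ℕ)) (fun J => a ⟨x.1, (J, x.2.2)⟩)
      fun J => b ⟨x.1, (J, x.2.2)⟩) x.2.1
  map_smul' c a := by
    funext x
    exact congrFun (map_smul (tpow g (x.1 : ℕ)) c (fun J => a ⟨x.1, (J, x.2.2)⟩)) x.2.1

lemma RK_apply (g : Matrix ι ι K) (e : EK ι D → K) (a : EK ι D) :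
    RK D g e a = tpow g a.1 (fun J => e ⟨a.1, (J, a.2.2)⟩) a.2.1 := rfl

lemma RK_mul (g h : Matrix ι ι K) (e : EK ι D → K) : RK D g (RK D h e) = RK D (g * h) e := by
  funext a
  rw [RK_apply, RK_apply, tpow_mul]
  rfl

lemma RK_one (e : EK ι D → K) : RK D 1 e = e := by
  funext a
  rw [RK_apply, tpow_one]

lemma rho_PhK (g : Matrix ι ι K) (e : EK ι D → K) : rho g (PhK D e) = PhK D (RK D g e) := by
  rw [PhK_apply, PhK_apply, map_sum]
  refine Finset.sum_congr rfl fun i _ => ?_
  rw [map_sum]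
  refine Finset.sum_congr rfl fun I _ => ?_
  rw [rho_xt]
  rfl

lemma PhK_single (a : EK ι D) : PhK D (Pi.single a (1 : K)) = mon a.2.2 a.2.1 := by
  rw [PhK_apply, Finset.sum_eq_single a.1]
  · rw [Finset.sum_eq_single a.2.2]
    · rw [xt, Finset.sum_eq_single a.2.1]
      · have h1 : (⟨a.1, (a.2.1, a.2.2)⟩ : EK ι D) = a := rfl
        rw [h1, Pi.single_eq_same, map_one, one_mul]
      · intro J _ hJ
        rw [Pi.single_eq_of_ne, map_zero, zero_mul]
        intro h
        apply hJ
        have h2 : (⟨a.1, (J, a.2.2)⟩ : EK ι D) = ⟨a.1, (a.2.1, a.2.2)⟩ := h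
        have h3 := eq_of_heq (Sigma.mk.inj h2).2
        exact (Prod.mk.inj h3).1
      · intro h; exact absurd (Finset.mem_univ _) h
    · intro I _ hI
      rw [xt]
      refine Finset.sum_eq_zero fun J _ => ?_
      rw [Pi.single_eq_of_ne, map_zero, zero_mul]
      intro h
      apply hI
      have h2 : (⟨a.1, (J, I)⟩ : EK ι D) = ⟨a.1, (a.2.1, a.2.2)⟩ := h
      have h3 := eq_of_heq (Sigma.mk.inj h2).2
      exact (Prod.mk.inj h3).2
    · intro h; exact absurd (Finset.mem_univ _) h
  · intro i _ hi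
    refine Finset.sum_eq_zero fun I _ => ?_
    rw [xt]
    refine Finset.sum_eq_zero fun J _ => ?_
    rw [Pi.single_eq_of_ne, map_zero, zero_mul]
    intro h
    exact hi (congrArg Sigma.fst h)
  · intro h; exact absurd (Finset.mem_univ _) h

lemma exists_PhK {f : MvPolynomial (ι × ι) K} (hf : f.totalDegree ≤ D) :
    ∃ e : EK ι D → K, PhK D e = f := by
  have h1 : f ∈ LinearMap.range (PhK (K := K) (ι := ι) D) := by
    rw [f.as_sum]
    refine Submodule.sum_mem _ fun m hm => ?_
    have h2 : monomial m (coeff m f) = coeff m f • monomial m (1 : K) := by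
      rw [smul_monomial, smul_eq_mul, mul_one]
    rw [h2]
    refine Submodule.smul_mem _ _ ?_
    have h3 := le_totalDegree hm
    obtain ⟨n, q, hq⟩ := exists_seq m
    have h4 : (m.sum fun _ e => e) = n := by
      rw [← hq, Finsupp.sum_fintype _ _ (fun _ => rfl)]
      simp only [Finsupp.finsetSum_apply]
      rw [Finset.sum_comm]
      simp [Finsupp.single_apply]
    have h5 : n < D + 1 := by omega
    refine ⟨Pi.single ⟨⟨n, h5⟩, (fun k => (q k).2, fun k => (q k).1)⟩ 1, ?_⟩
    rw [PhK_single, TSys.mon_eq]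
    change monomial (∑ k, Finsupp.single (q k) 1) 1 = _
    rw [hq]
  exact h1

/-- A block of a matrix. -/
def blkK {K : Type} (M : Matrix (EK ι D) (EK ι D) K) (j i : Fin (D + 1)) (J : Fin j → ι)
    (I : Fin i → ι) : Matrix (Fin j → ι) (Fin i → ι) K :=
  Matrix.of fun L L' => M ⟨j, (L, J)⟩ ⟨i, (L', I)⟩

lemma comm_iffK (M : Matrix (EK ι D) (EK ι D) K) (g : Matrix ι ι K) :
    (∀ v, M *ᵥ (RK D g v) = RK D g (M *ᵥ v)) ↔
      ∀ (j i : Fin (D + 1)) (J : Fin j → ι) (I : Fin i → ι),
        TP g j * blkK M j i J I = blkK M j i J I * TP g i := by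
  have h1 : ∀ (i : Fin (D + 1)) (L' I : Fin i → ι) (j : Fin (D + 1)) (L J : Fin j → ι),
      (M *ᵥ (RK D g (Pi.single ⟨i, (L', I)⟩ 1))) ⟨j, (L, J)⟩ =
        (blkK M j i J I * TP g i) L L' := by
    intro i L' I j L J
    rw [Matrix.mulVec, dotProduct, Fintype.sum_sigma, Finset.sum_eq_single i]
    · rw [Fintype.sum_prod_type, Matrix.mul_apply]
      refine Finset.sum_congr rfl fun L'' _ => ?_
      rw [Finset.sum_eq_single I]
      · have h2 : RK D g (Pi.single ⟨i, (L', I)⟩ 1) ⟨i, (L'', I)⟩ = TP g i L'' L' := by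
          rw [RK_apply, tpow_apply, Finset.sum_eq_single L']
          · rw [Pi.single_eq_same, mul_one]
            rfl
          · intro K _ hK
            rw [Pi.single_eq_of_ne, mul_zero]
            intro h
            have h2 : (⟨i, (K, I)⟩ : EK ι D) = ⟨i, (L', I)⟩ := h
            exact hK (Prod.mk.inj (eq_of_heq (Sigma.mk.inj h2).2)).1
          · intro h; exact absurd (Finset.mem_univ _) h
        rw [h2]
        rfl
      · intro I' _ hI'
        have h2 : RK D g (Pi.single ⟨i, (L', I)⟩ 1) ⟨i, (L'', I')⟩ = 0 := by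
          rw [RK_apply, tpow_apply]
          refine Finset.sum_eq_zero fun K _ => ?_
          rw [Pi.single_eq_of_ne, mul_zero]
          intro h
          have h2 : (⟨i, (K, I')⟩ : EK ι D) = ⟨i, (L', I)⟩ := h
          exact hI' (Prod.mk.inj (eq_of_heq (Sigma.mk.inj h2).2)).2
        rw [h2, mul_zero]
      · intro h; exact absurd (Finset.mem_univ _) h
    · intro i' _ hi'
      refine Finset.sum_eq_zero fun b _ => ?_
      have h2 : RK D g (Pi.single ⟨i, (L', I)⟩ 1) ⟨i', b⟩ = 0 := by
        rw [RK_apply, tpow_apply]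
        refine Finset.sum_eq_zero fun K _ => ?_
        rw [Pi.single_eq_of_ne, mul_zero]
        intro h
        exact hi' (congrArg Sigma.fst h)
      rw [h2, mul_zero]
    · intro h; exact absurd (Finset.mem_univ _) h
  have h3 : ∀ (i : Fin (D + 1)) (L' I : Fin i → ι) (j : Fin (D + 1)) (L J : Fin j → ι),
      (RK D g (M *ᵥ (Pi.single ⟨i, (L', I)⟩ 1))) ⟨j, (L, J)⟩ =
        (TP g j * blkK M j i J I) L L' := by
    intro i L' I j L J
    rw [RK_apply, tpow_apply, Matrix.mul_apply]
    refine Finset.sum_congr rfl fun L'' _ => ?_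
    congr 1
    rw [Matrix.mulVec_single_one]
    rfl
  constructor
  · intro h j i J I
    ext L L'
    rw [← h1, ← h3, h]
  · intro h v
    have h4 : v = ∑ a, v a • (Pi.single a (1 : K) : EK ι D → K) := by
      funext b
      rw [Finset.sum_apply, Finset.sum_eq_single b]
      · simp
      · intro a _ ha
        rw [Pi.smul_apply, Pi.single_eq_of_ne (Ne.symm ha), smul_zero]
      · intro h; exact absurd (Finset.mem_univ _) h
    rw [h4]
    simp only [map_sum, map_smul, Matrix.mulVec_sum, Matrix.mulVec_smul]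
    refine Finset.sum_congr rfl fun a _ => ?_
    congr 1
    funext b
    obtain ⟨i, L', I⟩ := a
    obtain ⟨j, L, J⟩ := b
    rw [h1, h3, h]

/-- The inclusion of a summand. -/
noncomputable def inK (D : ℕ) (i : Fin (D + 1)) (I : Fin i → ι) :
    ((Fin i → ι) → K) →ₗ[K] (EK ι D → K) where
  toFun t a := if h : a.1 = i then (if h ▸ a.2.2 = I then t (h ▸ a.2.1) else 0) else 0
  map_add' s t := by
    funext a
    obtain ⟨j, b⟩ := a
    by_cases h : j = i
    · subst h
      by_cases h' : b.2 = I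
      · simp [h']
      · simp [h']
    · simp [h]
  map_smul' c t := by
    funext a
    obtain ⟨j, b⟩ := a
    by_cases h : j = i
    · subst h
      by_cases h' : b.2 = I
      · simp [h']
      · simp [h']
    · simp [h]

lemma inK_same (i : Fin (D + 1)) (I L : Fin i → ι) (t : (Fin i → ι) → K) :
    inK D i I t ⟨i, (L, I)⟩ = t L := by
  simp [inK]

lemma inK_ne (i : Fin (D + 1)) (I L I' : Fin i → ι) (t : (Fin i → ι) → K) (h : I' ≠ I) :
    inK D i I t ⟨i, (L, I')⟩ = 0 := by
  simp [inK, h]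

lemma inK_ne' (i j : Fin (D + 1)) (I : Fin i → ι) (t : (Fin i → ι) → K) (h : j ≠ i)
    (b : (Fin j → ι) × (Fin j → ι)) : inK D i I t ⟨j, b⟩ = 0 := by
  simp [inK, h]

lemma inK_inj (i : Fin (D + 1)) (I : Fin i → ι) : Function.Injective (inK (K := K) D i I) := by
  intro s t h
  funext L
  rw [← inK_same i I L s, h, inK_same]

lemma RK_inK (g : Matrix ι ι K) (i : Fin (D + 1)) (I : Fin i → ι) (t : (Fin i → ι) → K) :
    RK D g (inK D i I t) = inK D i I (tpow g i t) := by
  funext a
  obtain ⟨j, L, I'⟩ := a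
  rw [RK_apply]
  by_cases h : j = i
  · subst h
    by_cases h' : I' = I
    · subst h'
      rw [inK_same]
      simp only [inK_same]
    · rw [inK_ne _ _ _ _ _ h']
      have h1 : (fun J => inK D j I t ⟨j, (J, I')⟩) = 0 := by
        funext J
        exact inK_ne _ _ _ _ _ h'
      change tpow g j (fun J => inK D j I t ⟨j, (J, I')⟩) L = 0
      rw [h1, map_zero]
      rfl
  · rw [inK_ne' _ _ _ _ h]
    have h1 : (fun J => inK D i I t ⟨j, (J, I')⟩) = 0 := by
      funext J
      exact inK_ne' _ _ _ _ h _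
    change tpow g j (fun J => inK D i I t ⟨j, (J, I')⟩) L = 0
    rw [h1, map_zero]
    rfl

lemma sum_inK (e : EK ι D → K) :
    e = ∑ a : Σ i : Fin (D + 1), (Fin i → ι), inK D a.1 a.2 fun J => e ⟨a.1, (J, a.2)⟩ := by
  funext b
  obtain ⟨i, J, I⟩ := b
  rw [Finset.sum_apply, Finset.sum_eq_single ⟨i, I⟩]
  · rw [inK_same]
  · rintro ⟨i', I'⟩ _ hne
    by_cases h : i = i'
    · subst h
      rw [inK_ne]
      intro h
      apply hne
      rw [h]
    · exact inK_ne' _ _ _ _ h _
  · intro h; exact absurd (Finset.mem_univ _) h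

end Pool.Agent.Q60.TD
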