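import Mathlib

/-!
# Semisimple actions of sets of operators
-/

namespace Pool.Agent.Q60.TD

open Module

variable {K V V' : Type*} [Field K] [AddCommGroup V] [Module K V] [AddCommGroup V'] [Module K V']

/-- The subspace `W` is stable under the operators in `N`. -/
def Stab (N : Set (Module.End K V)) (W : Submodule K V) : Prop := ∀ f ∈ N, ∀ w ∈ W, f w ∈ W

/-- Every stable subspace of `U` has a stable complement in `U`. -/
def SSon (N : Set (Module.End K V)) (U : Submodule K V) : Prop :=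
  ∀ W ≤ U, Stab N W → ∃ C ≤ U, Stab N C ∧ W ⊓ C = ⊥ ∧ W ⊔ C = U

variable {N : Set (Module.End K V)} {U W C : Submodule K V}

lemma Stab.sup (h : Stab N U) (h' : Stab N W) : Stab N (U ⊔ W) := by
  intro f hf w hw
  obtain ⟨a, ha, b, hb, rfl⟩ := Submodule.mem_sup.1 hw
  rw [map_add]
  exact Submodule.add_mem_sup (h f hf a ha) (h' f hf b hb)

lemma Stab.inf (h : Stab N U) (h' : Stab N W) : Stab N (U ⊓ W) :=
  fun f hf w hw => ⟨h f hf w hw.1, h' f hf w hw.2⟩

lemma stab_bot : Stab N (⊥ : Submodule K V) := by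
  intro f _ w hw
  rw [(Submodule.mem_bot K).1 hw, map_zero]
  exact Submodule.zero_mem _

lemma stab_top : Stab N (⊤ : Submodule K V) := fun _ _ _ _ => trivial

lemma Stab.mono {N' : Set (Module.End K V)} (h : Stab N U) (hN : N' ⊆ N) : Stab N' U :=
  fun f hf => h f (hN hf)

lemma stab_iSup {α : Type*} {F : α → Submodule K V} (h : ∀ i, Stab N (F i)) :
    Stab N (⨆ i, F i) := by
  intro f hf w hw
  refine Submodule.iSup_induction F (motive := fun w => f w ∈ ⨆ i, F i) hw ?_ ?_ ?_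
  · intro i x hx
    exact Submodule.mem_iSup_of_mem i (h i f hf x hx)
  · rw [map_zero]; exact Submodule.zero_mem _
  · intro a b ha hb; rw [map_add]; exact Submodule.add_mem _ ha hb

/-- Stable subspaces of semisimple subspaces are semisimple. -/
lemma SSon.mono (h : SSon N U) (hW : W ≤ U) (hs : Stab N W) : SSon N W := by
  intro X hX hXs
  obtain ⟨C, hC, hCs, h1, h2⟩ := h X (hX.trans hW) hXs
  refine ⟨C ⊓ W, inf_le_right, hCs.inf hs, ?_, ?_⟩
  · rw [← inf_assoc, h1, bot_inf_eq]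
  · rw [← sup_inf_assoc_of_le C hX, h2, inf_eq_right.2 hW]

/-- The sum of two semisimple subspaces is semisimple. -/
lemma SSon.sup (h : SSon N U) (hs : Stab N U) (h' : SSon N W) (hs' : Stab N W) :
    SSon N (U ⊔ W) := by
  intro X hX hXs
  obtain ⟨C₁, hC₁, hCs₁, h1, h2⟩ := h (U ⊓ X) inf_le_left (hs.inf hXs)
  obtain ⟨C₂, hC₂, hCs₂, h3, h4⟩ := h' (W ⊓ (X ⊔ U)) inf_le_left (hs'.inf (hXs.sup hs))
  have e1 : X ⊔ C₁ = X ⊔ U := by
    apply le_antisymm (sup_le_sup_left hC₁ X)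
    rw [← h2]
    refine sup_le le_sup_left (sup_le (inf_le_right.trans le_sup_left) le_sup_right)
  have e2 : X ⊓ C₁ = ⊥ := by
    rw [eq_bot_iff, ← h1]
    exact le_inf (le_inf (inf_le_right.trans hC₁) inf_le_left) inf_le_right
  have e3 : (X ⊔ U) ⊔ C₂ = U ⊔ W := by
    apply le_antisymm
    · exact sup_le (sup_le hX le_sup_left) (hC₂.trans le_sup_right)
    · refine sup_le (le_sup_right.trans le_sup_left) ?_
      rw [← h4]
      exact sup_le (inf_le_right.trans le_sup_left) le_sup_right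
  have e4 : (X ⊔ U) ⊓ C₂ = ⊥ := by
    rw [eq_bot_iff, ← h3]
    exact le_inf (le_inf (inf_le_right.trans hC₂) inf_le_left) inf_le_right
  refine ⟨C₁ ⊔ C₂, sup_le_sup hC₁ hC₂, hCs₁.sup hCs₂, ?_, ?_⟩
  · rw [eq_bot_iff]
    rintro x ⟨hx, hx'⟩
    obtain ⟨a, ha, b, hb, rfl⟩ := Submodule.mem_sup.1 hx'
    have hb' : b ∈ (X ⊔ U) ⊓ C₂ := by
      refine ⟨?_, hb⟩
      have h5 : b = (a + b) - a := by abel
      rw [h5]
      exact Submodule.sub_mem _ (Submodule.mem_sup_left hx) (Submodule.mem_sup_right (hC₁ ha))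
    rw [e4, Submodule.mem_bot] at hb'
    rw [hb', add_zero] at hx ⊢
    have ha' : a ∈ X ⊓ C₁ := ⟨hx, ha⟩
    rwa [e2] at ha'
  · rw [← sup_assoc, e1, e3]

/-- A finite sum of semisimple subspaces is semisimple. -/
lemma SSon.finset_sup {α : Type*} (s : Finset α) {F : α → Submodule K V}
    (h : ∀ i ∈ s, SSon N (F i)) (hs : ∀ i ∈ s, Stab N (F i)) :
    SSon N (s.sup F) ∧ Stab N (s.sup F) := by
  classical
  induction s using Finset.induction_on with
  | empty =>
    rw [Finset.sup_empty]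
    refine ⟨fun W hW _ => ⟨⊥, le_rfl, stab_bot, by rw [inf_bot_eq], ?_⟩, stab_bot⟩
    rw [sup_bot_eq]
    exact le_bot_iff.1 hW
  | insert i s hi ih =>
    rw [Finset.sup_insert]
    obtain ⟨h1, h2⟩ := ih (fun j hj => h j (Finset.mem_insert_of_mem hj))
      (fun j hj => hs j (Finset.mem_insert_of_mem hj))
    exact ⟨(h i (Finset.mem_insert_self _ _)).sup (hs i (Finset.mem_insert_self _ _)) h1 h2,
      (hs i (Finset.mem_insert_self _ _)).sup h2⟩

/-- The subspace `W` is simple. -/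
def Smp (N : Set (Module.End K V)) (W : Submodule K V) : Prop :=
  W ≠ ⊥ ∧ Stab N W ∧ ∀ X ≤ W, Stab N X → X ≠ ⊥ → X = W

lemma Smp.ss (h : Smp N W) : SSon N W := by
  intro X hX hXs
  by_cases h0 : X = ⊥
  · exact ⟨W, le_rfl, h.2.1, by rw [h0, bot_inf_eq], by rw [h0, bot_sup_eq]⟩
  · rw [h.2.2 X hX hXs h0]
    exact ⟨⊥, bot_le, stab_bot, by rw [inf_bot_eq], by rw [sup_bot_eq]⟩

lemma exists_smp [FiniteDimensional K V] (h : Stab N W) (h0 : W ≠ ⊥) : ∃ X ≤ W, Smp N X := by
  classical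
  have hex : ∃ d : ℕ, ∃ X : Submodule K V, Stab N X ∧ X ≤ W ∧ X ≠ ⊥ ∧ finrank K X = d :=
    ⟨_, W, h, le_rfl, h0, rfl⟩
  obtain ⟨X, hX, hXW, hX0, hXd⟩ := Nat.find_spec hex
  refine ⟨X, hXW, hX0, hX, fun Y hY hYs hY0 => ?_⟩
  have h1 := Nat.find_min' hex ⟨Y, hYs, hY.trans hXW, hY0, rfl⟩
  rw [← hXd] at h1
  exact Submodule.eq_of_le_of_finrank_le hY h1

/-- A finite-dimensional space which is the sum of its simple subspaces is semisimple. -/
lemma ss_of_smp [FiniteDimensional K V] {F : Set (Submodule K V)} (hF : ∀ X ∈ F, Smp N X) :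
    SSon N (sSup F) := by
  obtain ⟨s, hs, h⟩ := CompleteLattice.WellFoundedGT.isSupFiniteCompact
    (Submodule K V) F
  rw [h]
  have := (SSon.finset_sup s (F := id) (fun X hX => (hF X (hs hX)).ss)
    (fun X hX => (hF X (hs hX)).2.1)).1
  exact this

/-- **Clifford's theorem.** The operators in `G` are invertible and normalise `N`, and every
`G`-stable subspace is `N`-stable. If `U` is a semisimple `G`-module then it is a semisimple
`N`-module. -/
theorem clifford [FiniteDimensional K V] {G : Set (Module.End K V)}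
    (hinv : ∀ g ∈ G, ∃ g' ∈ G, g * g' = 1 ∧ g' * g = 1)
    (hnorm : ∀ g ∈ G, ∀ n ∈ N, ∃ n' ∈ N, n * g = g * n')
    (hU : Stab G U) (hst : ∀ W ≤ U, Stab G W → Stab N W) (h : SSon G U) : SSon N U := by
  have hUN : Stab N U := hst U le_rfl hU
  set F : Set (Submodule K V) := {X | X ≤ U ∧ Smp N X} with hF
  have hss : SSon N (sSup F) := ss_of_smp fun X hX => hX.2
  have hle : sSup F ≤ U := sSup_le fun X hX => hX.1
  have hmap : ∀ g ∈ G, ∀ X, Stab N X → Stab N (X.map g) := by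
    intro g hg X hX n hn x hx
    obtain ⟨y, hy, rfl⟩ := hx
    obtain ⟨n', hn', hnn⟩ := hnorm g hg n hn
    have h1 : n (g y) = g (n' y) := LinearMap.congr_fun hnn y
    rw [h1]
    exact ⟨_, hX n' hn' y hy, rfl⟩
  have hGs : Stab G (sSup F) := by
    intro g hg x hx
    rw [sSup_eq_iSup'] at hx ⊢
    refine Submodule.iSup_induction _ (motive := fun x => g x ∈ ⨆ i : F, (i : Submodule K V))
      hx ?_ ?_ ?_
    · intro X x hx
      obtain ⟨g', hg', h1, h2⟩ := hinv g hg
      have e1 : ∀ v, g (g' v) = v := fun v => LinearMap.congr_fun h1 v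
      have e2 : ∀ v, g' (g v) = v := fun v => LinearMap.congr_fun h2 v
      have hX := X.2
      have hmem : X.1.map g ∈ F := by
        refine ⟨?_, ?_, hmap g hg _ hX.2.2.1, ?_⟩
        · rintro _ ⟨y, hy, rfl⟩
          exact hU g hg y (hX.1 hy)
        · intro h0
          apply hX.2.1
          rw [eq_bot_iff]
          intro y hy
          have h3 : g y ∈ X.1.map g := ⟨y, hy, rfl⟩
          rw [h0, Submodule.mem_bot] at h3
          rw [Submodule.mem_bot, ← e2 y, h3, map_zero]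
        · intro Y hY hYs hY0
          have h3 : Y.map g' ≤ X.1 := by
            rintro _ ⟨y, hy, rfl⟩
            obtain ⟨w, hw, rfl⟩ := hY hy
            rw [e2]
            exact hw
          have h4 := hX.2.2.2 (Y.map g') h3 (hmap g' hg' Y hYs) (by
            intro h0
            apply hY0
            rw [eq_bot_iff]
            intro y hy
            have h5 : g' y ∈ Y.map g' := ⟨y, hy, rfl⟩
            rw [h0, Submodule.mem_bot] at h5
            rw [Submodule.mem_bot, ← e1 y, h5, map_zero])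
          apply le_antisymm hY
          rintro _ ⟨w, hw, rfl⟩
          rw [← h4] at hw
          obtain ⟨y, hy, rfl⟩ := hw
          rw [e1]
          exact hy
      exact Submodule.mem_iSup_of_mem (⟨_, hmem⟩ : F) ⟨x, hx, rfl⟩
    · rw [map_zero]; exact Submodule.zero_mem _
    · intro a b ha hb; rw [map_add]; exact Submodule.add_mem _ ha hb
  obtain ⟨C, hC, hCs, h1, h2⟩ := h (sSup F) hle hGs
  have hC0 : C = ⊥ := by
    by_contra h0
    obtain ⟨X, hX, hXs⟩ := exists_smp (hst C hC hCs) h0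
    have h3 : X ≤ sSup F := le_sSup ⟨hX.trans hC, hXs⟩
    apply hXs.1
    rw [eq_bot_iff, ← h1]
    exact le_inf h3 hX
  rw [hC0, sup_bot_eq] at h2
  rw [← h2]
  exact hss

/-- Transport of semisimplicity along injective maps. -/
lemma SSon.map {N' : Set (Module.End K V')} (φ : V →ₗ[K] V') (hφ : Function.Injective φ)
    (h1 : ∀ f ∈ N, ∃ f' ∈ N', ∀ x, f' (φ x) = φ (f x))
    (h2 : ∀ f' ∈ N', ∃ f ∈ N, ∀ x, f' (φ x) = φ (f x)) (h : SSon N U) :
    SSon N' (U.map φ) := by
  intro W hW hWs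
  have hWc : Stab N (W.comap φ) := by
    intro f hf w hw
    obtain ⟨f', hf', h3⟩ := h1 f hf
    rw [Submodule.mem_comap, ← h3]
    exact hWs f' hf' _ hw
  have hWU : W.comap φ ≤ U := by
    intro x hx
    obtain ⟨y, hy, hyx⟩ := hW hx
    rw [← hφ hyx]
    exact hy
  have hWm : (W.comap φ).map φ = W := by
    rw [Submodule.map_comap_eq, inf_eq_right]
    intro x hx
    obtain ⟨y, _, rfl⟩ := hW hx
    exact ⟨y, rfl⟩
  obtain ⟨C, hC, hCs, h3, h4⟩ := h _ hWU hWc
  refine ⟨C.map φ, Submodule.map_mono hC, ?_, ?_, ?_⟩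
  · intro f' hf' w hw
    obtain ⟨y, hy, rfl⟩ := hw
    obtain ⟨f, hf, h5⟩ := h2 f' hf'
    rw [h5]
    exact ⟨_, hCs f hf y hy, rfl⟩
  · conv_lhs => rw [← hWm]
    rw [← Submodule.map_inf φ hφ, h3, Submodule.map_bot]
  · conv_lhs => rw [← hWm]
    rw [← Submodule.map_sup, h4]

/-- Transport of semisimplicity along injective maps, in the other direction. -/
lemma SSon.comap {N' : Set (Module.End K V')} (φ : V →ₗ[K] V') (hφ : Function.Injective φ)
    (h1 : ∀ f ∈ N, ∃ f' ∈ N', ∀ x, f' (φ x) = φ (f x))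
    (h2 : ∀ f' ∈ N', ∃ f ∈ N, ∀ x, f' (φ x) = φ (f x)) (h : SSon N' (U.map φ)) :
    SSon N U := by
  intro W hW hWs
  have hWm : Stab N' (W.map φ) := by
    intro f' hf' w hw
    obtain ⟨y, hy, rfl⟩ := hw
    obtain ⟨f, hf, h5⟩ := h2 f' hf'
    rw [h5]
    exact ⟨_, hWs f hf y hy, rfl⟩
  obtain ⟨C, hC, hCs, h3, h4⟩ := h _ (Submodule.map_mono hW) hWm
  refine ⟨C.comap φ, ?_, ?_, ?_, ?_⟩
  · intro x hx
    obtain ⟨y, hy, hyx⟩ := hC hx
    rw [← hφ hyx]
    exact hy
  · intro f hf w hw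
    obtain ⟨f', hf', h5⟩ := h1 f hf
    rw [Submodule.mem_comap, ← h5]
    exact hCs f' hf' _ hw
  · rw [eq_bot_iff]
    rintro x ⟨hx, hx'⟩
    have h5 : φ x ∈ W.map φ ⊓ C := ⟨⟨x, hx, rfl⟩, hx'⟩
    rw [h3, Submodule.mem_bot] at h5
    rw [Submodule.mem_bot]
    exact hφ (h5.trans (map_zero φ).symm)
  · apply le_antisymm
    · refine sup_le hW ?_
      intro x hx
      obtain ⟨y, hy, hyx⟩ := hC hx
      rw [← hφ hyx]
      exact hy
    · intro x hx
      have h5 : φ x ∈ W.map φ ⊔ C := by rw [h4]; exact ⟨x, hx, rfl⟩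
      obtain ⟨a, ha, b, hb, hab⟩ := Submodule.mem_sup.1 h5
      obtain ⟨w, hw, rfl⟩ := ha
      refine Submodule.mem_sup.2 ⟨w, hw, x - w, ?_, by abel⟩
      rw [Submodule.mem_comap, map_sub, ← hab, add_sub_cancel_left]
      exact hb

end Pool.Agent.Q60.TD
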