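import Pool.Agent.Q60.TD.Cart
import Pool.Agent.Q60.TD.Rep2
import Pool.Agent.Q60.ED.TP

/-!
# Averaging over the stabiliser of a system of tensors
-/

set_option linter.unusedSectionVars false

namespace Pool.Agent.Q60.TD

open MvPolynomial Algebra Module Matrix Pool.Agent.Q60.ED

variable {K : Type} [Field K] {ι : Type} [Fintype ι] [DecidableEq ι]

lemma TP_map' {R R' : Type} [CommSemiring R] [CommSemiring R'] (σ : R →+* R') (g : Matrix ι ι R)
    (n : ℕ) : TP (g.map σ) n = (TP g n).map σ := by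
  ext I J
  rw [Matrix.map_apply, TP_apply, TP_apply, map_prod]
  rfl

/-- The generic matrix. -/
noncomputable def XM : Matrix ι ι (MvPolynomial (ι × ι) K) := Matrix.of fun a b => X (a, b)

/-- The adjoint of the generic matrix with respect to a form. -/
noncomputable def YM (Ω : Matrix ι ι K) : Matrix ι ι (MvPolynomial (ι × ι) K) :=
  Ω.map (C : K →+* _) * XM.transpose * Ω⁻¹.map (C : K →+* _)

/-- The generic conjugate of an operator. -/
noncomputable def GP (Ω : Matrix ι ι K) {n : ℕ} (M : Matrix (Fin n → ι) (Fin n → ι) K) :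
    Matrix (Fin n → ι) (Fin n → ι) (MvPolynomial (ι × ι) K) :=
  TP XM n * M.map (C : K →+* _) * TP (YM Ω) n

lemma XM_ev (h : Matrix ι ι K) : XM.map (evM h : MvPolynomial (ι × ι) K →+* K) = h := by
  ext a b
  rw [Matrix.map_apply]
  exact evM_X h (a, b)

lemma map_C_ev {A B : Type} (h : Matrix ι ι K) (M : Matrix A B K) :
    (M.map (C : K →+* MvPolynomial (ι × ι) K)).map (evM h : MvPolynomial (ι × ι) K →+* K) = M := by
  ext a b
  rw [Matrix.map_apply, Matrix.map_apply]
  exact evM_C h _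

lemma YM_ev (Ω h : Matrix ι ι K) :
    (YM Ω).map (evM h : MvPolynomial (ι × ι) K →+* K) = Ω * h.transpose * Ω⁻¹ := by
  rw [YM, Matrix.map_mul, Matrix.map_mul, map_C_ev, map_C_ev, Matrix.transpose_map, XM_ev]

lemma GP_ev (Ω : Matrix ι ι K) {n : ℕ} (M : Matrix (Fin n → ι) (Fin n → ι) K)
    (h : Matrix ι ι K) : (GP Ω M).map (evM h : MvPolynomial (ι × ι) K →+* K) =
      TP h n * M * TP (Ω * h.transpose * Ω⁻¹) n := by
  rw [GP, Matrix.map_mul, Matrix.map_mul, map_C_ev, ← TP_map', ← TP_map', XM_ev, YM_ev]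

lemma GP_ev' (Ω : Matrix ι ι K) {n : ℕ} (M : Matrix (Fin n → ι) (Fin n → ι) K)
    (h : Matrix ι ι K) (I J : Fin n → ι) : evM h (GP Ω M I J) =
      (TP h n * M * TP (Ω * h.transpose * Ω⁻¹) n) I J := by
  rw [← GP_ev]
  rfl

/-- Left translation. -/
noncomputable def lrho (h : Matrix ι ι K) : MvPolynomial (ι × ι) K →ₐ[K] MvPolynomial (ι × ι) K :=
  aeval fun p => ∑ k, C (h p.1 k) * X (k, p.2)

lemma evM_lrho (g h : Matrix ι ι K) (f : MvPolynomial (ι × ι) K) :
    evM g (lrho h f) = evM (h * g) f := by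
  have h1 : (evM g).comp (lrho h) = evM (h * g) := by
    refine MvPolynomial.algHom_ext fun p => ?_
    rw [AlgHom.comp_apply, lrho, aeval_X, map_sum, evM_X, Matrix.mul_apply]
    refine Finset.sum_congr rfl fun k _ => ?_
    rw [map_mul, evM_X, evM_C]
  rw [← h1, AlgHom.comp_apply]

lemma lrho_mon (h : Matrix ι ι K) {n : ℕ} (I J : Fin n → ι) :
    lrho h (mon I J) = ∑ L, C (∏ k, h (I k) (L k)) * mon L J := by
  rw [mon, map_prod]
  simp only [lrho, aeval_X]
  rw [Finset.prod_univ_sum]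
  rw [← Finset.sum_subset (Finset.subset_univ (Fintype.piFinset fun _ => Finset.univ))]
  · refine Finset.sum_congr rfl fun L _ => ?_
    rw [Finset.prod_mul_distrib, mon, map_prod]
  · intro L _ hL
    exact absurd (Fintype.mem_piFinset.2 fun _ => Finset.mem_univ _) hL

variable (T : TSys K ι)

lemma lam_C (c : K) : T.lam (C c) = c := by
  have h5 : (C c : MvPolynomial (ι × ι) K) = c • 1 := by
    rw [smul_eq_C_mul, mul_one]
  rw [h5, map_smul, T.lam_one, smul_eq_mul, mul_one]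

lemma lam_lrho {h : Matrix ι ι K} (hh : Fix T.S h) (f : MvPolynomial (ι × ι) K) :
    T.lam (lrho h f) = T.lam f := by
  rw [f.as_sum, map_sum, map_sum, map_sum]
  refine Finset.sum_congr rfl fun v _ => ?_
  obtain ⟨n, I, J, hv⟩ := TSys.exists_mon (K := K) v
  have h1 : monomial v (coeff v f) = coeff v f • monomial v (1 : K) := by
    rw [smul_monomial, smul_eq_mul, mul_one]
  rw [h1, hv, map_smul, map_smul, map_smul, lrho_mon, map_sum, T.lam_mon]
  congr 1
  have h2 := congrFun (hh n _ (T.p_mem n (Pi.single J 1))) I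
  rw [← h2, tpow_apply]
  refine Finset.sum_congr rfl fun L _ => ?_
  rw [← smul_eq_C_mul, map_smul, T.lam_mon, smul_eq_mul]

variable {T}

lemma fix_inv {Ω : (Fin 2 → ι) → K} (hΩ : Ω ∈ T.S 2) (hdet : (mat2 Ω).det ≠ 0)
    {h : Matrix ι ι K} (hh : Fix T.S h) : h * (mat2 Ω * h.transpose * (mat2 Ω)⁻¹) = 1 := by
  have h1 := tpow_two h Ω
  rw [hh 2 Ω hΩ] at h1
  rw [← Matrix.mul_assoc, ← Matrix.mul_assoc, ← h1,
    Matrix.mul_nonsing_inv _ (isUnit_iff_ne_zero.2 hdet)]

lemma TP_inv {g g' : Matrix ι ι K} (h : g * g' = 1) (n : ℕ) : TP g n * TP g' n = 1 := by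
  rw [← TP_mul, h, TP_one]

/-- **Averaging.** A subspace which is stable under the stabiliser of a system of tensors is the
image of a projection which commutes with the stabiliser. -/
theorem exists_avg [IsAlgClosed K] [CharZero K] {Ω : (Fin 2 → ι) → K} (hΩ : Ω ∈ T.S 2)
    (hdet : (mat2 Ω).det ≠ 0) {n : ℕ} {W : Submodule K ((Fin n → ι) → K)}
    (hW : ∀ h, Fix T.S h → ∀ w ∈ W, tpow h n w ∈ W) :
    ∃ p : ((Fin n → ι) → K) →ₗ[K] ((Fin n → ι) → K), (∀ w ∈ W, p w = w) ∧ (∀ v, p v ∈ W) ∧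
      ∀ h, Fix T.S h → ∀ v, p (tpow h n v) = tpow h n (p v) := by
  obtain ⟨p₀, hp1, -, hp3⟩ := exists_pr (W := W) (C := ⊥) (inf_bot_eq W)
  set M : Matrix (Fin n → ι) (Fin n → ι) K := LinearMap.toMatrix' p₀ with hM
  have hMv : ∀ v, M.mulVec v = p₀ v := fun v => by
    rw [hM, ← Matrix.toLin'_apply, Matrix.toLin'_toMatrix']
  set Pr : Matrix (Fin n → ι) (Fin n → ι) K := (GP (mat2 Ω) M).map T.lam with hPi
  have hPa : ∀ I J, Pr I J = T.lam (GP (mat2 Ω) M I J) := fun I J => rfl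
  have hlam : ∀ f : MvPolynomial (ι × ι) K, (∀ h, Fix T.S h → evM h f = 0) → T.lam f = 0 :=
    fun f hf => T.lam_IS (mem_IS hΩ hdet hf)
  refine ⟨Matrix.toLin' Pr, ?_, ?_, ?_⟩
  · intro w hw
    funext I
    rw [Matrix.toLin'_apply, Matrix.mulVec, dotProduct]
    have h1 : T.lam (∑ J, C (w J) * GP (mat2 Ω) M I J - C (w I)) = 0 := by
      apply hlam
      intro h hh
      rw [map_sub, map_sum, evM_C]
      simp only [map_mul, evM_C, GP_ev']
      have h2 : ∑ J, w J * (TP h n * M * TP (mat2 Ω * h.transpose * (mat2 Ω)⁻¹) n) I J =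
          ((TP h n * M * TP (mat2 Ω * h.transpose * (mat2 Ω)⁻¹) n).mulVec w) I := by
        rw [Matrix.mulVec, dotProduct]
        exact Finset.sum_congr rfl fun J _ => mul_comm _ _
      rw [h2, ← Matrix.mulVec_mulVec, ← Matrix.mulVec_mulVec, hMv]
      have hh' : Fix T.S (mat2 Ω * h.transpose * (mat2 Ω)⁻¹) := by
        have hd := fix_det hΩ hdet hh
        have h3 : mat2 Ω * h.transpose * (mat2 Ω)⁻¹ = h⁻¹ :=
          (Matrix.inv_eq_right_inv (fix_inv hΩ hdet hh)).symm
        rw [h3]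
        exact fun m s hs => tpow_inv hd (hh m s hs)
      have h3 : (TP (mat2 Ω * h.transpose * (mat2 Ω)⁻¹) n).mulVec w ∈ W := hW _ hh' w hw
      rw [hp1 _ h3, Matrix.mulVec_mulVec, TP_inv (fix_inv hΩ hdet hh), Matrix.one_mulVec,
        sub_self]
    rw [map_sub, map_sum, lam_C, sub_eq_zero] at h1
    rw [← h1]
    refine Finset.sum_congr rfl fun J _ => ?_
    rw [hPa, ← smul_eq_C_mul, map_smul, smul_eq_mul, mul_comm]
  · intro v
    rw [← Subspace.forall_mem_dualAnnihilator_apply_eq_zero_iff]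
    intro φ hφ
    rw [Submodule.mem_dualAnnihilator] at hφ
    have hφs : ∀ x : (Fin n → ι) → K, φ x = ∑ I, x I * φ (Pi.single I 1) := by
      intro x
      conv_lhs => rw [← TSys.sum_single x, map_sum]
      exact Finset.sum_congr rfl fun I _ => by rw [map_smul, smul_eq_mul]
    have h1 : T.lam (∑ I, C (φ (Pi.single I 1)) * ∑ J, C (v J) * GP (mat2 Ω) M I J) = 0 := by
      apply hlam
      intro h hh
      rw [map_sum]
      simp only [map_mul, map_sum, evM_C, GP_ev']
      have h2 : ∀ I, ∑ J, v J * (TP h n * M * TP (mat2 Ω * h.transpose * (mat2 Ω)⁻¹) n) I J =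
          ((TP h n * M * TP (mat2 Ω * h.transpose * (mat2 Ω)⁻¹) n).mulVec v) I := by
        intro I
        rw [Matrix.mulVec, dotProduct]
        exact Finset.sum_congr rfl fun J _ => mul_comm _ _
      simp only [h2]
      have h3 := hφs ((TP h n * M * TP (mat2 Ω * h.transpose * (mat2 Ω)⁻¹) n).mulVec v)
      simp only [mul_comm (φ _)]
      rw [← h3]
      apply hφ
      rw [← Matrix.mulVec_mulVec, ← Matrix.mulVec_mulVec, hMv]
      exact hW h hh _ (hp3 _)
    rw [hφs, ← h1, map_sum]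
    refine Finset.sum_congr rfl fun I _ => ?_
    rw [← smul_eq_C_mul, map_smul, map_sum, smul_eq_mul, mul_comm, Matrix.toLin'_apply,
      Matrix.mulVec, dotProduct]
    congr 1
    refine Finset.sum_congr rfl fun J _ => ?_
    rw [hPa, ← smul_eq_C_mul, map_smul, smul_eq_mul, mul_comm]
  · intro h₀ hh₀ v
    have hi₀ := fix_inv hΩ hdet hh₀
    set h₀' := mat2 Ω * h₀.transpose * (mat2 Ω)⁻¹ with hh₀'
    have key : Pr = TP h₀ n * Pr * TP h₀' n := by
      ext I J
      rw [hPa, ← lam_lrho T hh₀]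
      have h1 : T.lam (lrho h₀ (GP (mat2 Ω) M I J) -
          ∑ J', (∑ I', C (TP h₀ n I I') * GP (mat2 Ω) M I' J') * C (TP h₀' n J' J)) = 0 := by
        apply hlam
        intro h hh
        rw [map_sub, evM_lrho, GP_ev', map_sum]
        simp only [map_mul, map_sum, evM_C, GP_ev']
        have h2 : mat2 Ω * (h₀ * h).transpose * (mat2 Ω)⁻¹ =
            (mat2 Ω * h.transpose * (mat2 Ω)⁻¹) * h₀' := by
          rw [hh₀', Matrix.transpose_mul]
          simp only [Matrix.mul_assoc]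
          rw [← Matrix.mul_assoc (mat2 Ω)⁻¹ (mat2 Ω),
            Matrix.nonsing_inv_mul _ (isUnit_iff_ne_zero.2 hdet), Matrix.one_mul]
        rw [h2, TP_mul, TP_mul]
        have h3 : TP h₀ n * TP h n * M * (TP (mat2 Ω * h.transpose * (mat2 Ω)⁻¹) n * TP h₀' n) =
            TP h₀ n * (TP h n * M * TP (mat2 Ω * h.transpose * (mat2 Ω)⁻¹) n) * TP h₀' n := by
          simp only [Matrix.mul_assoc]
        rw [h3, Matrix.mul_apply, sub_eq_zero]
        refine Finset.sum_congr rfl fun J' _ => ?_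
        rw [Matrix.mul_apply]
      rw [map_sub, sub_eq_zero] at h1
      rw [h1, map_sum, Matrix.mul_apply]
      refine Finset.sum_congr rfl fun J' _ => ?_
      rw [mul_comm _ (C _), ← smul_eq_C_mul, map_smul, map_sum, smul_eq_mul, mul_comm,
        Matrix.mul_apply]
      congr 1
      refine Finset.sum_congr rfl fun I' _ => ?_
      rw [← smul_eq_C_mul, map_smul, smul_eq_mul, hPa]
    have hi₀' : h₀' * h₀ = 1 := mul_eq_one_comm.1 hi₀
    have h4 : Pr * TP h₀ n = TP h₀ n * Pr := by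
      conv_lhs => rw [key]
      rw [Matrix.mul_assoc, TP_inv hi₀', Matrix.mul_one]
    rw [Matrix.toLin'_apply, Matrix.toLin'_apply, tpow_eq, tpow_eq, Matrix.mulVec_mulVec,
      Matrix.mulVec_mulVec, h4]

end Pool.Agent.Q60.TD
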