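import Pool.Agent.Q60.TD.Grp

/-!
# The one-parameter families of the Weil elements control the subgroups of finite index
-/

set_option linter.unusedSectionVars false

namespace Pool.Agent.Q60.TD

open Polynomial Module Matrix Pool.Agent.Q60.ED Pool.Agent.Q56.FD

variable {K : Type} [Field K] [CharZero K] {ι : Type} [Fintype ι] [DecidableEq ι] {Γ : Type*}
  [Group Γ] {L : Type} [Field L] [Algebra K L] {R : MRep K ι Γ} {b : ℕ}

/-- Conjugation of generalised eigenvectors. -/
lemma gen_conj {V : Type*} [AddCommGroup V] [Module L V] {T P P' : Module.End L V}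
    (h : P * P' = 1) {μ : L} {v : V} (hv : v ∈ T.maxGenEigenspace μ) :
    P' v ∈ (P' * T * P).maxGenEigenspace μ := by
  rw [Module.End.mem_maxGenEigenspace] at hv ⊢
  obtain ⟨N, hN⟩ := hv
  have key : ∀ k, ((P' * T * P - μ • (1 : Module.End L V)) ^ k) (P' v) =
      P' (((T - μ • (1 : Module.End L V)) ^ k) v) := by
    intro k
    induction k with
    | zero => rw [pow_zero, pow_zero]; rfl
    | succ k ih =>
      rw [pow_succ', Module.End.mul_apply, ih, pow_succ', Module.End.mul_apply]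
      set u := ((T - μ • (1 : Module.End L V)) ^ k) v
      have h1 : P (P' u) = u := LinearMap.congr_fun h u
      simp only [LinearMap.sub_apply, Module.End.mul_apply, LinearMap.smul_apply,
        Module.End.one_apply, h1, map_sub, map_smul]
  exact ⟨N, by rw [key, hN, map_zero]⟩

lemma prod_zpow' {z : L} (hz : z ≠ 0) {n : ℕ} (c : Fin n → ℤ) :
    ∏ k, z ^ c k = z ^ ∑ k, c k := by
  classical
  have h : ∀ s : Finset (Fin n), ∏ k ∈ s, z ^ c k = z ^ ∑ k ∈ s, c k := by
    intro s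
    induction s using Finset.induction_on with
    | empty => simp
    | insert a s ha ih => rw [Finset.prod_insert ha, Finset.sum_insert ha, ih, zpow_add₀ hz]
  exact h _

lemma sg_eq (j : ι) : sg R L j = (fun m : ℕ => (-1 : L) ^ m) (R.a j) := rfl

lemma sg_diag (N : ND R L b) : diagonal (sg R L) =
    N.B * diagonal (fun j => (-1 : L) ^ (N.dg' j)) * N.B' :=
  N.diag_eq (fun m : ℕ => (-1 : L) ^ m)

lemma rr_inv (x : GG R L) : rr R L x * rr R L x⁻¹ = 1 := by
  rw [← map_mul, mul_inv_cancel, map_one]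

lemma rr_inv' (x : GG R L) : rr R L x⁻¹ * rr R L x = 1 := by
  rw [← map_mul, inv_mul_cancel, map_one]

lemma rr_conj (x : GG R L) (g : Γ) :
    rr R L x⁻¹ * R.AL L g * rr R L x = R.AL L (x.1.1⁻¹ * g * x.1.1) := by
  have h1 : rr R L x⁻¹ = R.AL L x.1.1⁻¹ * diagonal (fun i => (x.1.2 : L) ^ (R.a i)) := by
    rw [rr_apply]
    have h2 : diagonal (fun i => (((x⁻¹ : GG R L).1.2 : L)⁻¹) ^ (R.a i)) =
        diagonal (fun i => (x.1.2 : L) ^ (R.a i)) := by
      congr 1
      funext i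
      have h3 : ((x⁻¹ : GG R L).1.2 : L) = (x.1.2 : L)⁻¹ := Units.val_inv_eq_inv_val _
      rw [h3, inv_inv]
    rw [h2, R.AL_comm _ (fun m => (x.1.2 : L) ^ m)]
    rfl
  rw [h1, rr_apply, R.AL_mul, R.AL_mul]
  have h2 := R.AL_comm g (fun m => (x.1.2 : L) ^ m)
  have h3 : diagonal (fun i => (x.1.2 : L) ^ (R.a i)) *
      diagonal (fun i => ((x.1.2 : L)⁻¹) ^ (R.a i)) = 1 := by
    rw [diagonal_mul_diagonal, ← diagonal_one]
    congr 1
    funext i
    rw [← mul_pow, mul_inv_cancel₀ x.1.2.ne_zero, one_pow]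
  calc R.AL L x.1.1⁻¹ * diagonal (fun i => (x.1.2 : L) ^ (R.a i)) * R.AL L g *
        (diagonal (fun i => ((x.1.2 : L)⁻¹) ^ (R.a i)) * R.AL L x.1.1)
      = R.AL L x.1.1⁻¹ * (diagonal (fun i => (x.1.2 : L) ^ (R.a i)) * R.AL L g) *
        diagonal (fun i => ((x.1.2 : L)⁻¹) ^ (R.a i)) * R.AL L x.1.1 := by
        simp only [Matrix.mul_assoc]
    _ = R.AL L x.1.1⁻¹ * R.AL L g * (diagonal (fun i => (x.1.2 : L) ^ (R.a i)) *
        diagonal (fun i => ((x.1.2 : L)⁻¹) ^ (R.a i))) * R.AL L x.1.1 := by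
        rw [h2]; simp only [Matrix.mul_assoc]
    _ = _ := by rw [h3, Matrix.mul_one]

/-- Conjugation of the Weil elements with their bases. -/
noncomputable def ND.conj (N : ND R L b) (x : GG R L) : ND R L b where
  g := x.1.1⁻¹ * N.g * x.1.1
  p := N.p
  hp := N.hp
  e := N.e
  Q := N.Q
  he := N.he
  hχ := by
    have h1 : R.χ (x.1.1⁻¹ * N.g * x.1.1) = R.χ N.g := by
      rw [map_mul, map_mul, map_inv]
      exact inv_mul_cancel_comm _ _
    rw [h1]
    exact N.hχ
  hQ := N.hQ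
  hb := N.hb
  hk := by
    intro i hi j hj k
    have h1 : (aeval (R.A (x.1.1⁻¹ * N.g * x.1.1)) (N.Q i) : Matrix ι ι K) =
        R.A x.1.1⁻¹ * aeval (R.A N.g) (N.Q i) * R.A x.1.1 := by
      have h2 : R.A x.1.1 * R.A x.1.1⁻¹ = 1 := by rw [← map_mul, mul_inv_cancel, map_one]
      have h2' : R.A x.1.1⁻¹ * R.A x.1.1 = 1 := by rw [← map_mul, inv_mul_cancel, map_one]
      rw [map_mul, map_mul]
      generalize N.Q i = P
      induction P using Polynomial.induction_on' with
      | add P P' hP hP' => rw [map_add, hP, hP', map_add, Matrix.mul_add, Matrix.add_mul]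
      | monomial n c =>
        have h3 : (R.A x.1.1⁻¹ * R.A N.g * R.A x.1.1) ^ n =
            R.A x.1.1⁻¹ * R.A N.g ^ n * R.A x.1.1 := by
          induction n with
          | zero => rw [pow_zero, pow_zero, Matrix.mul_one, h2']
          | succ n ih =>
            rw [pow_succ, ih, pow_succ]
            calc R.A x.1.1⁻¹ * R.A N.g ^ n * R.A x.1.1 * (R.A x.1.1⁻¹ * R.A N.g * R.A x.1.1)
                = R.A x.1.1⁻¹ * R.A N.g ^ n * (R.A x.1.1 * R.A x.1.1⁻¹) * R.A N.g *
                  R.A x.1.1 := by simp only [Matrix.mul_assoc]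
              _ = _ := by rw [h2, Matrix.mul_one]; simp only [Matrix.mul_assoc]
        rw [aeval_monomial, aeval_monomial, h3, ← Algebra.smul_def, ← Algebra.smul_def,
          Matrix.mul_smul, Matrix.smul_mul]
    rw [h1, Matrix.mul_apply]
    refine Finset.sum_eq_zero fun l _ => ?_
    by_cases h : R.a l = R.a j
    · have h2 : (R.A x.1.1⁻¹ * aeval (R.A N.g) (N.Q i)) k l = 0 := by
        rw [Matrix.mul_apply]
        exact Finset.sum_eq_zero fun m _ => by
          rw [N.hk i hi l (h.trans hj) m, mul_zero]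
      rw [h2, zero_mul]
    · rw [R.hom _ l j h, mul_zero]
  τ := N.τ
  x := N.x
  B := rr R L x⁻¹ * N.B
  B' := N.B' * rr R L x
  eig := by
    refine ⟨?_, fun j => ?_⟩
    · calc rr R L x⁻¹ * N.B * (N.B' * rr R L x) = rr R L x⁻¹ * (N.B * N.B') * rr R L x := by
            simp only [Matrix.mul_assoc]
        _ = 1 := by rw [N.eig.inv, Matrix.mul_one, rr_inv']
    · rw [← rr_conj, Matrix.toLin'_mul, Matrix.toLin'_mul]
      have h1 := gen_conj (T := Matrix.toLin' (R.AL L N.g)) (P := Matrix.toLin' (rr R L x))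
        (P' := Matrix.toLin' (rr R L x⁻¹)) (by
          rw [Module.End.mul_eq_comp, ← Matrix.toLin'_mul, rr_inv, Matrix.toLin'_one]
          rfl) (N.eig.gen j)
      exact h1
  homB := by
    intro i j hij
    rw [Matrix.mul_apply]
    refine Finset.sum_eq_zero fun k _ => ?_
    by_cases h : R.a i = R.a k
    · rw [N.homB k j (by rw [← h]; exact hij), mul_zero]
    · rw [rr_hom _ h, zero_mul]

variable [IsAlgClosed L]

lemma exists_GG (g : Γ) : ∃ w : GG R L, w.1.1 = g := by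
  obtain ⟨s, hs⟩ := IsAlgClosed.exists_pow_nat_eq (algebraMap K L (R.χ g)) (n := 2) two_pos
  have hs0 : s ≠ 0 := by
    rintro rfl
    rw [zero_pow two_ne_zero] at hs
    have h1 : algebraMap K L (R.χ g : K) ≠ 0 := (_root_.map_ne_zero _).2 (R.χ g).ne_zero
    exact h1 hs.symm
  exact ⟨⟨(g, Units.mk0 s hs0), hs⟩, rfl⟩

/-- The families of the Weil elements. -/
noncomputable def toT (R : MRep K ι Γ) (L : Type) [Field L] [Algebra K L] [IsAlgClosed L]
    {b dX : ℕ} (hM : R.M ≤ 2 * dX) : TRep L ι (GG R L) where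
  ρ := rr R L
  s := sg R L
  s_sq i := by rw [sg, ← mul_pow]; simp
  s_pm i := by
    rcases Nat.even_or_odd (R.a i) with h | h
    · left; rw [sg, h.neg_one_pow]
    · right; rw [sg, h.neg_one_pow]
  z := zz R L
  ρz := rr_zz
  cent g := rr_comm g (fun m => (-1 : L) ^ m)
  d := 2 * ((dX + 1) * b.factorial)
  J := {E : ℕ → Matrix ι ι L // ∃ (N : ND R L b) (ι₀ : letI := N.hp; Qb →+* PadicAlgCl N.p),
    E = N.E (2 * ((dX + 1) * b.factorial)) ι₀}
  E j := j.1
  one := by
    rintro ⟨_, N, ι₀, rfl⟩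
    rw [N.coch_E hM le_rfl ι₀ one_ne_zero]
    simp only [_root_.one_zpow, diagonal_one, Matrix.mul_one]
    exact N.eig.inv
  mul := by
    rintro ⟨_, N, ι₀, rfl⟩ z z' hz hz'
    rw [N.coch_E hM le_rfl ι₀ hz, N.coch_E hM le_rfl ι₀ hz',
      N.coch_E hM le_rfl ι₀ (mul_ne_zero hz hz'), N.conj_diag]
    congr 3
    funext j
    rw [mul_zpow]
  comm := by
    rintro ⟨_, N, ι₀, rfl⟩ z hz
    rw [N.coch_E hM le_rfl ι₀ hz, sg_diag N, N.conj_diag, N.conj_diag]
    congr 3
    funext j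
    exact mul_comm _ _
  conj := by
    rintro g ⟨_, N, ι₀, rfl⟩
    refine ⟨⟨_, N.conj g, ι₀, rfl⟩, fun z hz => ?_⟩
    rw [N.coch_E hM le_rfl ι₀ hz, (N.conj g).coch_E hM le_rfl ι₀ hz]
    change _ = rr R L g * (rr R L g⁻¹ * N.B * _ * (N.B' * rr R L g))
    rw [← Matrix.mul_assoc, ← Matrix.mul_assoc, ← Matrix.mul_assoc, ← Matrix.mul_assoc, rr_inv,
      Matrix.one_mul]
    rfl
  stab := by
    rintro Δ hΔ n W hW ⟨_, N, ι₀, rfl⟩ z hz
    obtain ⟨w, hw⟩ := exists_GG (R := R) (L := L) N.g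
    obtain ⟨m, hm, -, hmΔ⟩ := Δ.exists_pow_mem_of_index_ne_zero hΔ.index_ne_zero w
    have h1 := (N.eig_rr w hw).pow m
    rw [← map_pow] at h1
    rw [N.coch_E hM le_rfl ι₀ hz]
    refine h1.stab ?_ (fun v hv => hW _ hmΔ v hv)
    intro J J' hJ
    rw [prod_zpow' hz, prod_zpow' hz]
    congr 1
    refine ND.c_eq w hw hm ?_ ι₀
    simpa only [Finset.prod_pow] using hJ
  fix := by
    rintro Δ hΔ n t hte hW ⟨_, N, ι₀, rfl⟩ z hz
    obtain ⟨w, hw⟩ := exists_GG (R := R) (L := L) N.g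
    obtain ⟨m, hm, -, hmΔ⟩ := Δ.exists_pow_mem_of_index_ne_zero hΔ.index_ne_zero w
    have h1 := (N.eig_rr w hw).pow m
    rw [← map_pow] at h1
    rw [N.coch_E hM le_rfl ι₀ hz]
    rw [sg_diag N] at hte
    refine h1.fix (hW _ hmΔ) hte ?_
    intro J hJ hJs
    rw [prod_zpow' hz]
    have h2 : Even (dg (N.ms J)) := by
      rw [Finset.prod_pow_eq_pow_sum, ← N.dg_ms] at hJs
      by_contra h3
      rw [Nat.not_even_iff_odd] at h3
      rw [h3.neg_one_pow] at hJs
      have : CharZero L := charZero_of_injective_algebraMap (algebraMap K L).injective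
      have h4 : (2 : L) = 0 := by linear_combination -hJs
      exact two_ne_zero h4
    have h3 := ND.c_zero w hw hm (J := J) (by simpa only [Finset.prod_pow] using hJ) h2 ι₀
    rw [h3, zpow_zero]

end Pool.Agent.Q60.TD
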