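import Pool.Agent.Q60.TD.Phi

/-!
# Virtually invariant tensors of a group whose Zariski closure is controlled by one-parameter
families
-/

set_option linter.unusedSectionVars false

namespace Pool.Agent.Q60.TD

open MvPolynomial Module Matrix Pool.Agent.Q60.ED

variable {L : Type} [Field L] {ι : Type} [Fintype ι] [DecidableEq ι]

/-- A representation of a group `G` together with one-parameter families of matrices which
control the subgroups of finite index. -/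
structure TRep (L : Type) [Field L] (ι : Type) [Fintype ι] [DecidableEq ι] (G : Type*)
    [Group G] where
  /-- the representation -/
  ρ : G →* Matrix ι ι L
  /-- the signs -/
  s : ι → L
  s_sq : ∀ i, s i * s i = 1
  s_pm : ∀ i, s i = 1 ∨ s i = -1
  /-- the element which acts by the signs -/
  z : G
  ρz : ρ z = diagonal s
  cent : ∀ g, ρ g * diagonal s = diagonal s * ρ g
  /-- the bound for the exponents -/
  d : ℕ
  /-- the index set of the families -/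
  J : Type
  /-- the families -/
  E : J → ℕ → Matrix ι ι L
  one : ∀ j, coch d (E j) 1 = 1
  mul : ∀ j z z', z ≠ 0 → z' ≠ 0 → coch d (E j) (z * z') = coch d (E j) z * coch d (E j) z'
  comm : ∀ j z, z ≠ 0 → diagonal s * coch d (E j) z = coch d (E j) z * diagonal s
  conj : ∀ g j, ∃ j', ∀ z, z ≠ 0 → coch d (E j) z * ρ g = ρ g * coch d (E j') z
  stab : ∀ (Δ : Subgroup G), Δ.FiniteIndex → ∀ (n : ℕ) (W : Submodule L ((Fin n → ι) → L)),
    (∀ g ∈ Δ, ∀ w ∈ W, tpow (ρ g) n w ∈ W) →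
      ∀ j z, z ≠ 0 → ∀ w ∈ W, tpow (coch d (E j) z) n w ∈ W
  fix : ∀ (Δ : Subgroup G), Δ.FiniteIndex → ∀ (n : ℕ) (t : (Fin n → ι) → L),
    tpow (diagonal s) n t = t → (∀ g ∈ Δ, tpow (ρ g) n t = t) →
      ∀ j z, z ≠ 0 → tpow (coch d (E j) z) n t = t

namespace TRep

variable {G : Type*} [Group G] (R : TRep L ι G)

/-- The tensor powers of the representation. -/
noncomputable def ρn (n : ℕ) : G →* Module.End L ((Fin n → ι) → L) where
  toFun g := tpow (R.ρ g) n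
  map_one' := by
    refine LinearMap.ext fun t => ?_
    rw [map_one, tpow_one]
    rfl
  map_mul' g g' := by
    refine LinearMap.ext fun t => ?_
    rw [map_mul, tpow_mul]
    rfl

lemma ρn_apply (n : ℕ) (g : G) (t : (Fin n → ι) → L) : R.ρn n g t = tpow (R.ρ g) n t := rfl

/-- The even tensors. -/
noncomputable def Ev (n : ℕ) : Submodule L ((Fin n → ι) → L) where
  carrier := {t | tpow (diagonal R.s) n t = t}
  add_mem' {a b} ha hb := by
    change tpow (diagonal R.s) n (a + b) = a + b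
    rw [map_add]; exact congrArg₂ _ ha hb
  zero_mem' := map_zero _
  smul_mem' c a ha := by
    change tpow (diagonal R.s) n (c • a) = c • a
    rw [map_smul]; exact congrArg _ ha

variable {R}

lemma mem_Ev {n : ℕ} {t : (Fin n → ι) → L} : t ∈ R.Ev n ↔ tpow (diagonal R.s) n t = t := Iff.rfl

variable (R)

/-- The even tensors which are fixed by a subgroup of finite index. -/
noncomputable def T (n : ℕ) : Submodule L ((Fin n → ι) → L) where
  carrier := {t | t ∈ R.Ev n ∧ ∃ Δ : Subgroup G, Δ.FiniteIndex ∧ ∀ g ∈ Δ, tpow (R.ρ g) n t = t}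
  add_mem' := by
    rintro a b ⟨ha, Δ, hΔ, h1⟩ ⟨hb, Δ', hΔ', h2⟩
    refine ⟨(R.Ev n).add_mem ha hb, Δ ⊓ Δ', inferInstance, fun g hg => ?_⟩
    rw [map_add, h1 g hg.1, h2 g hg.2]
  zero_mem' := ⟨(R.Ev n).zero_mem, ⊤, inferInstance, fun g _ => map_zero _⟩
  smul_mem' := by
    rintro c a ⟨ha, Δ, hΔ, h1⟩
    refine ⟨(R.Ev n).smul_mem c ha, Δ, hΔ, fun g hg => ?_⟩
    rw [map_smul, h1 g hg]

variable {R}

lemma mem_T {n : ℕ} {t : (Fin n → ι) → L} : t ∈ R.T n ↔ t ∈ R.Ev n ∧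
    ∃ Δ : Subgroup G, Δ.FiniteIndex ∧ ∀ g ∈ Δ, tpow (R.ρ g) n t = t := Iff.rfl

lemma s_mul : diagonal R.s * diagonal R.s = 1 := by
  rw [diagonal_mul_diagonal, ← diagonal_one]
  congr 1
  funext i
  exact R.s_sq i

lemma gam_comm {γ : Matrix ι ι L} (hγ : γ ∈ Gam R.d R.E) :
    diagonal R.s * γ = γ * diagonal R.s := by
  induction hγ using Submonoid.closure_induction with
  | mem g hg =>
    obtain ⟨j, z, hz, rfl⟩ := hg
    exact R.comm j z hz
  | one => rw [Matrix.one_mul, Matrix.mul_one]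
  | mul g g' _ _ ih ih' =>
    rw [← Matrix.mul_assoc, ih, Matrix.mul_assoc, ih', Matrix.mul_assoc]

lemma gam_inv {γ : Matrix ι ι L} (hγ : γ ∈ Gam R.d R.E) : ∃ γ' ∈ Gam R.d R.E, γ * γ' = 1 := by
  induction hγ using Submonoid.closure_induction with
  | mem g hg =>
    obtain ⟨j, z, hz, rfl⟩ := hg
    refine ⟨_, coch_mem j (inv_ne_zero hz), ?_⟩
    rw [← R.mul j z z⁻¹ hz (inv_ne_zero hz), mul_inv_cancel₀ hz, R.one]
  | one => exact ⟨1, Submonoid.one_mem _, Matrix.mul_one _⟩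
  | mul g g' _ _ ih ih' =>
    obtain ⟨a, ha, h1⟩ := ih
    obtain ⟨b, hb, h2⟩ := ih'
    refine ⟨b * a, Submonoid.mul_mem _ hb ha, ?_⟩
    rw [Matrix.mul_assoc, ← Matrix.mul_assoc g' b a, h2, Matrix.one_mul, h1]

lemma gam_det {γ : Matrix ι ι L} (hγ : γ ∈ Gam R.d R.E) : γ.det ≠ 0 := by
  obtain ⟨γ', -, h⟩ := gam_inv hγ
  intro h0
  have h1 := congrArg Matrix.det h
  rw [Matrix.det_mul, h0, zero_mul, Matrix.det_one] at h1
  exact zero_ne_one h1

lemma gam_conj (g : G) {γ : Matrix ι ι L} (hγ : γ ∈ Gam R.d R.E) :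
    ∃ γ' ∈ Gam R.d R.E, γ * R.ρ g = R.ρ g * γ' := by
  induction hγ using Submonoid.closure_induction with
  | mem a ha =>
    obtain ⟨j, z, hz, rfl⟩ := ha
    obtain ⟨j', hj'⟩ := R.conj g j
    exact ⟨_, coch_mem j' hz, hj' z hz⟩
  | one => exact ⟨1, Submonoid.one_mem _, by rw [Matrix.one_mul, Matrix.mul_one]⟩
  | mul a b _ _ ih ih' =>
    obtain ⟨a', ha', h1⟩ := ih
    obtain ⟨b', hb', h2⟩ := ih'
    refine ⟨a' * b', Submonoid.mul_mem _ ha' hb', ?_⟩
    rw [Matrix.mul_assoc, h2, ← Matrix.mul_assoc, h1, Matrix.mul_assoc]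

lemma gam_stab {Δ : Subgroup G} (hΔ : Δ.FiniteIndex) {n : ℕ} {W : Submodule L ((Fin n → ι) → L)}
    (hW : ∀ g ∈ Δ, ∀ w ∈ W, tpow (R.ρ g) n w ∈ W) {γ : Matrix ι ι L} (hγ : γ ∈ Gam R.d R.E) :
    ∀ w ∈ W, tpow γ n w ∈ W := by
  induction hγ using Submonoid.closure_induction with
  | mem a ha =>
    obtain ⟨j, z, hz, rfl⟩ := ha
    exact R.stab Δ hΔ n W hW j z hz
  | one => intro w hw; rwa [tpow_one]
  | mul a b _ _ ih ih' => intro w hw; rw [tpow_mul]; exact ih _ (ih' w hw)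

lemma gam_fix {n : ℕ} {t : (Fin n → ι) → L} (ht : t ∈ R.T n) {γ : Matrix ι ι L}
    (hγ : γ ∈ Gam R.d R.E) : tpow γ n t = t := by
  obtain ⟨he, Δ, hΔ, hfix⟩ := ht
  induction hγ using Submonoid.closure_induction with
  | mem a ha =>
    obtain ⟨j, z, hz, rfl⟩ := ha
    exact R.fix Δ hΔ n t he hfix j z hz
  | one => rw [tpow_one]
  | mul a b _ _ ih ih' => rw [tpow_mul, ih', ih]

variable (R) in
/-- The operators of the monoid on the tensors. -/
def Mop (n : ℕ) : Set (Module.End L ((Fin n → ι) → L)) :=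
  {f | ∃ γ ∈ Gam R.d R.E, tpow γ n = f}

variable (R) in
/-- The operators of the monoid on the coefficients. -/
def MopE (D : ℕ) : Set (Module.End L (EK ι D → L)) :=
  {f | ∃ γ ∈ Gam R.d R.E, RK D γ = f}

lemma ev_stab (n : ℕ) : Stab (Op (R.ρn n) ⊤) (R.Ev n) := by
  rw [stab_op]
  intro g _ w hw
  rw [mem_Ev] at hw ⊢
  rw [ρn_apply, ← tpow_mul, ← R.cent, tpow_mul, hw]

/-- The even part is semisimple for the monoid. -/
lemma ss_Mop {n : ℕ} (h : SSon (Op (R.ρn n) ⊤) (R.Ev n)) : SSon (R.Mop n) (R.Ev n) := by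
  refine clifford op_inv ?_ (ev_stab n) ?_ h
  · rintro _ ⟨g, _, rfl⟩ _ ⟨γ, hγ, rfl⟩
    obtain ⟨γ', hγ', h1⟩ := gam_conj g hγ
    refine ⟨tpow γ' n, ⟨γ', hγ', rfl⟩, ?_⟩
    refine LinearMap.ext fun t => ?_
    change tpow γ n (tpow (R.ρ g) n t) = tpow (R.ρ g) n (tpow γ' n t)
    rw [← tpow_mul, h1, tpow_mul]
  · rintro W - hW _ ⟨γ, hγ, rfl⟩
    rw [stab_op] at hW
    exact gam_stab (inferInstance : (⊤ : Subgroup G).FiniteIndex) hW hγ

lemma ev_stab_M (n : ℕ) : Stab (R.Mop n) (R.Ev n) := by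
  rintro _ ⟨γ, hγ, rfl⟩ w hw
  rw [mem_Ev] at hw ⊢
  rw [← tpow_mul, gam_comm hγ, tpow_mul, hw]

variable (R) in
/-- The even coefficients. -/
noncomputable def EvE (D : ℕ) : Submodule L (EK ι D → L) where
  carrier := {e | RK D (diagonal R.s) e = e}
  add_mem' {a b} ha hb := by
    change RK D (diagonal R.s) (a + b) = a + b
    rw [map_add]; exact congrArg₂ _ ha hb
  zero_mem' := map_zero _
  smul_mem' c a ha := by
    change RK D (diagonal R.s) (c • a) = c • a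
    rw [map_smul]; exact congrArg _ ha

lemma mem_EvE {D : ℕ} {e : EK ι D → L} : e ∈ R.EvE D ↔ RK D (diagonal R.s) e = e := Iff.rfl

lemma evE_stab (D : ℕ) : Stab (R.MopE D) (R.EvE D) := by
  rintro _ ⟨γ, hγ, rfl⟩ w hw
  rw [mem_EvE] at hw ⊢
  rw [RK_mul, gam_comm hγ, ← RK_mul, hw]

/-- The even coefficients are semisimple for the monoid. -/
lemma ss_MopE {D : ℕ} (h : ∀ n ≤ D, SSon (Op (R.ρn n) ⊤) (R.Ev n)) :
    SSon (R.MopE D) (R.EvE D) := by
  classical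
  have h1 := SSon.finset_sup (N := R.MopE D)
    (Finset.univ : Finset (Σ i : Fin (D + 1), (Fin i → ι)))
    (F := fun a => (R.Ev a.1).map (inK D a.1 a.2))
    (fun a _ => by
      refine SSon.map (N := R.Mop a.1) (inK D a.1 a.2) (inK_inj _ _) ?_ ?_
        (ss_Mop (h a.1 (Nat.le_of_lt_succ a.1.2)))
      · rintro _ ⟨γ, hγ, rfl⟩
        exact ⟨_, ⟨γ, hγ, rfl⟩, fun x => RK_inK γ a.1 a.2 x⟩
      · rintro _ ⟨γ, hγ, rfl⟩
        exact ⟨_, ⟨γ, hγ, rfl⟩, fun x => RK_inK γ a.1 a.2 x⟩)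
    (fun a _ => by
      rintro _ ⟨γ, hγ, rfl⟩ _ ⟨x, hx, rfl⟩
      rw [RK_inK]
      exact ⟨_, ev_stab_M _ _ ⟨γ, hγ, rfl⟩ x hx, rfl⟩)
  refine h1.1.mono ?_ (evE_stab D)
  intro e he
  rw [sum_inK e]
  refine Submodule.sum_mem _ fun a ha => ?_
  refine (Finset.le_sup (f := fun a : Σ i : Fin (D + 1), (Fin i → ι) =>
    (R.Ev a.1).map (inK D a.1 a.2)) ha) ⟨_, ?_, rfl⟩
  change tpow (diagonal R.s) a.1 (fun J => e ⟨a.1, (J, a.2)⟩) = fun J => e ⟨a.1, (J, a.2)⟩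
  funext J
  exact congrFun ((mem_EvE).1 he) ⟨a.1, (J, a.2)⟩

variable (R) in
/-- The functions which vanish on the monoid and its product with the signs. -/
def PP : Set (MvPolynomial (ι × ι) L) :=
  {f | ∀ γ ∈ Gam R.d R.E, evM γ f = 0 ∧ evM (γ * diagonal R.s) f = 0}

lemma rho_PP {f : MvPolynomial (ι × ι) L} (hf : f ∈ R.PP) {γ : Matrix ι ι L}
    (hγ : γ ∈ Gam R.d R.E) : rho γ f ∈ R.PP := by
  intro γ' hγ'
  have h1 := hf _ (Submonoid.mul_mem _ hγ' hγ)
  rw [evM_rho, evM_rho]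
  refine ⟨h1.1, ?_⟩
  rw [Matrix.mul_assoc, gam_comm hγ, ← Matrix.mul_assoc]
  exact h1.2

lemma rho_PP_s {f : MvPolynomial (ι × ι) L} (hf : f ∈ R.PP) :
    rho (diagonal R.s) f ∈ R.PP := by
  intro γ' hγ'
  have h1 := hf _ hγ'
  rw [evM_rho, evM_rho]
  refine ⟨h1.2, ?_⟩
  rw [Matrix.mul_assoc, s_mul, Matrix.mul_one]
  exact h1.1

lemma totalDegree_rho_le (g : Matrix ι ι L) (f : MvPolynomial (ι × ι) L) :
    (rho g f).totalDegree ≤ f.totalDegree := by
  rw [rho]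
  refine totalDegree_aeval_le _ (fun p => ?_) f
  refine totalDegree_finsetSum_le fun k _ => ?_
  refine (totalDegree_mul _ _).trans ?_
  rw [totalDegree_C, add_zero, totalDegree_X]

/-- An even function of bounded degree which vanishes on the monoid but not at `h`. -/
lemma exists_even [IsAlgClosed L] [CharZero L] {D₀ : ℕ}
    (hD : (2 * R.d + 1) ^ Fintype.card ι ^ 2 * (Fintype.card ι ^ 2 + 1) ^ (Fintype.card ι ^ 2 + 1)
      ≤ D₀) {h : Matrix ι ι L} (hdet : h.det ≠ 0) {f₁ f₂ : MvPolynomial (ι × ι) L}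
    (hf₁ : f₁ ∈ PG R.d R.E) (hf₂ : f₂ ∈ PG R.d R.E) (h₁ : evM h f₁ ≠ 0)
    (h₂ : evM (h * diagonal R.s) f₂ ≠ 0) :
    ∃ e : EK ι (2 * D₀ + 1) → L, e ∈ R.EvE (2 * D₀ + 1) ∧ PhK (2 * D₀ + 1) e ∈ R.PP ∧
      evM h (PhK (2 * D₀ + 1) e) ≠ 0 := by
  classical
  -- equations of bounded degree
  obtain ⟨a, haP, haD, hah⟩ : ∃ a ∈ PG R.d R.E, a.totalDegree ≤ D₀ ∧ evM h a ≠ 0 := by
    by_contra hcon
    push Not at hcon
    exact h₁ (bounded_equations R.one hD hcon f₁ hf₁)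
  obtain ⟨b, hbP, hbD, hbh⟩ : ∃ b ∈ PG R.d R.E, b.totalDegree ≤ D₀ ∧
      evM (h * diagonal R.s) b ≠ 0 := by
    by_contra hcon
    push Not at hcon
    exact h₂ (bounded_equations R.one hD hcon f₂ hf₂)
  set F := a * rho (diagonal R.s) b with hF
  have hFP : F ∈ R.PP := by
    intro γ hγ
    rw [hF, map_mul, map_mul, evM_rho, evM_rho, mem_PG.1 haP γ hγ, zero_mul]
    refine ⟨rfl, ?_⟩
    rw [Matrix.mul_assoc, s_mul, Matrix.mul_one, mem_PG.1 hbP γ hγ, mul_zero]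
  have hFh : evM h F ≠ 0 := by
    rw [hF, map_mul, evM_rho]
    exact mul_ne_zero hah hbh
  have hFD : F.totalDegree ≤ 2 * D₀ := by
    refine (totalDegree_mul _ _).trans ?_
    have := (totalDegree_rho_le (diagonal R.s) b).trans hbD
    omega
  -- the parts
  have hmk : ∀ f : MvPolynomial (ι × ι) L, f.totalDegree ≤ 2 * D₀ + 1 → f ∈ R.PP →
      rho (diagonal R.s) f = f → evM h f ≠ 0 → ∃ e : EK ι (2 * D₀ + 1) → L,
        e ∈ R.EvE (2 * D₀ + 1) ∧ PhK (2 * D₀ + 1) e ∈ R.PP ∧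
          evM h (PhK (2 * D₀ + 1) e) ≠ 0 := by
    intro f hfD hfP hfs hfh
    obtain ⟨e, rfl⟩ := exists_PhK hfD
    refine ⟨(2 : L)⁻¹ • (e + RK (2 * D₀ + 1) (diagonal R.s) e), ?_, ?_⟩
    · rw [mem_EvE, map_smul, map_add, RK_mul, s_mul, RK_one]
      exact congrArg (fun v => (2 : L)⁻¹ • v) (add_comm _ _)
    · have h3 : PhK (2 * D₀ + 1) ((2 : L)⁻¹ • (e + RK (2 * D₀ + 1) (diagonal R.s) e)) =
          PhK (2 * D₀ + 1) e := by
        rw [map_smul, map_add, ← rho_PhK, hfs, ← two_smul L, smul_smul,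
          inv_mul_cancel₀ two_ne_zero, one_smul]
      rw [h3]
      exact ⟨hfP, hfh⟩
  have hadd : ∀ f g : MvPolynomial (ι × ι) L, f ∈ R.PP → g ∈ R.PP → f + g ∈ R.PP := by
    intro f g hf hg γ hγ
    rw [map_add, map_add, (hf γ hγ).1, (hf γ hγ).2, (hg γ hγ).1, (hg γ hγ).2, add_zero]
    exact ⟨rfl, rfl⟩
  have hsub : ∀ f g : MvPolynomial (ι × ι) L, f ∈ R.PP → g ∈ R.PP → f - g ∈ R.PP := by
    intro f g hf hg γ hγ
    rw [map_sub, map_sub, (hf γ hγ).1, (hf γ hγ).2, (hg γ hγ).1, (hg γ hγ).2, sub_zero]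
    exact ⟨rfl, rfl⟩
  have hss : rho (diagonal R.s) (rho (diagonal R.s) F) = F := by
    rw [rho_rho, s_mul, rho_one]
  by_cases hcase : evM h (F + rho (diagonal R.s) F) = 0
  · -- the odd part does not vanish
    set g := F - rho (diagonal R.s) F with hg
    have hgh : evM h g ≠ 0 := by
      intro h0
      apply hFh
      have h3 : evM h (F + rho (diagonal R.s) F) + evM h g = 2 * evM h F := by
        rw [hg, map_add, map_sub]; ring
      rw [hcase, h0, add_zero] at h3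
      exact (mul_eq_zero.1 h3.symm).resolve_left two_ne_zero
    have hgs : rho (diagonal R.s) g = -g := by
      rw [hg, map_sub, hss]; ring
    obtain ⟨q, hq⟩ : ∃ q, R.s q = -1 := by
      by_contra hcon
      push Not at hcon
      have h3 : diagonal R.s = (1 : Matrix ι ι L) := by
        rw [← diagonal_one]
        congr 1
        funext i
        exact (R.s_pm i).resolve_right (hcon i)
      rw [h3, rho_one] at hgs
      have h4 := congrArg (evM h) hgs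
      rw [map_neg] at h4
      exact hgh (self_eq_neg.1 h4)
    obtain ⟨p, hp⟩ : ∃ p, h p q ≠ 0 := by
      by_contra hcon
      push Not at hcon
      exact hdet (Matrix.det_eq_zero_of_column_eq_zero q hcon)
    refine hmk (X (p, q) * g) ?_ ?_ ?_ ?_
    · refine (totalDegree_mul _ _).trans ?_
      rw [totalDegree_X]
      have h3 : g.totalDegree ≤ 2 * D₀ := by
        refine (totalDegree_sub _ _).trans (max_le hFD ?_)
        exact (totalDegree_rho_le _ _).trans hFD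
      omega
    · intro γ hγ
      have h3 := hsub _ _ hFP (rho_PP_s hFP) γ hγ
      rw [map_mul, map_mul, ← hg] at *
      rw [h3.1, h3.2, mul_zero, mul_zero]
      exact ⟨rfl, rfl⟩
    · rw [map_mul, hgs, rho_X]
      have h3 : ∑ k, X (p, k) * C (diagonal R.s k q) = -(X (p, q) : MvPolynomial (ι × ι) L) := by
        rw [Finset.sum_eq_single q]
        · rw [diagonal_apply_eq, hq, map_neg, map_one]; ring
        · intro k _ hk
          rw [diagonal_apply_ne _ hk, map_zero, mul_zero]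
        · intro h; exact absurd (Finset.mem_univ _) h
      change (∑ k, X (p, k) * C (diagonal R.s k q)) * -g = _
      rw [h3]; ring
    · rw [map_mul, evM_X]
      exact mul_ne_zero hp hgh
  · refine hmk _ ?_ (hadd _ _ hFP (rho_PP_s hFP)) ?_ hcase
    · refine (totalDegree_add _ _).trans (max_le (by omega) ?_)
      exact (totalDegree_rho_le _ _).trans (by omega)
    · rw [map_add, hss, add_comm]

/-- **The main step.** A matrix which fixes the virtually invariant tensors of bounded degree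
satisfies, up to the signs, the equations of the monoid. -/
theorem mem_closure [IsAlgClosed L] [CharZero L] {D₀ : ℕ}
    (hD : (2 * R.d + 1) ^ Fintype.card ι ^ 2 * (Fintype.card ι ^ 2 + 1) ^ (Fintype.card ι ^ 2 + 1)
      ≤ D₀) (hss : ∀ n ≤ 2 * D₀ + 1, SSon (Op (R.ρn n) ⊤) (R.Ev n))
    (hfin : ∀ n ≤ 2 * (2 * D₀ + 1), ∀ t ∈ R.Ev n,
      (∀ γ ∈ Gam R.d R.E, tpow γ n t = t) → t ∈ R.T n)
    {Ω : (Fin 2 → ι) → L} (hΩ : Ω ∈ R.T 2) (hΩd : (mat2 Ω).det ≠ 0) {h : Matrix ι ι L}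
    (hh : ∀ n ≤ 2 * (2 * D₀ + 1), ∀ t ∈ R.T n, tpow h n t = t) :
    (∀ f ∈ PG R.d R.E, evM h f = 0) ∨ (∀ f ∈ PG R.d R.E, evM (h * diagonal R.s) f = 0) := by
  classical
  by_contra hcon
  push Not at hcon
  obtain ⟨⟨f₁, hf₁, h₁⟩, f₂, hf₂, h₂⟩ := hcon
  have hOm : ∀ g : Matrix ι ι L, tpow g 2 Ω = Ω → g * mat2 Ω * g.transpose = mat2 Ω := by
    intro g hg
    rw [← tpow_two, hg]
  have hOmh := hOm h (hh 2 (by omega) _ hΩ)
  have hdet : h.det ≠ 0 := by
    intro h0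
    have h1 := congrArg Matrix.det hOmh
    rw [Matrix.det_mul, Matrix.det_mul, h0, zero_mul, zero_mul] at h1
    exact hΩd h1.symm
  set D := 2 * D₀ + 1 with hDdef
  obtain ⟨e, heE, heP, heh⟩ := exists_even hD hdet hf₁ hf₂ h₁ h₂
  -- the subspace of the equations
  let W : Submodule L (EK ι D → L) :=
    { carrier := {e | e ∈ R.EvE D ∧ PhK D e ∈ R.PP}
      add_mem' := by
        rintro a b ⟨ha, ha'⟩ ⟨hb, hb'⟩
        refine ⟨Submodule.add_mem _ ha hb, ?_⟩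
        intro γ hγ
        rw [map_add, map_add, map_add, (ha' γ hγ).1, (ha' γ hγ).2, (hb' γ hγ).1, (hb' γ hγ).2,
          add_zero]
        exact ⟨rfl, rfl⟩
      zero_mem' := by
        refine ⟨Submodule.zero_mem _, ?_⟩
        intro γ _
        rw [map_zero, map_zero, map_zero]
        exact ⟨rfl, rfl⟩
      smul_mem' := by
        rintro c a ⟨ha, ha'⟩
        refine ⟨Submodule.smul_mem _ _ ha, ?_⟩
        intro γ hγ
        rw [map_smul, map_smul, map_smul, (ha' γ hγ).1, (ha' γ hγ).2, smul_zero]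
        exact ⟨rfl, rfl⟩ }
  have hW : ∀ e, e ∈ W ↔ e ∈ R.EvE D ∧ PhK D e ∈ R.PP := fun e => Iff.rfl
  have hWs : Stab (R.MopE D) W := by
    rintro _ ⟨γ, hγ, rfl⟩ w hw
    rw [hW] at hw ⊢
    refine ⟨evE_stab D _ ⟨γ, hγ, rfl⟩ w hw.1, ?_⟩
    rw [← rho_PhK]
    exact rho_PP hw.2 hγ
  obtain ⟨p, hp1, hp2, hp3⟩ := (ss_iff (evE_stab D)).1 (ss_MopE hss) W (fun w hw => hw.1) hWs
  -- the projection to the even coefficients
  let ε : (EK ι D → L) →ₗ[L] (EK ι D → L) :=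
    (2 : L)⁻¹ • (LinearMap.id + RK D (diagonal R.s))
  have hε : ∀ v, ε v = (2 : L)⁻¹ • (v + RK D (diagonal R.s) v) := fun v => rfl
  have hεE : ∀ v, ε v ∈ R.EvE D := by
    intro v
    rw [mem_EvE, hε, map_smul, map_add, RK_mul, s_mul, RK_one, add_comm]
  have hε1 : ∀ v ∈ R.EvE D, ε v = v := by
    intro v hv
    rw [hε, mem_EvE.1 hv, ← two_smul L, smul_smul, inv_mul_cancel₀ two_ne_zero, one_smul]
  have hεγ : ∀ γ ∈ Gam R.d R.E, ∀ v, ε (RK D γ v) = RK D γ (ε v) := by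
    intro γ hγ v
    rw [hε, hε, map_smul, map_add, RK_mul, RK_mul, gam_comm hγ]
  have hεs : ∀ v, ε (RK D (diagonal R.s) v) = ε v := by
    intro v
    rw [hε, hε, RK_mul, s_mul, RK_one, add_comm]
  set M : Matrix (EK ι D) (EK ι D) L := LinearMap.toMatrix' (p ∘ₗ ε) with hM
  have hMv : ∀ v, M *ᵥ v = p (ε v) := fun v => by
    rw [hM, ← Matrix.toLin'_apply, Matrix.toLin'_toMatrix']
    rfl
  have hcomm : ∀ γ ∈ Gam R.d R.E, ∀ v, M *ᵥ (RK D γ v) = RK D γ (M *ᵥ v) := by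
    intro γ hγ v
    rw [hMv, hMv, hεγ γ hγ, hp3 _ ⟨γ, hγ, rfl⟩ _ (hεE v)]
  have hcomms : ∀ v, M *ᵥ (RK D (diagonal R.s) v) = RK D (diagonal R.s) (M *ᵥ v) := by
    intro v
    rw [hMv, hMv, hεs]
    exact (mem_EvE.1 (hp2 _ (hεE v)).1).symm
  have hsdet : (diagonal R.s).det ≠ 0 := by
    intro h0
    have h1 := congrArg Matrix.det (s_mul (R := R))
    rw [Matrix.det_mul, h0, zero_mul, Matrix.det_one] at h1
    exact zero_ne_one h1
  have hcommh : ∀ v, M *ᵥ (RK D h v) = RK D h (M *ᵥ v) := by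
    rw [comm_iffK]
    intro j i J I
    rw [← inv_iff hdet hΩd hOmh]
    have hji : (j : ℕ) + i ≤ 2 * (2 * D₀ + 1) := by
      have := j.2
      have := i.2
      omega
    apply hh _ hji
    apply hfin _ hji
    · rw [mem_Ev]
      exact (inv_iff hsdet hΩd (hOm _ (mem_Ev.1 hΩ.1)) _).2 ((comm_iffK M _).1 hcomms j i J I)
    · intro γ hγ
      exact (inv_iff (gam_det hγ) hΩd (hOm _ (gam_fix hΩ hγ)) _).2
        ((comm_iffK M γ).1 (hcomm γ hγ) j i J I)
  have h3 := hcommh e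
  rw [hMv e, hε1 e heE, hp1 e ⟨heE, heP⟩, hMv] at h3
  have h4 : RK D h e ∈ W := by
    rw [← h3]
    exact hp2 _ (hεE _)
  have h5 := (((hW _).1 h4).2 1 (Submonoid.one_mem _)).1
  rw [← rho_PhK, evM_rho, Matrix.one_mul] at h5
  exact heh h5

/-- A tensor which is fixed by the monoid is fixed by the closure of the monoid. -/
lemma fix_closure {n : ℕ} {t : (Fin n → ι) → L} (ht : t ∈ R.T n) {h : Matrix ι ι L}
    (hh : (∀ f ∈ PG R.d R.E, evM h f = 0) ∨ (∀ f ∈ PG R.d R.E, evM (h * diagonal R.s) f = 0)) :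
    tpow h n t = t := by
  have hmem : ∀ I, ft t I ∈ PG R.d R.E := by
    intro I
    rw [mem_PG]
    intro γ hγ
    exact (ft_eval_iff γ t).2 (gam_fix ht hγ) I
  rcases hh with hh | hh
  · rw [← ft_eval_iff]
    exact fun I => hh _ (hmem I)
  · have h1 : tpow (h * diagonal R.s) n t = t := by
      rw [← ft_eval_iff]
      exact fun I => hh _ (hmem I)
    rwa [tpow_mul, mem_Ev.1 ht.1] at h1

/-- A subspace which is stable under the monoid and the signs is stable under the closure. -/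
lemma stab_closure {n : ℕ} {W : Submodule L ((Fin n → ι) → L)}
    (hW : ∀ γ ∈ Gam R.d R.E, ∀ w ∈ W, tpow γ n w ∈ W)
    (hWs : ∀ w ∈ W, tpow (diagonal R.s) n w ∈ W) {h : Matrix ι ι L}
    (hh : (∀ f ∈ PG R.d R.E, evM h f = 0) ∨ (∀ f ∈ PG R.d R.E, evM (h * diagonal R.s) f = 0)) :
    ∀ w ∈ W, tpow h n w ∈ W := by
  have key : ∀ h : Matrix ι ι L, (∀ f ∈ PG R.d R.E, evM h f = 0) → ∀ w ∈ W, tpow h n w ∈ W := by
    intro h hh w hw
    rw [← Subspace.forall_mem_dualAnnihilator_apply_eq_zero_iff]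
    intro φ hφ
    rw [Submodule.mem_dualAnnihilator] at hφ
    have hφs : ∀ x : (Fin n → ι) → L, φ x = ∑ I, x I * φ (Pi.single I 1) := by
      intro x
      conv_lhs => rw [← TSys.sum_single x, map_sum]
      exact Finset.sum_congr rfl fun I _ => by rw [map_smul, smul_eq_mul]
    have h1 : ∀ g : Matrix ι ι L, evM g (∑ I, C (φ (Pi.single I 1)) * xt w I) =
        φ (tpow g n w) := by
      intro g
      rw [map_sum, hφs]
      refine Finset.sum_congr rfl fun I _ => ?_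
      rw [map_mul, evM_C, evM_xt, mul_comm]
    rw [← h1]
    apply hh
    rw [mem_PG]
    intro γ hγ
    rw [h1]
    exact hφ _ (hW γ hγ w hw)
  rcases hh with hh | hh
  · exact key h hh
  · intro w hw
    have h1 := key _ hh _ (hWs w hw)
    rwa [← tpow_mul, Matrix.mul_assoc, s_mul, Matrix.mul_one] at h1

section main

variable [IsAlgClosed L] [CharZero L] {D₀ : ℕ}

/-- **The main theorem.** -/
theorem main (R : TRep L ι G)
    (hD : (2 * R.d + 1) ^ Fintype.card ι ^ 2 * (Fintype.card ι ^ 2 + 1) ^ (Fintype.card ι ^ 2 + 1)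
      ≤ D₀) (hss : ∀ n ≤ 2 * D₀ + 1, SSon (Op (R.ρn n) ⊤) (R.Ev n))
    (hfin : ∀ n ≤ 2 * (2 * D₀ + 1), ∀ t ∈ R.Ev n,
      (∀ γ ∈ Gam R.d R.E, tpow γ n t = t) → t ∈ R.T n)
    (S : TSys L ι) {Ω : (Fin 2 → ι) → L} (hΩ : Ω ∈ S.S 2) (hΩd : (mat2 Ω).det ≠ 0)
    (hST : ∀ n, S.S n ≤ R.T n) (hTS : ∀ n ≤ 2 * (2 * D₀ + 1), R.T n ≤ S.S n) :
    (∀ n, R.T n ≤ S.S n) ∧ ∀ n, SSon (Op (R.ρn n) ⊤) ⊤ := by
  classical
  have hcl : ∀ h : Matrix ι ι L, (∀ n ≤ 2 * (2 * D₀ + 1), ∀ t ∈ R.T n, tpow h n t = t) →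
      (∀ f ∈ PG R.d R.E, evM h f = 0) ∨ (∀ f ∈ PG R.d R.E, evM (h * diagonal R.s) f = 0) :=
    fun h hh => mem_closure hD hss hfin (hST 2 hΩ) hΩd hh
  have hfixS : ∀ h : Matrix ι ι L, (∀ n ≤ 2 * (2 * D₀ + 1), ∀ t ∈ R.T n, tpow h n t = t) →
      Fix S.S h := fun h hh n t ht => fix_closure (hST n ht) (hcl h hh)
  have hSfix : ∀ h : Matrix ι ι L, Fix S.S h → ∀ n ≤ 2 * (2 * D₀ + 1), ∀ t ∈ R.T n,
      tpow h n t = t := fun h hh n hn t ht => hh n t (hTS n hn ht)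
  refine ⟨fun n t ht => S.mem_of_fixed hΩ hΩd fun h hh =>
    fix_closure ht (hcl h (hSfix h hh)), fun n => ?_⟩
  -- the subgroup of the elements which fix the tensors
  let Δ : Subgroup G :=
    { carrier := {g | ∀ n ≤ 2 * (2 * D₀ + 1), ∀ t ∈ R.T n, tpow (R.ρ g) n t = t}
      one_mem' := fun n _ t _ => by rw [map_one, tpow_one]
      mul_mem' := fun {a b} ha hb n hn t ht => by
        rw [map_mul, tpow_mul, hb n hn t ht, ha n hn t ht]
      inv_mem' := fun {a} ha n hn t ht => by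
        have h1 := ha n hn t ht
        conv_lhs => rw [← h1]
        rw [← tpow_mul, ← map_mul, inv_mul_cancel, map_one, tpow_one] }
  have hΔ : ∀ g, g ∈ Δ ↔ ∀ n ≤ 2 * (2 * D₀ + 1), ∀ t ∈ R.T n, tpow (R.ρ g) n t = t :=
    fun g => Iff.rfl
  have hfi : Δ.FiniteIndex := by
    -- for each degree
    have h1 : ∀ n, ∃ Δ' : Subgroup G, Δ'.FiniteIndex ∧ ∀ g ∈ Δ', ∀ t ∈ R.T n,
        tpow (R.ρ g) n t = t := by
      intro n
      obtain ⟨s, hs⟩ := IsNoetherian.noetherian (R.T n)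
      have h2 : ∀ t : s, ∃ Δ' : Subgroup G, Δ'.FiniteIndex ∧ ∀ g ∈ Δ',
          tpow (R.ρ g) n (t : (Fin n → ι) → L) = t := by
        intro t
        have h3 : (t : (Fin n → ι) → L) ∈ R.T n := by
          rw [← hs]; exact Submodule.subset_span t.2
        exact h3.2
      choose Δ' hΔ' hfix using h2
      have hfi' : (⨅ t, Δ' t).FiniteIndex := Subgroup.finiteIndex_iInf hΔ'
      refine ⟨⨅ t, Δ' t, hfi', fun g hg t ht => ?_⟩
      rw [← hs] at ht
      refine Submodule.span_induction (p := fun t _ => tpow (R.ρ g) n t = t) ?_ (map_zero _)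
        (fun a b _ _ ha hb => by rw [map_add, ha, hb]) (fun c a _ ha => by rw [map_smul, ha]) ht
      intro t ht
      exact hfix ⟨t, ht⟩ g ((Subgroup.mem_iInf.1 hg) _)
    choose Δ' hΔ' hfix using h1
    have h2 : (⨅ n : Fin (2 * (2 * D₀ + 1) + 1), Δ' n).FiniteIndex :=
      Subgroup.finiteIndex_iInf fun n => hΔ' n
    refine Subgroup.finiteIndex_of_le (H := ⨅ n : Fin (2 * (2 * D₀ + 1) + 1), Δ' n) ?_
    intro g hg
    rw [hΔ]
    intro n hn t ht
    exact hfix n g ((Subgroup.mem_iInf.1 hg) ⟨n, by omega⟩) t ht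
  refine maschke Δ stab_top ?_
  rw [ss_iff stab_top]
  intro W _ hWs
  rw [stab_op] at hWs
  have hzΔ : R.z ∈ Δ := by
    rw [hΔ]
    intro m _ t ht
    rw [R.ρz]
    exact mem_Ev.1 ht.1
  have hWM : ∀ γ ∈ Gam R.d R.E, ∀ w ∈ W, tpow γ n w ∈ W := fun γ hγ => gam_stab hfi hWs hγ
  have hWz : ∀ w ∈ W, tpow (diagonal R.s) n w ∈ W := by
    intro w hw
    rw [← R.ρz]
    exact hWs _ hzΔ w hw
  obtain ⟨p, hp1, hp2, hp3⟩ := exists_avg hΩ hΩd (W := W) fun h hh =>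
    stab_closure hWM hWz (hcl h (hSfix h hh))
  refine ⟨p, hp1, fun u _ => hp2 u, ?_⟩
  rintro _ ⟨g, hg, rfl⟩ u _
  exact hp3 _ (hfixS _ ((hΔ g).1 hg)) u

end main

end TRep

end Pool.Agent.Q60.TD
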