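import Pool.Agent.Q60.TD.Num
import Pool.Agent.Q60.TD.ThmT
import Pool.Agent.Q60.TD.Gen

/-!
# Weil elements of a graded representation, and their one-parameter families
-/

set_option linter.unusedSectionVars false

namespace Pool.Agent.Q60.TD

open Polynomial Module Matrix Pool.Agent.Q60.ED Pool.Agent.Q56.FD

variable {K : Type} [Field K] {ι : Type} [Fintype ι] [DecidableEq ι] {Γ : Type*} [Group Γ]

/-- A graded representation by matrices with a character. -/
structure MRep (K : Type) [Field K] (ι : Type) [Fintype ι] [DecidableEq ι] (Γ : Type*)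
    [Group Γ] where
  /-- the representation -/
  A : Γ →* Matrix ι ι K
  /-- the character -/
  χ : Γ →* Kˣ
  /-- the degrees -/
  a : ι → ℕ
  /-- the bound for the degrees -/
  M : ℕ
  le : ∀ i, a i ≤ M
  hom : ∀ g i j, a i ≠ a j → A g i j = 0

namespace MRep

variable (R : MRep K ι Γ)

/-- The Weil elements: the characteristic polynomials on the graded parts are Frobenius
polynomials. -/
def IsWeil (b : ℕ) (g : Γ) : Prop :=
  ∃ (p : ℕ) (_ : Fact p.Prime) (e : ℕ) (Q : ℕ → ℤ[X]), 0 < e ∧ (R.χ g : K) = ((p ^ e : ℕ) : K) ∧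
    (∀ i ≤ R.M, IsFrobPoly p (p ^ e) i (Q i)) ∧
    ∑ i ∈ Finset.range (R.M + 1), (Q i).natDegree ≤ b ∧
    ∀ i ≤ R.M, ∀ j, R.a j = i → ∀ k, (aeval (R.A g) (Q i) : Matrix ι ι K) k j = 0

variable (L : Type) [Field L] [Algebra K L]

/-- The matrices over the larger field. -/
noncomputable def AL (g : Γ) : Matrix ι ι L := (R.A g).map (algebraMap K L)

lemma AL_mul (g h : Γ) : R.AL L (g * h) = R.AL L g * R.AL L h := by
  rw [AL, map_mul, Matrix.map_mul]
  rfl

lemma AL_one : R.AL L 1 = 1 := by
  rw [AL, map_one, Matrix.map_one _ (map_zero _) (map_one _)]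

variable {L}

lemma AL_comm (g : Γ) (f : ℕ → L) :
    diagonal (fun i => f (R.a i)) * R.AL L g = R.AL L g * diagonal (fun i => f (R.a i)) := by
  ext i j
  rw [diagonal_mul, mul_diagonal]
  by_cases h : R.a i = R.a j
  · rw [h, mul_comm]
  · rw [AL, Matrix.map_apply, R.hom g i j h, map_zero, mul_zero, zero_mul]

lemma AL_hom (g : Γ) {i j : ι} (h : R.a i ≠ R.a j) : R.AL L g i j = 0 := by
  rw [AL, Matrix.map_apply, R.hom g i j h, map_zero]

/-- The vectors of a given degree. -/
def dV (L : Type) [Field L] (i : ℕ) : Submodule L (ι → L) where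
  carrier := {v | ∀ j, R.a j ≠ i → v j = 0}
  add_mem' {v w} hv hw j hj := by rw [Pi.add_apply, hv j hj, hw j hj, add_zero]
  zero_mem' j _ := rfl
  smul_mem' c v hv j hj := by rw [Pi.smul_apply, hv j hj, smul_zero]

variable {R}

lemma mem_dV {i : ℕ} {v : ι → L} : v ∈ R.dV L i ↔ ∀ j, R.a j ≠ i → v j = 0 := Iff.rfl

lemma dV_stab (g : Γ) {i : ℕ} {v : ι → L} (hv : v ∈ R.dV L i) :
    (Matrix.toLin' (R.AL L g)) v ∈ R.dV L i := by
  intro j hj
  rw [Matrix.toLin'_apply, Matrix.mulVec, dotProduct]
  refine Finset.sum_eq_zero fun k _ => ?_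
  by_cases h : R.a k = i
  · rw [R.AL_hom g (by rw [h]; exact hj), zero_mul]
  · rw [hv k h, mul_zero]

/-- An eigenvector in a stable subspace. -/
lemma exists_eigenvec {V : Type*} [AddCommGroup V] [Module L V] {T : Module.End L V} {μ : L}
    {W : Submodule L V} (hW : ∀ w ∈ W, T w ∈ W) {v : V} (hv : v ∈ W) (hv0 : v ≠ 0)
    (hg : v ∈ T.maxGenEigenspace μ) : ∃ w ∈ W, w ≠ 0 ∧ T w = μ • w := by
  classical
  rw [Module.End.mem_maxGenEigenspace] at hg
  set S := T - μ • (1 : Module.End L V) with hS
  have hSW : ∀ w ∈ W, S w ∈ W := by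
    intro w hw
    exact W.sub_mem (hW w hw) (W.smul_mem _ hw)
  have hSk : ∀ k, (S ^ k) v ∈ W := by
    intro k
    induction k with
    | zero => exact hv
    | succ k ih => rw [pow_succ']; exact hSW _ ih
  obtain ⟨hk, hmin⟩ := And.intro (Nat.find_spec hg) (fun m => Nat.find_min (m := m) hg)
  rcases Nat.eq_zero_or_pos (Nat.find hg) with h0 | h0
  · rw [h0] at hk
    exact absurd hk hv0
  · obtain ⟨k, hk'⟩ : ∃ k, Nat.find hg = k + 1 := ⟨Nat.find hg - 1, by omega⟩
    rw [hk', pow_succ'] at hk
    refine ⟨(S ^ k) v, hSk k, hmin k (by omega), ?_⟩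
    have h1 : S ((S ^ k) v) = 0 := hk
    rw [hS, LinearMap.sub_apply, sub_eq_zero] at h1
    exact h1

variable [CharZero K] [IsAlgClosed L]

/-- The roots in the large field come from algebraic numbers. -/
lemma exists_root (τ : Qb →+* L) {P : ℤ[X]} (hP : P.Monic) {μ : L} (h : aeval μ P = 0) :
    ∃ x : Qb, aeval x P = 0 ∧ τ x = μ := by
  have hs := IsAlgClosed.splits (P.map (Int.castRingHom Qb))
  have h1 := hs.eq_prod_roots
  have h2 : (P.map (Int.castRingHom Qb)).map τ = P.map (Int.castRingHom L) := by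
    rw [Polynomial.map_map]
    congr 1
    exact RingHom.ext_int _ _
  have h3 : ((P.map (Int.castRingHom Qb)).map τ).eval μ = 0 := by
    rw [h2, eval_map]
    exact h
  rw [h1, Polynomial.map_mul, eval_mul, (hP.map _).leadingCoeff, map_C, map_one, eval_C,
    one_mul, Polynomial.map_multiset_prod, eval_multiset_prod, Multiset.prod_eq_zero_iff,
    Multiset.map_map, Multiset.map_map] at h3
  obtain ⟨x, hx, hx'⟩ := Multiset.mem_map.1 h3
  refine ⟨x, ?_, ?_⟩
  · have h4 := (mem_roots'.1 hx).2
    rw [IsRoot, eval_map] at h4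
    exact h4
  · simp only [Function.comp_apply, Polynomial.map_sub, map_X, map_C, eval_sub, eval_X,
      eval_C] at hx'
    exact (sub_eq_zero.1 hx').symm

/-- A homogeneous basis of generalised eigenvectors. -/
lemma exists_eigB {g : Γ} {p : ℕ} {e : ℕ} {Q : ℕ → ℤ[X]} [Fact p.Prime]
    (hQ : ∀ i ≤ R.M, IsFrobPoly p (p ^ e) i (Q i))
    (hk : ∀ i ≤ R.M, ∀ j, R.a j = i → ∀ k, (aeval (R.A g) (Q i) : Matrix ι ι K) k j = 0)
    (τ : Qb →+* L) : ∃ (x : ι → Letter Q R.M) (B B' : Matrix ι ι L),
      EigB (R.AL L g) B B' (fun j => τ (x j).1.2) ∧ ∀ i j, R.a i ≠ (x j).1.1 → B i j = 0 := by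
  classical
  set T : Module.End L (ι → L) := Matrix.toLin' (R.AL L g) with hT
  let s : Set (ι → L) := {v | ∃ i μ, v ∈ T.maxGenEigenspace μ ∧ v ∈ R.dV L i}
  have hs : Submodule.span L s = ⊤ := by
    rw [eq_top_iff]
    intro v _
    have h1 : v = ∑ i ∈ Finset.range (R.M + 1), fun j => if R.a j = i then v j else 0 := by
      funext j
      rw [Finset.sum_apply, Finset.sum_eq_single (R.a j)]
      · rw [if_pos rfl]
      · intro i _ hi
        rw [if_neg (Ne.symm hi)]
      · intro h
        exact absurd (Finset.mem_range.2 (Nat.lt_succ_of_le (R.le j))) h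
    rw [h1]
    refine Submodule.sum_mem _ fun i _ => ?_
    have h2 : (fun j => if R.a j = i then v j else 0) ∈ R.dV L i := by
      intro j hj
      exact if_neg hj
    have h3 : (fun j => if R.a j = i then v j else 0) ∈ R.dV L i ⊓ ⨆ μ, T.genEigenspace μ ⊤ := by
      refine ⟨h2, ?_⟩
      have h4 := Module.End.iSup_maxGenEigenspace_eq_top T
      have h5 : (fun j => if R.a j = i then v j else 0) ∈ (⊤ : Submodule L (ι → L)) := trivial
      rw [← h4] at h5
      exact h5
    rw [Submodule.inf_iSup_genEigenspace (fun x hx => dV_stab g hx)] at h3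
    refine Submodule.iSup_induction _ (motive := fun w => w ∈ Submodule.span L s) h3 ?_
      (Submodule.zero_mem _) fun a b ha hb => Submodule.add_mem _ ha hb
    rintro μ w ⟨hw, hw'⟩
    exact Submodule.subset_span ⟨i, μ, hw', hw⟩
  obtain ⟨c, hcs, hspan, hli⟩ := exists_linearIndependent L s
  rw [hs] at hspan
  have hfin : Finite c := hli.finite
  have : Fintype c := Fintype.ofFinite c
  have hcard : Fintype.card ι = Fintype.card c := by
    have h1 := Module.finrank_eq_card_basis (Basis.mk hli (by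
      rw [Subtype.range_coe_subtype, Set.ofPred_mem_eq, hspan]))
    rw [Module.finrank_fintype_fun_eq_card] at h1
    exact h1
  let eq : ι ≃ c := Fintype.equivOfCardEq hcard
  have hcol : ∀ j, ∃ y : Letter Q R.M, (eq j : ι → L) ∈ T.maxGenEigenspace (τ y.1.2) ∧
      (eq j : ι → L) ∈ R.dV L y.1.1 := by
    intro j
    obtain ⟨i, μ, h1, h2⟩ := hcs (eq j).2
    have h0 : (eq j : ι → L) ≠ 0 := hli.ne_zero (eq j)
    have hi : i ≤ R.M := by
      obtain ⟨k, hk⟩ : ∃ k, (eq j : ι → L) k ≠ 0 := by
        by_contra hcon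
        push Not at hcon
        exact h0 (funext hcon)
      have h3 : R.a k = i := by
        by_contra h3
        exact hk (h2 k h3)
      rw [← h3]
      exact R.le k
    obtain ⟨w, hw, hw0, hwμ⟩ := exists_eigenvec (fun w hw => dV_stab g hw) h2 h0 h1
    have hA : (aeval T (Q i)) w = 0 := by
      have h3 : aeval T (Q i) = Matrix.toLin' (aeval (R.AL L g) (Q i)) := by
        have h4 := Polynomial.aeval_algHom_apply
          ((Matrix.toLinAlgEquiv' : Matrix ι ι L ≃ₐ[L] _).toAlgHom.restrictScalars ℤ)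
          (R.AL L g) (Q i)
        exact h4
      have h4 : aeval (R.AL L g) (Q i) = (aeval (R.A g) (Q i)).map (algebraMap K L) := by
        have h5 := Polynomial.aeval_algHom_apply
          ((algebraMap K L).mapMatrix.toIntAlgHom : Matrix ι ι K →ₐ[ℤ] Matrix ι ι L)
          (R.A g) (Q i)
        exact h5
      rw [h3, h4, Matrix.toLin'_apply]
      funext k
      rw [Matrix.mulVec, dotProduct]
      refine Finset.sum_eq_zero fun l _ => ?_
      by_cases h5 : R.a l = i
      · rw [Matrix.map_apply, hk i hi l h5 k, map_zero, zero_mul]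
      · rw [hw l h5, mul_zero]
    have hroot : aeval μ (Q i) = 0 := by
      have h3 : (aeval T (Q i)) w = (aeval μ (Q i)) • w := by
        have h4 : ∀ P : ℤ[X], (aeval T P) w = (aeval μ P) • w := by
          intro P
          induction P using Polynomial.induction_on' with
          | add P P' hP hP' => rw [map_add, LinearMap.add_apply, hP, hP', map_add, add_smul]
          | monomial n c =>
            have h5 : ∀ n : ℕ, (T ^ n) w = μ ^ n • w := by
              intro n
              induction n with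
              | zero => rw [pow_zero, pow_zero, one_smul]; rfl
              | succ n ih => rw [pow_succ', Module.End.mul_apply, ih, map_smul, hwμ, smul_smul,
                  pow_succ]
            rw [aeval_monomial, aeval_monomial]
            simp only [algebraMap_int_eq, eq_intCast]
            rw [Module.End.mul_apply, h5, Module.End.intCast_apply, mul_smul,
              ← Int.cast_smul_eq_zsmul L]
        exact h4 _
      rw [hA] at h3
      exact (smul_eq_zero.1 h3.symm).resolve_right hw0
    obtain ⟨x, hx, hxμ⟩ := exists_root τ (hQ i hi).monic hroot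
    refine ⟨⟨(i, x), hi, hx⟩, ?_, h2⟩
    rw [hxμ]
    exact h1
  choose x hx1 hx2 using hcol
  let B : Matrix ι ι L := Matrix.of fun i j => (eq j : ι → L) i
  have hB : IsUnit B := by
    rw [← Matrix.linearIndependent_cols_iff_isUnit]
    have h1 : B.col = fun j => (eq j : ι → L) := rfl
    rw [h1]
    exact hli.comp eq eq.injective
  refine ⟨x, B, B⁻¹, ⟨?_, fun j => hx1 j⟩, fun i j h => hx2 j i h⟩
  exact Matrix.mul_nonsing_inv _ ((Matrix.isUnit_iff_isUnit_det _).1 hB)

end MRep

end Pool.Agent.Q60.TD
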